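import Pool.Agent.Q221.TL.Trans

/-!
# Joins and products
-/

set_option autoImplicit false

open MvPolynomial Pool.Agent.Y129.TA Pool.Agent.Y129.TB

set_option linter.unusedSectionVars false

namespace Pool.Agent.Q221.TL

/-- The join: the cone over it is the product of the cones. -/
def join {Ω ι₁ ι₂ : Type} (X₁ : Set (ι₁ → Ω)) (X₂ : Set (ι₂ → Ω)) : Set (ι₁ ⊕ ι₂ → Ω) :=
  {x | (fun i => x (Sum.inl i)) ∈ X₁ ∧ (fun i => x (Sum.inr i)) ∈ X₂}

/-- The product, embedded by the Segre embedding. -/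
def segre {Ω ι₁ ι₂ : Type} [Field Ω] (X₁ : Set (ι₁ → Ω)) (X₂ : Set (ι₂ → Ω)) :
    Set (ι₁ × ι₂ → Ω) :=
  {x | ∃ x₁ ∈ X₁, ∃ x₂ ∈ X₂, ∀ i, x i = x₁ i.1 * x₂ i.2}

section Forms

variable {k : Type} [Field k] {ι₁ ι₂ : Type} [Fintype ι₁] [Fintype ι₂]

theorem hom_decomp {m : ℕ} {u : MvPolynomial ι₁ k} (hu : u.IsHomogeneous (m + 1)) :
    ∃ w : ι₁ → MvPolynomial ι₁ k, (∀ i, (w i).IsHomogeneous m) ∧ u = ∑ i, X i * w i := by
  have h1 : u ∈ Ideal.span (Set.range (X : ι₁ → MvPolynomial ι₁ k)) :=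
    Ideal.pow_le_self (Nat.succ_ne_zero m) (Pool.Agent.Y129.TB.mem_pow_of_homogeneous hu)
  obtain ⟨c, hc⟩ := (Ideal.mem_span_range_iff_exists_fun).1 h1
  refine ⟨fun i => homogeneousComponent m (c i), fun i => homogeneousComponent_isHomogeneous _ _,
    ?_⟩
  rw [← homogeneousComponent_eq_self hu, ← hc, map_sum]
  refine Finset.sum_congr rfl fun i _ => ?_
  rw [Pool.Agent.Y129.TB.component_mul (isHomogeneous_X k i), if_pos (show 1 ≤ m + 1 by omega),
    Nat.add_sub_cancel, mul_comm]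

/-- The product of two forms of the same degree is a form in the products of the coordinates. -/
theorem segre_form : ∀ (m : ℕ) {u : MvPolynomial ι₁ k} {v : MvPolynomial ι₂ k}
    (_ : u.IsHomogeneous m) (_ : v.IsHomogeneous m), ∃ H : MvPolynomial (ι₁ × ι₂) k,
      H.IsHomogeneous m ∧ ∀ {Ω : Type} [Field Ω] [Algebra k Ω] (x : ι₁ → Ω) (y : ι₂ → Ω),
        aeval (fun i => x i.1 * y i.2) H = aeval x u * aeval y v := by
  classical
  intro m
  induction m with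
  | zero =>
    intro u v hu hv
    have h1 : u = C (coeff 0 u) := (totalDegree_eq_zero_iff_eq_C).1
      ((totalDegree_zero_iff_isHomogeneous _).2 hu)
    have h2 : v = C (coeff 0 v) := (totalDegree_eq_zero_iff_eq_C).1
      ((totalDegree_zero_iff_isHomogeneous _).2 hv)
    refine ⟨C (coeff 0 u * coeff 0 v), isHomogeneous_C _ _, fun x y => ?_⟩
    conv_rhs => rw [h1, h2]
    rw [aeval_C, aeval_C, aeval_C, map_mul]
  | succ m ih =>
    intro u v hu hv
    obtain ⟨w, hw, hu'⟩ := hom_decomp hu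
    obtain ⟨w', hw', hv'⟩ := hom_decomp hv
    choose H hH hHe using fun (i : ι₁) (j : ι₂) => ih (hw i) (hw' j)
    refine ⟨∑ i, ∑ j, X (i, j) * H i j, ?_, fun x y => ?_⟩
    · refine IsHomogeneous.sum _ _ _ fun i _ => IsHomogeneous.sum _ _ _ fun j _ => ?_
      rw [add_comm m 1]
      exact (isHomogeneous_X k (i, j)).mul (hH i j)
    · rw [hu', hv', map_sum, map_sum, map_sum, Finset.sum_mul_sum]
      refine Finset.sum_congr rfl fun i _ => ?_
      rw [map_sum]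
      refine Finset.sum_congr rfl fun j _ => ?_
      rw [map_mul, map_mul, map_mul, hHe i j x y, aeval_X, aeval_X, aeval_X]
      ring

end Forms

section Poly

variable {Ω : Type} [Field Ω]

/-- The polynomial with the coefficients `c i`. -/
noncomputable def poly {n : ℕ} (c : Fin (n + 1) → Ω) : Polynomial Ω :=
  ∑ i, Polynomial.C (c i) * Polynomial.X ^ (i : ℕ)

theorem poly_coeff {n : ℕ} (c : Fin (n + 1) → Ω) (i : Fin (n + 1)) : (poly c).coeff i = c i := by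
  unfold poly
  rw [Polynomial.finsetSum_coeff, Finset.sum_eq_single i]
  · rw [Polynomial.coeff_C_mul, Polynomial.coeff_X_pow, if_pos rfl, mul_one]
  · intro j _ hj
    rw [Polynomial.coeff_C_mul, Polynomial.coeff_X_pow, if_neg (fun h => hj (Fin.ext h.symm)),
      mul_zero]
  · intro h
    exact absurd (Finset.mem_univ i) h

theorem poly_mul_coeff {n m : ℕ} (a : Fin (n + 1) → Ω) (b : Fin (m + 1) → Ω) (s : ℕ) :
    (poly a * poly b).coeff s = ∑ i : Fin (n + 1), ∑ j : Fin (m + 1),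
      if (i : ℕ) + j = s then a i * b j else 0 := by
  unfold poly
  rw [Finset.sum_mul_sum, Polynomial.finsetSum_coeff]
  refine Finset.sum_congr rfl fun i _ => ?_
  rw [Polynomial.finsetSum_coeff]
  refine Finset.sum_congr rfl fun j _ => ?_
  have h1 : Polynomial.C (a i) * Polynomial.X ^ (i : ℕ) *
      (Polynomial.C (b j) * Polynomial.X ^ (j : ℕ)) =
        Polynomial.C (a i * b j) * Polynomial.X ^ ((i : ℕ) + j) := by
    rw [map_mul, pow_add]
    ring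
  rw [h1, Polynomial.coeff_C_mul, Polynomial.coeff_X_pow]
  by_cases h : (i : ℕ) + j = s
  · rw [if_pos h.symm, if_pos h, mul_one]
  · rw [if_neg (fun h' => h h'.symm), if_neg h, mul_zero]

theorem poly_eq {n : ℕ} {P : Polynomial Ω} (hP : P.natDegree ≤ n) :
    poly (fun i : Fin (n + 1) => P.coeff i) = P := by
  unfold poly
  have h := Polynomial.as_sum_range_C_mul_X_pow' (p := P) (n := n + 1) (by omega)
  conv_rhs => rw [h]
  rw [Finset.sum_range]

theorem factor [IsAlgClosed Ω] : ∀ (a b : ℕ) (P : Polynomial Ω), P.natDegree ≤ a + b →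
    ∃ U V : Polynomial Ω, U.natDegree ≤ a ∧ V.natDegree ≤ b ∧ P = U * V := by
  intro a
  induction a with
  | zero =>
    intro b P hP
    exact ⟨1, P, by simp, by omega, (one_mul P).symm⟩
  | succ a ih =>
    intro b P hP
    by_cases h : P.natDegree ≤ a + b
    · obtain ⟨U, V, hU, hV, hUV⟩ := ih b P h
      exact ⟨U, V, by omega, hV, hUV⟩
    · have hP0 : P ≠ 0 := by
        rintro rfl
        simp at h
      have hdeg : P.degree ≠ 0 := by
        intro h0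
        have := Polynomial.natDegree_eq_of_degree_eq_some (n := 0) h0
        omega
      obtain ⟨r, hr⟩ := IsAlgClosed.exists_root P hdeg
      obtain ⟨P', hP'⟩ := Polynomial.dvd_iff_isRoot.2 hr
      have hP'0 : P' ≠ 0 := by
        rintro rfl
        exact hP0 (by rw [hP', mul_zero])
      have h1 : P.natDegree = 1 + P'.natDegree := by
        rw [hP', Polynomial.natDegree_mul (Polynomial.X_sub_C_ne_zero r) hP'0,
          Polynomial.natDegree_X_sub_C]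
      obtain ⟨U, V, hU, hV, hUV⟩ := ih b P' (by omega)
      refine ⟨(Polynomial.X - Polynomial.C r) * U, V, ?_, hV, by rw [hP', hUV, mul_assoc]⟩
      refine (Polynomial.natDegree_mul_le).trans ?_
      rw [Polynomial.natDegree_X_sub_C]
      omega

end Poly

section Combine

variable {k : Type} [Field k] {ι₁ ι₂ : Type} [Fintype ι₁] [Fintype ι₂]

/-- The coefficients of the product polynomial as forms in the products of the coordinates. -/
theorem combine {e n m : ℕ} (u : Fin (n + 1) → MvPolynomial ι₁ k)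
    (v : Fin (m + 1) → MvPolynomial ι₂ k) (hu : ∀ i, (u i).IsHomogeneous e)
    (hv : ∀ i, (v i).IsHomogeneous e) : ∃ Q : Fin (n + m + 1) → MvPolynomial (ι₁ × ι₂) k,
      (∀ s, (Q s).IsHomogeneous e) ∧ ∀ {Ω : Type} [Field Ω] [Algebra k Ω] (x : ι₁ → Ω)
        (y : ι₂ → Ω) (s : Fin (n + m + 1)), aeval (fun i => x i.1 * y i.2) (Q s) =
          (poly (fun i => aeval x (u i)) * poly (fun i => aeval y (v i))).coeff s := by
  classical
  choose H hH hHe using fun (i : Fin (n + 1)) (j : Fin (m + 1)) => segre_form e (hu i) (hv j)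
  refine ⟨fun s => ∑ i : Fin (n + 1), ∑ j : Fin (m + 1), if (i : ℕ) + j = s then H i j else 0,
    fun s => ?_, fun x y s => ?_⟩
  · refine IsHomogeneous.sum _ _ _ fun i _ => IsHomogeneous.sum _ _ _ fun j _ => ?_
    split_ifs
    · exact hH i j
    · exact isHomogeneous_zero _ _ _
  · rw [poly_mul_coeff, map_sum]
    refine Finset.sum_congr rfl fun i _ => ?_
    rw [map_sum]
    refine Finset.sum_congr rfl fun j _ => ?_
    split_ifs
    · exact hHe i j x y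
    · exact map_zero _

theorem poly_mul_eq_zero {Ω : Type} [Field Ω] {n m : ℕ} {a : Fin (n + 1) → Ω}
    {b : Fin (m + 1) → Ω} (h : ∀ s : Fin (n + m + 1), (poly a * poly b).coeff s = 0) :
    (∀ i, a i = 0) ∨ ∀ i, b i = 0 := by
  have h1 : poly a * poly b = 0 := by
    ext s
    rw [Polynomial.coeff_zero]
    by_cases hs : s < n + m + 1
    · exact h ⟨s, hs⟩
    · rw [poly_mul_coeff]
      refine Finset.sum_eq_zero fun i _ => Finset.sum_eq_zero fun j _ => if_neg ?_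
      have := i.2
      have := j.2
      omega
  rcases mul_eq_zero.1 h1 with h2 | h2
  · left
    intro i
    rw [← poly_coeff a i, h2, Polynomial.coeff_zero]
  · right
    intro i
    rw [← poly_coeff b i, h2, Polynomial.coeff_zero]

end Combine

section Cones

variable {k Ω : Type} [Field k] [Field Ω] [Algebra k Ω] [IsAlgClosed Ω] {ι₁ ι₂ : Type}
  [Fintype ι₁] [Fintype ι₂] {X₁ : Set (ι₁ → Ω)} {X₂ : Set (ι₂ → Ω)}

theorem join_over (h₁ : IsConeOver k X₁) (h₂ : IsConeOver k X₂) (z₁ : (0 : ι₁ → Ω) ∈ X₁)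
    (z₂ : (0 : ι₂ → Ω) ∈ X₂) : IsConeOver k (join X₁ X₂) := by
  obtain ⟨N₁, P₁, D₁, hD₁, hP₁, hX₁⟩ := defining h₁ z₁
  obtain ⟨N₂, P₂, D₂, hD₂, hP₂, hX₂⟩ := defining h₂ z₂
  have h3 : join X₁ X₂ = {x | ∀ j, aeval x (Sum.elim (fun l => rename Sum.inl (P₁ l))
      (fun l => rename Sum.inr (P₂ l)) j) = 0} := by
    ext x
    simp only [join, Set.mem_ofPred_eq]
    rw [hX₁, hX₂]
    constructor
    · rintro ⟨h, h'⟩ (j | j)
      · rw [Sum.elim_inl, aeval_rename]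
        exact h j
      · rw [Sum.elim_inr, aeval_rename]
        exact h' j
    · intro h
      refine ⟨fun j => ?_, fun j => ?_⟩
      · have := h (Sum.inl j)
        rw [Sum.elim_inl, aeval_rename] at this
        exact this
      · have := h (Sum.inr j)
        rw [Sum.elim_inr, aeval_rename] at this
        exact this
  rw [h3]
  refine over_of_forms _ ?_
  rintro (j | j)
  · exact ⟨D₁ j, hD₁ j, (hP₁ j).rename_isHomogeneous⟩
  · exact ⟨D₂ j, hD₂ j, (hP₂ j).rename_isHomogeneous⟩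

theorem segre_over (h₁ : IsConeOver k X₁) (h₂ : IsConeOver k X₂) (z₁ : (0 : ι₁ → Ω) ∈ X₁)
    (z₂ : (0 : ι₂ → Ω) ∈ X₂) : IsConeOver k (segre X₁ X₂) := by
  obtain ⟨N₁, P₁, D₁, hD₁, hP₁, hX₁⟩ := defining h₁ z₁
  obtain ⟨N₂, P₂, D₂, hD₂, hP₂, hX₂⟩ := defining h₂ z₂
  let G : ((ι₁ × ι₂) × (ι₁ × ι₂)) ⊕ ((ι₂ × Fin N₁) ⊕ (ι₁ × Fin N₂)) → MvPolynomial (ι₁ × ι₂) k :=
    Sum.elim (fun t => X t.1 * X t.2 - X (t.1.1, t.2.2) * X (t.2.1, t.1.2))
      (Sum.elim (fun t => rename (fun i => (i, t.1)) (P₁ t.2))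
        fun t => rename (fun j => (t.1, j)) (P₂ t.2))
  have h3 : segre X₁ X₂ = {x | ∀ j, aeval x (G j) = 0} := by
    ext x
    constructor
    · rintro ⟨x₁, hx₁, x₂, hx₂, hx⟩
      rintro (t | t | t)
      · simp only [G, Sum.elim_inl, map_sub, map_mul, aeval_X, hx]
        ring
      · simp only [G, Sum.elim_inr, Sum.elim_inl, aeval_rename]
        have h4 : x ∘ (fun i => (i, t.1)) = x₂ t.1 • x₁ := by
          funext i
          simp [hx, mul_comm]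
        rw [h4]
        have h5 := h₁.2 (x₂ t.1) x₁ hx₁
        rw [hX₁] at h5
        exact h5 t.2
      · simp only [G, Sum.elim_inr, aeval_rename]
        have h4 : x ∘ (fun j => (t.1, j)) = x₁ t.1 • x₂ := by
          funext i
          simp [hx]
        rw [h4]
        have h5 := h₂.2 (x₁ t.1) x₂ hx₂
        rw [hX₂] at h5
        exact h5 t.2
    · intro h
      by_cases hx0 : x = 0
      · refine ⟨0, z₁, 0, z₂, fun i => ?_⟩
        rw [hx0]
        simp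
      obtain ⟨⟨i₀, j₀⟩, h0⟩ : ∃ t, x t ≠ 0 := Function.ne_iff.1 hx0
      have h0' : x (i₀, j₀) ≠ 0 := h0
      refine ⟨(x (i₀, j₀))⁻¹ • fun i => x (i, j₀), h₁.2 _ _ ?_, fun j => x (i₀, j), ?_, ?_⟩
      · rw [hX₁]
        intro l
        have := h (Sum.inr (Sum.inl (j₀, l)))
        simp only [G, Sum.elim_inr, Sum.elim_inl, aeval_rename] at this
        exact this
      · rw [hX₂]
        intro l
        have := h (Sum.inr (Sum.inr (i₀, l)))
        simp only [G, Sum.elim_inr, aeval_rename] at this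
        exact this
      · rintro ⟨i, j⟩
        have := h (Sum.inl ((i, j), (i₀, j₀)))
        simp only [G, Sum.elim_inl, map_sub, map_mul, aeval_X] at this
        simp only [Pi.smul_apply, smul_eq_mul]
        rw [mul_assoc, eq_inv_mul_iff_mul_eq₀ h0']
        linear_combination this
  rw [h3]
  refine over_of_forms _ ?_
  rintro (t | t | t)
  · exact ⟨2, two_pos, ((isHomogeneous_X k _).mul (isHomogeneous_X k _)).sub
      ((isHomogeneous_X k _).mul (isHomogeneous_X k _))⟩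
  · exact ⟨D₁ t.2, hD₁ t.2, (hP₁ t.2).rename_isHomogeneous⟩
  · exact ⟨D₂ t.2, hD₂ t.2, (hP₂ t.2).rename_isHomogeneous⟩

theorem join_le {d₁ d₂ : ℕ} (h₁ : DimLEOver k X₁ d₁) (h₂ : DimLEOver k X₂ d₂) :
    DimLEOver k (join X₁ X₂) (d₁ + d₂ + 1) := by
  obtain ⟨q₁, hq₁, h₁⟩ := h₁
  obtain ⟨q₂, hq₂, h₂⟩ := h₂
  let e : Fin (d₁ + d₂ + 1 + 1) ≃ Fin (d₁ + 1) ⊕ Fin (d₂ + 1) :=
    (finCongr (by omega)).trans finSumFinEquiv.symm
  refine ⟨fun j => Sum.elim (fun l => rename Sum.inl (q₁ l)) (fun l => rename Sum.inr (q₂ l)) (e j),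
    fun j => ?_, fun x hx hxq => ?_⟩
  · beta_reduce
    rcases e j with l | l
    · obtain ⟨D, hD, h⟩ := hq₁ l
      exact ⟨D, hD, h.rename_isHomogeneous⟩
    · obtain ⟨D, hD, h⟩ := hq₂ l
      exact ⟨D, hD, h.rename_isHomogeneous⟩
  · have h3 : (fun i => x (Sum.inl i)) = 0 := h₁ _ hx.1 fun l => by
      have := hxq (e.symm (Sum.inl l))
      beta_reduce at this
      rw [Equiv.apply_symm_apply, Sum.elim_inl, aeval_rename] at this
      exact this
    have h4 : (fun i => x (Sum.inr i)) = 0 := h₂ _ hx.2 fun l => by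
      have := hxq (e.symm (Sum.inr l))
      beta_reduce at this
      rw [Equiv.apply_symm_apply, Sum.elim_inr, aeval_rename] at this
      exact this
    funext t
    rcases t with t | t
    · exact congrFun h3 t
    · exact congrFun h4 t

theorem segre_le {d₁ d₂ : ℕ} (h₁ : DimLEOver k X₁ d₁) (h₂ : DimLEOver k X₂ d₂) :
    DimLEOver k (segre X₁ X₂) (d₁ + d₂) := by
  obtain ⟨q₁, hq₁, h₁⟩ := h₁
  obtain ⟨q₂, hq₂, h₂⟩ := h₂
  obtain ⟨e₁, he₁, N₁, hN₁, hu₁⟩ := same_degree' q₁ hq₁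
  obtain ⟨e₂, he₂, N₂, hN₂, hu₂⟩ := same_degree' q₂ hq₂
  obtain ⟨Q, hQ, hQe⟩ := combine (e := e₁ * e₂) (fun i => (q₁ i ^ N₁ i) ^ e₂)
    (fun i => (q₂ i ^ N₂ i) ^ e₁) (fun i => (hu₁ i).pow e₂) (fun i => by
      rw [mul_comm e₁ e₂]
      exact (hu₂ i).pow e₁)
  refine ⟨Q, fun s => ⟨e₁ * e₂, Nat.mul_pos he₁ he₂, hQ s⟩, ?_⟩
  rintro x ⟨x₁, hx₁, x₂, hx₂, hx⟩ hxQ
  have hx' : x = fun i => x₁ i.1 * x₂ i.2 := funext hx
  have h3 := poly_mul_eq_zero (a := fun i => aeval x₁ ((q₁ i ^ N₁ i) ^ e₂))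
    (b := fun i => aeval x₂ ((q₂ i ^ N₂ i) ^ e₁)) (fun s => by
      rw [← hQe, ← hx']
      exact hxQ s)
  rcases h3 with h3 | h3
  · have h4 : x₁ = 0 := h₁ x₁ hx₁ fun i => by
      have := h3 i
      rw [map_pow, map_pow] at this
      exact (pow_eq_zero_iff (hN₁ i).ne').1 ((pow_eq_zero_iff he₂.ne').1 this)
    rw [hx', h4]
    funext i
    exact zero_mul _
  · have h4 : x₂ = 0 := h₂ x₂ hx₂ fun i => by
      have := h3 i
      rw [map_pow, map_pow] at this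
      exact (pow_eq_zero_iff (hN₂ i).ne').1 ((pow_eq_zero_iff he₁.ne').1 this)
    rw [hx', h4]
    funext i
    exact mul_zero _

end Cones

section Dims

variable {Ω : Type} [Field Ω] [IsAlgClosed Ω] {ι₁ ι₂ : Type}
  [Fintype ι₁] [Fintype ι₂] {X₁ : Set (ι₁ → Ω)} {X₂ : Set (ι₂ → Ω)}

theorem join_onto {d₁ d₂ : ℕ} (h₁ : Onto X₁ (Fin (d₁ + 1))) (h₂ : Onto X₂ (Fin (d₂ + 1))) :
    Onto (join X₁ X₂) (Fin (d₁ + 1) ⊕ Fin (d₂ + 1)) := by
  obtain ⟨e₁, he₁, u, hu, hu0, hus⟩ := h₁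
  obtain ⟨e₂, he₂, v, hv, hv0, hvs⟩ := h₂
  refine ⟨e₁ * e₂, Nat.mul_pos he₁ he₂, Sum.elim (fun j => rename Sum.inl (u j) ^ e₂)
    (fun j => rename Sum.inr (v j) ^ e₁), ?_, ?_, ?_⟩
  · rintro (j | j)
    · exact ((hu j).rename_isHomogeneous).pow e₂
    · rw [mul_comm]
      exact ((hv j).rename_isHomogeneous).pow e₁
  · intro x hx hxq
    have h3 : (fun i => x (Sum.inl i)) = 0 := hu0 _ hx.1 fun l => by
      have := hxq (Sum.inl l)
      rw [Sum.elim_inl, map_pow, eval_rename] at this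
      exact (pow_eq_zero_iff he₂.ne').1 this
    have h4 : (fun i => x (Sum.inr i)) = 0 := hv0 _ hx.2 fun l => by
      have := hxq (Sum.inr l)
      rw [Sum.elim_inr, map_pow, eval_rename] at this
      exact (pow_eq_zero_iff he₁.ne').1 this
    funext t
    rcases t with t | t
    · exact congrFun h3 t
    · exact congrFun h4 t
  · intro c
    choose a ha using fun i => IsAlgClosed.exists_pow_nat_eq (c (Sum.inl i)) he₂
    choose b hb using fun i => IsAlgClosed.exists_pow_nat_eq (c (Sum.inr i)) he₁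
    obtain ⟨x, hx, hxa⟩ := hus a
    obtain ⟨y, hy, hyb⟩ := hvs b
    refine ⟨Sum.elim x y, ⟨hx, hy⟩, ?_⟩
    rintro (j | j)
    · rw [Sum.elim_inl, map_pow, eval_rename, Sum.elim_comp_inl, hxa, ha]
    · rw [Sum.elim_inr, map_pow, eval_rename, Sum.elim_comp_inr, hyb, hb]

theorem segre_onto {d₁ d₂ : ℕ} (h₁ : Onto X₁ (Fin (d₁ + 1))) (h₂ : Onto X₂ (Fin (d₂ + 1))) :
    Onto (segre X₁ X₂) (Fin (d₁ + d₂ + 1)) := by
  obtain ⟨e₁, he₁, u, hu, hu0, hus⟩ := h₁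
  obtain ⟨e₂, he₂, v, hv, hv0, hvs⟩ := h₂
  obtain ⟨Q, hQ, hQe⟩ := combine (e := e₁ * e₂) (fun i => u i ^ e₂)
    (fun i => v i ^ e₁) (fun i => (hu i).pow e₂) (fun i => by
      rw [mul_comm e₁ e₂]
      exact (hv i).pow e₁)
  have hQe' : ∀ (x₁ : ι₁ → Ω) (x₂ : ι₂ → Ω) s, eval (fun i : ι₁ × ι₂ => x₁ i.1 * x₂ i.2) (Q s) =
      (poly (fun i => eval x₁ (u i) ^ e₂) * poly (fun i => eval x₂ (v i) ^ e₁)).coeff s := by
    intro x₁ x₂ s
    have := hQe (Ω := Ω) x₁ x₂ s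
    rw [aeval_eq_eval] at this
    simpa using this
  refine ⟨e₁ * e₂, Nat.mul_pos he₁ he₂, Q, hQ, ?_, ?_⟩
  · rintro x ⟨x₁, hx₁, x₂, hx₂, hx⟩ hxQ
    have hx' : x = fun i => x₁ i.1 * x₂ i.2 := funext hx
    have h3 := poly_mul_eq_zero (a := fun i => eval x₁ (u i) ^ e₂)
      (b := fun i => eval x₂ (v i) ^ e₁) (fun s => by
        rw [← hQe', ← hx']
        exact hxQ s)
    rcases h3 with h3 | h3
    · have h4 : x₁ = 0 := hu0 x₁ hx₁ fun i => (pow_eq_zero_iff he₂.ne').1 (h3 i)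
      rw [hx', h4]
      funext i
      exact zero_mul _
    · have h4 : x₂ = 0 := hv0 x₂ hx₂ fun i => (pow_eq_zero_iff he₁.ne').1 (h3 i)
      rw [hx', h4]
      funext i
      exact mul_zero _
  · intro c
    obtain ⟨U, V, hU, hV, hUV⟩ := factor d₁ d₂ (poly c) (by
      unfold poly
      refine Polynomial.natDegree_sum_le_of_forall_le _ _ fun i _ => ?_
      refine (Polynomial.natDegree_C_mul_X_pow_le _ _).trans ?_
      have := i.2
      omega)
    choose a ha using fun i : Fin (d₁ + 1) => IsAlgClosed.exists_pow_nat_eq (U.coeff i) he₂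
    choose b hb using fun i : Fin (d₂ + 1) => IsAlgClosed.exists_pow_nat_eq (V.coeff i) he₁
    obtain ⟨x, hx, hxa⟩ := hus a
    obtain ⟨y, hy, hyb⟩ := hvs b
    refine ⟨fun i => x i.1 * y i.2, ⟨x, hx, y, hy, fun i => rfl⟩, fun s => ?_⟩
    rw [hQe']
    have h5 : poly (fun i => eval x (u i) ^ e₂) = U := by
      rw [← poly_eq hU]
      congr 1
      funext i
      rw [hxa, ha]
    have h6 : poly (fun i => eval y (v i) ^ e₁) = V := by
      rw [← poly_eq hV]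
      congr 1
      funext i
      rw [hyb, hb]
    rw [h5, h6, ← hUV, poly_coeff]

end Dims

section Approx

variable {p : ℕ} [hp : Fact p.Prime] {C F K E : Type} [Field C] [Field F] [CharP F p] [Field K]
  [Field E] [Algebra K C] [Algebra E F] {ι₁ ι₂ : Type} [Fintype ι₁] [Fintype ι₂]
  {X₁ : Set (ι₁ → C)} {X₂ : Set (ι₂ → C)}

theorem join_ge {Ω k : Type} [Field Ω] [IsAlgClosed Ω] [Field k] [Algebra k Ω] {ι₁ ι₂ : Type}
    [Fintype ι₁] [Fintype ι₂] {X₁ : Set (ι₁ → Ω)} {X₂ : Set (ι₂ → Ω)}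
    (h₁ : IsConeOver k X₁) (h₂ : IsConeOver k X₂) {d₁ d₂ : ℕ} (g₁ : DimGE X₁ d₁)
    (l₁ : DimLE X₁ d₁) (g₂ : DimGE X₂ d₂) (l₂ : DimLE X₂ d₂) :
    DimGE (join X₁ X₂) (d₁ + d₂ + 1) := by
  refine dimGE_of_onto (cone_of_over (join_over h₁ h₂ (zero_mem_of_dimGE h₁.2 g₁)
    (zero_mem_of_dimGE h₂.2 g₂))) (join_onto (onto_of_dim h₁.2 g₁ l₁) (onto_of_dim h₂.2 g₂ l₂)) ?_
  rw [Nat.card_eq_fintype_card, Fintype.card_sum, Fintype.card_fin, Fintype.card_fin]
  omega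

theorem segre_ge {Ω k : Type} [Field Ω] [IsAlgClosed Ω] [Field k] [Algebra k Ω] {ι₁ ι₂ : Type}
    [Fintype ι₁] [Fintype ι₂] {X₁ : Set (ι₁ → Ω)} {X₂ : Set (ι₂ → Ω)}
    (h₁ : IsConeOver k X₁) (h₂ : IsConeOver k X₂) {d₁ d₂ : ℕ} (g₁ : DimGE X₁ d₁)
    (l₁ : DimLE X₁ d₁) (g₂ : DimGE X₂ d₂) (l₂ : DimLE X₂ d₂) :
    DimGE (segre X₁ X₂) (d₁ + d₂) := by
  refine dimGE_of_onto (cone_of_over (segre_over h₁ h₂ (zero_mem_of_dimGE h₁.2 g₁)
    (zero_mem_of_dimGE h₂.2 g₂))) (segre_onto (onto_of_dim h₁.2 g₁ l₁) (onto_of_dim h₂.2 g₂ l₂)) ?_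
  rw [Nat.card_eq_fintype_card, Fintype.card_fin]

/-- Q1 is stable under joins. -/
theorem approx_join [IsAlgClosed C] [IsAlgClosed F] (T : Tilting p C F) (B : BaseField T K E)
    [Nonempty ι₁] {d₁ d₂ : ℕ} (h₁ : IsConeOver K X₁) (h₂ : IsConeOver K X₂)
    (a₁ : Approximable T.toTiltPair K E X₁ d₁) (a₂ : Approximable T.toTiltPair K E X₂ d₂)
    (l₁ : DimLEOver K X₁ d₁) (l₂ : DimLEOver K X₂ d₂) :
    Approximable T.toTiltPair K E (join X₁ X₂) (d₁ + d₂ + 1) := by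
  classical
  have z₁ := zero_mem_of_approx h₁ a₁
  have z₂ := zero_mem_of_approx h₂ a₂
  have hz : (0 : ι₁ ⊕ ι₂ → C) ∈ join X₁ X₂ := ⟨z₁, z₂⟩
  refine mk_approx T B (join_over h₁ h₂ z₁ z₂) hz (join_le l₁ l₂) ?_
  intro r P DP hP hPX ε hε
  obtain ⟨N₁, R₁, D₁, hD₁, hR₁, hX₁⟩ := defining h₁ z₁
  obtain ⟨N₂, R₂, D₂, hD₂, hR₂, hX₂⟩ := defining h₂ z₂
  let Q : Fin N₁ ⊕ Fin N₂ → MvPolynomial (ι₁ ⊕ ι₂) C := fun l =>
    MvPolynomial.map (algebraMap K C) (Sum.elim (fun l => rename Sum.inl (R₁ l))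
      (fun l => rename Sum.inr (R₂ l)) l)
  have hQ₁ : ∀ l (v : ι₁ ⊕ ι₂ → C), eval v (Q (Sum.inl l)) =
      aeval (fun i => v (Sum.inl i)) (R₁ l) := by
    intro l v
    change eval v (MvPolynomial.map (algebraMap K C) (rename Sum.inl (R₁ l))) = _
    rw [eval_map_alg, aeval_rename]
    rfl
  have hQ₂ : ∀ l (v : ι₁ ⊕ ι₂ → C), eval v (Q (Sum.inr l)) =
      aeval (fun i => v (Sum.inr i)) (R₂ l) := by
    intro l v
    change eval v (MvPolynomial.map (algebraMap K C) (rename Sum.inr (R₂ l))) = _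
    rw [eval_map_alg, aeval_rename]
    rfl
  have s3 : ∀ k : Fin r, ∃ δ : ℝ, 0 < δ ∧ ∀ v : ι₁ ⊕ ι₂ → C, (∀ i, T.absK (v i) ≤ 1) →
      (∀ l, T.absK (eval v (Q l)) ≤ δ) →
      T.absK (eval v (MvPolynomial.map (algebraMap K C) (P k))) ≤ ε := by
    intro k
    refine small T.ultraK _ _ (fun v hv => ?_) hε
    rw [eval_map_alg]
    refine hPX k v ⟨?_, ?_⟩
    · rw [hX₁]
      intro l
      rw [← hQ₁]
      exact hv _
    · rw [hX₂]
      intro l
      rw [← hQ₂]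
      exact hv _
  choose δ₃ hδ₃ hs3 using s3
  obtain ⟨δ, hδ, hδ'⟩ := exists_pos_le δ₃ hδ₃
  obtain ⟨Y₁, c₁, ge₁, le₁, t₁⟩ := a₁ N₁ R₁ D₁ hR₁ (fun l x hx => by
    rw [hX₁] at hx; exact hx l) δ hδ
  obtain ⟨Y₂, c₂, ge₂, le₂, t₂⟩ := a₂ N₂ R₂ D₂ hR₂ (fun l x hx => by
    rw [hX₂] at hx; exact hx l) δ hδ
  refine ⟨join Y₁ Y₂, join_over c₁ c₂ (zero_mem_of_dimGE c₁.2 ge₁) (zero_mem_of_dimGE c₂.2 ge₂),
    join_ge c₁ c₂ ge₁ le₁ ge₂ le₂, ?_⟩
  rintro y ⟨hy₁, hy₂⟩ k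
  by_cases hy0 : y = 0
  · rw [hy0]
    exact tube_zero _ hε.le (hPX k 0 hz)
  · obtain ⟨b, hb, h1, t, ht⟩ := exists_normal T.toTiltPair hy0
    refine tube_of_normal T.toTiltPair (hP k) hε.le hb ⟨t, ht⟩ ?_
    rw [← eval_map_alg]
    refine hs3 k (fun t => T.sharp (b * y t)) (fun i => by rw [T.abs_sharp]; exact h1 i) ?_
    rintro (l | l)
    · rw [hQ₁]
      exact (tube_scale T.toTiltPair (hR₁ l) (t₁ _ hy₁ l) hb fun i => h1 _).trans (hδ' k)
    · rw [hQ₂]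
      exact (tube_scale T.toTiltPair (hR₂ l) (t₂ _ hy₂ l) hb fun i => h1 _).trans (hδ' k)

/-- Q1 is stable under products. -/
theorem approx_segre [IsAlgClosed C] [IsAlgClosed F] (T : Tilting p C F) (B : BaseField T K E)
    [Nonempty ι₁] [Nonempty ι₂] {d₁ d₂ : ℕ} (h₁ : IsConeOver K X₁) (h₂ : IsConeOver K X₂)
    (a₁ : Approximable T.toTiltPair K E X₁ d₁) (a₂ : Approximable T.toTiltPair K E X₂ d₂)
    (l₁ : DimLEOver K X₁ d₁) (l₂ : DimLEOver K X₂ d₂) :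
    Approximable T.toTiltPair K E (segre X₁ X₂) (d₁ + d₂) := by
  classical
  have z₁ := zero_mem_of_approx h₁ a₁
  have z₂ := zero_mem_of_approx h₂ a₂
  have hz : (0 : ι₁ × ι₂ → C) ∈ segre X₁ X₂ := ⟨0, z₁, 0, z₂, fun i => (zero_mul _).symm⟩
  refine mk_approx T B (segre_over h₁ h₂ z₁ z₂) hz (segre_le l₁ l₂) ?_
  intro r P DP hP hPX ε hε
  obtain ⟨N₁, R₁, D₁, hD₁, hR₁, hX₁⟩ := defining h₁ z₁
  obtain ⟨N₂, R₂, D₂, hD₂, hR₂, hX₂⟩ := defining h₂ z₂
  let Q : Fin N₁ ⊕ Fin N₂ → MvPolynomial (ι₁ ⊕ ι₂) C := fun l =>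
    MvPolynomial.map (algebraMap K C) (Sum.elim (fun l => rename Sum.inl (R₁ l))
      (fun l => rename Sum.inr (R₂ l)) l)
  have hQ₁ : ∀ l (v : ι₁ ⊕ ι₂ → C), eval v (Q (Sum.inl l)) =
      aeval (fun i => v (Sum.inl i)) (R₁ l) := by
    intro l v
    change eval v (MvPolynomial.map (algebraMap K C) (rename Sum.inl (R₁ l))) = _
    rw [eval_map_alg, aeval_rename]
    rfl
  have hQ₂ : ∀ l (v : ι₁ ⊕ ι₂ → C), eval v (Q (Sum.inr l)) =
      aeval (fun i => v (Sum.inr i)) (R₂ l) := by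
    intro l v
    change eval v (MvPolynomial.map (algebraMap K C) (rename Sum.inr (R₂ l))) = _
    rw [eval_map_alg, aeval_rename]
    rfl
  let Pp : Fin r → MvPolynomial (ι₁ ⊕ ι₂) K := fun k =>
    aeval (fun i : ι₁ × ι₂ => MvPolynomial.X (Sum.inl i.1) * MvPolynomial.X (Sum.inr i.2)) (P k)
  have hPp : ∀ k (v : ι₁ ⊕ ι₂ → C), aeval v (Pp k) =
      aeval (fun i : ι₁ × ι₂ => v (Sum.inl i.1) * v (Sum.inr i.2)) (P k) := by
    intro k v
    change aeval v (aeval _ (P k)) = _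
    rw [aeval_comp]
    simp
  have s3 : ∀ k : Fin r, ∃ δ : ℝ, 0 < δ ∧ ∀ v : ι₁ ⊕ ι₂ → C, (∀ i, T.absK (v i) ≤ 1) →
      (∀ l, T.absK (eval v (Q l)) ≤ δ) →
      T.absK (eval v (MvPolynomial.map (algebraMap K C) (Pp k))) ≤ ε := by
    intro k
    refine small T.ultraK _ _ (fun v hv => ?_) hε
    rw [eval_map_alg, hPp]
    refine hPX k _ ⟨fun i => v (Sum.inl i), ?_, fun i => v (Sum.inr i), ?_, fun i => rfl⟩
    · rw [hX₁]
      intro l
      rw [← hQ₁]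
      exact hv _
    · rw [hX₂]
      intro l
      rw [← hQ₂]
      exact hv _
  choose δ₃ hδ₃ hs3 using s3
  obtain ⟨δ, hδ, hδ'⟩ := exists_pos_le δ₃ hδ₃
  obtain ⟨Y₁, c₁, ge₁, le₁, t₁⟩ := a₁ N₁ R₁ D₁ hR₁ (fun l x hx => by
    rw [hX₁] at hx; exact hx l) δ hδ
  obtain ⟨Y₂, c₂, ge₂, le₂, t₂⟩ := a₂ N₂ R₂ D₂ hR₂ (fun l x hx => by
    rw [hX₂] at hx; exact hx l) δ hδ
  refine ⟨segre Y₁ Y₂, segre_over c₁ c₂ (zero_mem_of_dimGE c₁.2 ge₁)
    (zero_mem_of_dimGE c₂.2 ge₂), segre_ge c₁ c₂ ge₁ le₁ ge₂ le₂, ?_⟩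
  rintro y ⟨y₁, hy₁, y₂, hy₂, hy⟩ k
  by_cases hy0 : y = 0
  · rw [hy0]
    exact tube_zero _ hε.le (hPX k 0 hz)
  · have hy₁0 : y₁ ≠ 0 := by
      rintro rfl
      exact hy0 (funext fun i => by rw [hy i]; exact zero_mul _)
    have hy₂0 : y₂ ≠ 0 := by
      rintro rfl
      exact hy0 (funext fun i => by rw [hy i]; exact mul_zero _)
    obtain ⟨b₁, hb₁, h1, s, hs⟩ := exists_normal T.toTiltPair hy₁0
    obtain ⟨b₂, hb₂, h2, t, ht⟩ := exists_normal T.toTiltPair hy₂0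
    have hb : ∀ i : ι₁ × ι₂, b₁ * b₂ * y i = (b₁ * y₁ i.1) * (b₂ * y₂ i.2) := fun i => by
      rw [hy i]
      ring
    refine tube_of_normal T.toTiltPair (hP k) hε.le (mul_ne_zero hb₁ hb₂) ⟨(s, t), ?_⟩ ?_
    · rw [hb, map_mul, hs, ht, mul_one]
    · have h3 := hs3 k (Sum.elim (fun t => T.sharp (b₁ * y₁ t)) fun t => T.sharp (b₂ * y₂ t))
        (by
          rintro (i | i)
          · rw [Sum.elim_inl, T.abs_sharp]
            exact h1 i
          · rw [Sum.elim_inr, T.abs_sharp]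
            exact h2 i) (by
          rintro (l | l)
          · rw [hQ₁]
            exact (tube_scale T.toTiltPair (hR₁ l) (t₁ _ hy₁ l) hb₁ h1).trans (hδ' k)
          · rw [hQ₂]
            exact (tube_scale T.toTiltPair (hR₂ l) (t₂ _ hy₂ l) hb₂ h2).trans (hδ' k))
      rw [eval_map_alg, hPp] at h3
      have h4 : (fun i : ι₁ × ι₂ => T.sharp (b₁ * b₂ * y i)) =
          fun i => T.sharp (b₁ * y₁ i.1) * T.sharp (b₂ * y₂ i.2) :=
        funext fun i => by rw [hb, map_mul]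
      rw [h4]
      exact h3

end Approx

end Pool.Agent.Q221.TL
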