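import Pool.Agent.Q221.TL.Low
import Pool.Agent.Q221.TL.Join

/-!
# Closure properties of Q1
-/

set_option autoImplicit false

open MvPolynomial Pool.Agent.Y129.TA Pool.Agent.Y129.TB

set_option linter.unusedSectionVars false

namespace Pool.Agent.Q221.TL

/-- The set of the common zeros `z` over `Ω` of the forms `h j` such that `φ s (z)` is in `X s` for
all `s`. -/
def fiberSet (Ω : Type) [Field Ω] {k : Type} [Field k] [Algebra k Ω] {α κ : Type} {N : ℕ}
    {ι : Fin N → Type} (X : ∀ s, Set (ι s → Ω)) (h : κ → MvPolynomial α k)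
    (φ : ∀ s, ι s → MvPolynomial α k) : Set (α → Ω) :=
  {z | (∀ j, aeval z (h j) = 0) ∧ ∀ s, (fun i => aeval z (φ s i)) ∈ X s}

/-- The image of `Z` under the map given by the polynomials `f j` over `k`. -/
def imageSet {Ω : Type} [Field Ω] {k : Type} [Field k] [Algebra k Ω] {α β : Type}
    (Z : Set (α → Ω)) (f : β → MvPolynomial α k) : Set (β → Ω) :=
  {x | ∃ z ∈ Z, ∀ j, x j = aeval z (f j)}

/-- The `f j` have no common zero in projective space on `Z`. -/
def NoZeroOn {Ω : Type} [Field Ω] {k : Type} [Field k] [Algebra k Ω] {α β : Type}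
    (Z : Set (α → Ω)) (f : β → MvPolynomial α k) : Prop :=
  ∀ z ∈ Z, (∀ j, aeval z (f j) = 0) → z = 0

section Gen

variable {k Ω : Type} [Field k] [Field Ω] [Algebra k Ω] [IsAlgClosed Ω] {α β κ : Type} {N : ℕ}
  {ι : Fin N → Type} [Fintype α] [∀ s, Fintype (ι s)] [Fintype β] [Fintype κ]

theorem image_fiber (X : ∀ s, Set (ι s → Ω)) (h : κ → MvPolynomial α k)
    (φ : ∀ s, ι s → MvPolynomial α k) (f : β → MvPolynomial α k) :
    imageSet (fiberSet Ω X h φ) f = mtransform Ω X h φ f := by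
  ext x
  constructor
  · rintro ⟨z, ⟨h1, h2⟩, h3⟩
    exact ⟨z, h1, h2, h3⟩
  · rintro ⟨z, h1, h2, h3⟩
    exact ⟨z, ⟨h1, h2⟩, h3⟩

theorem fiber_over {X : ∀ s, Set (ι s → Ω)} (hX : ∀ s, IsConeOver k (X s))
    (hz : ∀ s, (0 : ι s → Ω) ∈ X s) {h : κ → MvPolynomial α k} {φ : ∀ s, ι s → MvPolynomial α k}
    {a : Fin N → ℕ} (hh : ∀ j, IsForm (h j)) (ha : ∀ s, 0 < a s)
    (hφ : ∀ s i, (φ s i).IsHomogeneous (a s)) : IsConeOver k (fiberSet Ω X h φ) := by
  choose M R D hD hR hXR using fun s => defining (hX s) (hz s)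
  have h1 : fiberSet Ω X h φ = {z | ∀ j, aeval z (Sum.elim h
      (fun t : (Σ s, Fin (M s)) => aeval (φ t.1) (R t.1 t.2)) j) = 0} := by
    ext z
    constructor
    · rintro ⟨h1, h2⟩
      rintro (j | ⟨s, j⟩)
      · exact h1 j
      · rw [Sum.elim_inr, aeval_comp]
        have := h2 s
        rw [hXR] at this
        exact this j
    · intro h2
      refine ⟨fun j => h2 (Sum.inl j), fun s => ?_⟩
      rw [hXR]
      intro j
      have := h2 (Sum.inr ⟨s, j⟩)
      rw [Sum.elim_inr, aeval_comp] at this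
      exact this
  rw [h1]
  refine over_of_forms _ ?_
  rintro (j | ⟨s, j⟩)
  · exact hh j
  · exact form_comp ⟨D s j, hD s j, hR s j⟩ (ha s) (hφ s)

theorem image_over {X : ∀ s, Set (ι s → Ω)} (hX : ∀ s, IsConeOver k (X s))
    (hz : ∀ s, (0 : ι s → Ω) ∈ X s) {h : κ → MvPolynomial α k} {φ : ∀ s, ι s → MvPolynomial α k}
    {a : Fin N → ℕ} {f : β → MvPolynomial α k} {e : ℕ} (hh : ∀ j, IsForm (h j))
    (ha : ∀ s, 0 < a s) (hφ : ∀ s i, (φ s i).IsHomogeneous (a s)) (he : 0 < e)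
    (hf : ∀ i, (f i).IsHomogeneous e) (h0 : NoZeroOn (fiberSet Ω X h φ) f) :
    IsConeOver k (imageSet (fiberSet Ω X h φ) f) := by
  rw [image_fiber, mtransform_eq X ha he]
  exact mimg_cone hX hz ha he _ (msys_form hh hφ ha hf he)
    (mnoBase_sys hφ ha he fun z h1 h2 h3 => h0 z ⟨h1, h2⟩ h3)

theorem image_ge {X : ∀ s, Set (ι s → Ω)} (hX : ∀ s, IsConeOver k (X s)) {d : Fin N → ℕ}
    (hd1 : ∀ s, DimGE (X s) (d s)) (hd2 : ∀ s, DimLE (X s) (d s)) {h : κ → MvPolynomial α k}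
    {φ : ∀ s, ι s → MvPolynomial α k} {a : Fin N → ℕ} {f : β → MvPolynomial α k} {e : ℕ}
    (hh : ∀ j, IsForm (h j)) (ha : ∀ s, 0 < a s) (hφ : ∀ s i, (φ s i).IsHomogeneous (a s))
    (he : 0 < e) (hf : ∀ i, (f i).IsHomogeneous e) (h0 : NoZeroOn (fiberSet Ω X h φ) f) {d' : ℕ}
    (hd : Fintype.card κ + ∑ s, Fintype.card (ι s) + d' + 1 ≤
      Fintype.card α + ∑ s, (d s + 1)) : DimGE (imageSet (fiberSet Ω X h φ) f) d' := by
  rw [image_fiber, mtransform_eq X ha he]
  refine mimg_dim hX hd1 hd2 ha he _ (msys_form hh hφ ha hf he)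
    (mnoBase_sys hφ ha he fun z h1 h2 h3 => h0 z ⟨h1, h2⟩ h3) ?_
  rw [Fintype.card_sum, Fintype.card_sum, Fintype.card_sigma]
  omega

theorem image_le {Z : Set (α → Ω)} (hZ : IsClosedCone Z) {f : β → MvPolynomial α k} {e : ℕ}
    (he : 0 < e) (hf : ∀ i, (f i).IsHomogeneous e) (h0 : NoZeroOn Z f)
    (hc : IsClosedCone (imageSet Z f)) [Infinite k] {d : ℕ} (hd : DimLE Z d) :
    DimLEOver k (imageSet Z f) d := by
  refine linear_of_dim k (d + 1) hc ?_
  obtain ⟨q, hq, hq0⟩ := hd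
  have h1 := image_dim_le hZ he (u := fun i => MvPolynomial.map (algebraMap k Ω) (f i))
    (fun i => (hf i).map _) (fun y hy h => h0 y hy fun j => by
      rw [← eval_map_alg]; exact h j) (Z := imageSet Z f) (fun y hy => ⟨y, hy, fun j =>
        eval_map_alg _ _⟩) (fun z hz => by
        obtain ⟨y, hy, h⟩ := hz
        exact ⟨y, hy, fun i => by rw [eval_map_alg]; exact h i⟩)
  rw [h1]
  exact dim_le_of_forms hZ q hq hq0

end Gen

section UnionDim

variable {Ω : Type} [Field Ω] [IsAlgClosed Ω] {τ : Type} [Fintype τ]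

theorem union_dim {N : ℕ} (Y : Fin N → Set (τ → Ω)) {b : WithBot ℕ∞}
    (h : ∀ i, ringKrullDim (CR (Y i)) ≤ b) : ringKrullDim (CR (⋃ i, Y i)) ≤ b := by
  classical
  rw [ringKrullDim_quotient]
  refine iSup_le fun l => ?_
  have hl : vanishingIdeal Ω (⋃ i, Y i) ≤ l.head.1.asIdeal := l.head.2
  have h1 : ∃ i, vanishingIdeal Ω (Y i) ≤ l.head.1.asIdeal := by
    have h2 : (Finset.univ.inf fun i => (vanishingIdeal Ω (Y i) : Ideal (MvPolynomial τ Ω))) ≤
        l.head.1.asIdeal := by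
      refine le_trans ?_ hl
      intro f hf
      rw [mem_vI]
      intro y hy
      obtain ⟨i, hi⟩ := Set.mem_iUnion.1 hy
      have h3 : f ∈ vanishingIdeal Ω (Y i) :=
        (Finset.inf_le (Finset.mem_univ i) : (Finset.univ.inf fun i =>
          (vanishingIdeal Ω (Y i) : Ideal (MvPolynomial τ Ω))) ≤ _) hf
      exact (mem_vI.1 h3) y hi
    obtain ⟨i, -, hi⟩ := (Ideal.IsPrime.inf_le' l.head.1.isPrime).1 h2
    exact ⟨i, hi⟩
  obtain ⟨i, hi⟩ := h1
  refine le_trans ?_ (h i)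
  rw [ringKrullDim_quotient]
  let l' : LTSeries (PrimeSpectrum.zeroLocus (R := MvPolynomial τ Ω) (vanishingIdeal Ω (Y i))) :=
    { length := l.length
      toFun := fun j => ⟨(l j).1, hi.trans (show l.head.1.asIdeal ≤ (l j).1.asIdeal from
        (l.monotone (Fin.zero_le j) : l.head ≤ l j))⟩
      step := fun j => l.step j }
  exact Order.LTSeries.length_le_krullDim l'

end UnionDim

section Main

variable {p : ℕ} [hp : Fact p.Prime] {C F K E : Type} [Field C] [Field F] [CharP F p] [Field K]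
  [Field E] [Algebra K C] [Algebra E F]

theorem infinite_of_tilt (T : TiltPair p C F) (K : Type) [Field K] [Algebra K C] : Infinite K := by
  refine Infinite.of_injective (fun n : ℕ => (p : K) ^ n) fun n m h => ?_
  have h1 : T.absK p ^ n = T.absK p ^ m := by
    have h2 := congrArg (algebraMap K C) h
    simp only [map_pow, map_natCast] at h2
    rw [← map_pow, ← map_pow, h2]
  exact pow_right_injective₀ (T.absK.pos T.p_ne) T.p_lt.ne h1

/-- Q1 is stable under correspondences of the expected dimension. -/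
theorem corr_final [IsAlgClosed C] [IsAlgClosed F] (T : Tilting p C F)
    (B : BaseField T K E) {α β κ : Type} {N : ℕ} {ι : Fin N → Type} [Fintype α]
    [∀ s, Fintype (ι s)] [Fintype β] [Fintype κ] [Nonempty β] {X : ∀ s, Set (ι s → C)}
    (hX : ∀ s, IsConeOver K (X s)) {d : Fin N → ℕ} (hd1 : ∀ s, DimGE (X s) (d s))
    (hd2 : ∀ s, DimLE (X s) (d s)) (hXa : ∀ s, Approximable T.toTiltPair K E (X s) (d s))
    {h : κ → MvPolynomial α K} {φ : ∀ s, ι s → MvPolynomial α K} {a : Fin N → ℕ}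
    {f : β → MvPolynomial α K} {e : ℕ} (hh : ∀ j, IsForm (h j)) (ha : ∀ s, 0 < a s)
    (hφ : ∀ s i, (φ s i).IsHomogeneous (a s)) (he : 0 < e) (hf : ∀ i, (f i).IsHomogeneous e)
    (h0 : NoZeroOn (fiberSet C X h φ) f) {d' : ℕ}
    (hd : Fintype.card κ + ∑ s, Fintype.card (ι s) + d' + 1 ≤
      Fintype.card α + ∑ s, (d s + 1)) (hZ : DimLE (fiberSet C X h φ) d') :
    IsConeOver K (imageSet (fiberSet C X h φ) f) ∧ DimGE (imageSet (fiberSet C X h φ) f) d' ∧
      DimLE (imageSet (fiberSet C X h φ) f) d' ∧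
        Approximable T.toTiltPair K E (imageSet (fiberSet C X h φ) f) d' := by
  have : Infinite K := infinite_of_tilt T.toTiltPair K
  have hz : ∀ s, (0 : ι s → C) ∈ X s := fun s => zero_mem_of_dimGE (hX s).2 (hd1 s)
  have h1 := image_over hX hz hh ha hφ he hf h0
  have h2 := image_ge hX hd1 hd2 hh ha hφ he hf h0 hd
  have h3 := image_le (cone_of_over (fiber_over hX hz hh ha hφ)) he hf h0 (cone_of_over h1) hZ
  refine ⟨h1, h2, dimLE_of_over h3, ?_⟩
  rw [image_fiber] at h3 ⊢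
  exact approx_mtransform T B hX hXa hh ha hφ he hf
    (fun z h1 h2 h3 => h0 z ⟨h1, h2⟩ h3) hd h3

/-- Q1 is stable under finite unions. -/
theorem union_final [IsAlgClosed C] [IsAlgClosed F] (T : Tilting p C F)
    (B : BaseField T K E) {ι : Type} [Fintype ι] [Nonempty ι] {N : ℕ} (hN : 0 < N)
    {X : Fin N → Set (ι → C)} (hX : ∀ s, IsConeOver K (X s)) {d : ℕ}
    (hd1 : ∀ s, DimGE (X s) d) (hd2 : ∀ s, DimLE (X s) d)
    (hXa : ∀ s, Approximable T.toTiltPair K E (X s) d) :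
    IsConeOver K (⋃ s, X s) ∧ DimGE (⋃ s, X s) d ∧ DimLE (⋃ s, X s) d ∧
      Approximable T.toTiltPair K E (⋃ s, X s) d := by
  have : Infinite K := infinite_of_tilt T.toTiltPair K
  have h1 : IsConeOver K (⋃ s, X s) := cone_iUnion X hX
  have h2 : DimGE (⋃ s, X s) d := dimGE_iUnion ⟨0, hN⟩ X (hd1 _)
  have h3 : DimLEOver K (⋃ s, X s) d := by
    refine linear_of_dim K (d + 1) (cone_of_over h1) (union_dim X fun s => ?_)
    obtain ⟨q, hq, hq0⟩ := hd2 s
    exact dim_le_of_forms (cone_of_over (hX s)) q hq hq0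
  refine ⟨h1, h2, dimLE_of_over h3, mk_approx T B h1 (zero_mem_of_dimGE h1.2 h2) h3 ?_⟩
  intro r P D hP hPX ε hε
  choose Y hY1 hY2 hY3 hY4 using fun s => hXa s r P D hP
    (fun k x hx => hPX k x (Set.mem_iUnion.2 ⟨s, hx⟩)) ε hε
  refine ⟨⋃ s, Y s, cone_iUnion Y hY1, dimGE_iUnion ⟨0, hN⟩ Y (hY2 _), fun y hy k => ?_⟩
  obtain ⟨s, hs⟩ := Set.mem_iUnion.1 hy
  exact hY4 s y hs k

/-- Q1 is stable under products. -/
theorem product_final [IsAlgClosed C] [IsAlgClosed F] (T : Tilting p C F)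
    (B : BaseField T K E) {ι₁ ι₂ : Type} [Fintype ι₁] [Fintype ι₂] [Nonempty ι₁] [Nonempty ι₂]
    {X₁ : Set (ι₁ → C)} {X₂ : Set (ι₂ → C)} {d₁ d₂ : ℕ} (h₁ : IsConeOver K X₁)
    (h₂ : IsConeOver K X₂) (g₁ : DimGE X₁ d₁) (l₁ : DimLE X₁ d₁) (g₂ : DimGE X₂ d₂)
    (l₂ : DimLE X₂ d₂) (a₁ : Approximable T.toTiltPair K E X₁ d₁)
    (a₂ : Approximable T.toTiltPair K E X₂ d₂) :
    IsConeOver K (segre X₁ X₂) ∧ DimGE (segre X₁ X₂) (d₁ + d₂) ∧ DimLE (segre X₁ X₂) (d₁ + d₂) ∧
      Approximable T.toTiltPair K E (segre X₁ X₂) (d₁ + d₂) := by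
  have : Infinite K := infinite_of_tilt T.toTiltPair K
  have l₁' := over_of_dimLE K (cone_of_over h₁) l₁
  have l₂' := over_of_dimLE K (cone_of_over h₂) l₂
  exact ⟨segre_over h₁ h₂ (zero_mem_of_dimGE h₁.2 g₁) (zero_mem_of_dimGE h₂.2 g₂),
    segre_ge h₁ h₂ g₁ l₁ g₂ l₂, dimLE_of_over (segre_le l₁' l₂'),
    approx_segre T B h₁ h₂ a₁ a₂ l₁' l₂'⟩

end Main

section Toric

/-- The set of the points over `Ω` which satisfy the equations `x ^ u = x ^ v` for `(u, v)` in
`S`. -/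
def binomialSet (Ω : Type) [Field Ω] {ι : Type} [Fintype ι] (S : Set ((ι → ℕ) × (ι → ℕ))) :
    Set (ι → Ω) :=
  {x | ∀ s ∈ S, ∏ i, x i ^ s.1 i = ∏ i, x i ^ s.2 i}

/-- The equations are homogeneous of positive degree. -/
def Balanced {ι : Type} [Fintype ι] (S : Set ((ι → ℕ) × (ι → ℕ))) : Prop :=
  ∀ s ∈ S, ∑ i, s.1 i = ∑ i, s.2 i ∧ 0 < ∑ i, s.1 i

theorem binomial_over (k Ω : Type) [Field k] [Field Ω] [Algebra k Ω] {ι : Type} [Fintype ι]
    {S : Set ((ι → ℕ) × (ι → ℕ))} (hS : Balanced S) : IsConeOver k (binomialSet Ω S) := by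
  have h1 : binomialSet Ω S = {x | ∀ s : S, aeval x (∏ i, X i ^ s.1.1 i - ∏ i, X i ^ s.1.2 i :
      MvPolynomial ι k) = 0} := by
    ext x
    constructor
    · intro h s
      rw [map_sub, map_prod, map_prod, sub_eq_zero]
      simp only [map_pow, aeval_X]
      exact h s.1 s.2
    · intro h s hs
      have := h ⟨s, hs⟩
      rw [map_sub, map_prod, map_prod, sub_eq_zero] at this
      simp only [map_pow, aeval_X] at this
      exact this
  rw [h1]
  refine over_of_forms _ fun s => ?_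
  obtain ⟨h2, h3⟩ := hS s.1 s.2
  refine ⟨∑ i, s.1.1 i, h3, IsHomogeneous.sub ?_ ?_⟩
  · exact IsHomogeneous.prod _ _ _ fun i _ => isHomogeneous_X_pow _ _
  · rw [h2]
    exact IsHomogeneous.prod _ _ _ fun i _ => isHomogeneous_X_pow _ _

variable {p : ℕ} [hp : Fact p.Prime] {C F K E : Type} [Field C] [Field F] [CharP F p] [Field K]
  [Field E] [Algebra K C] [Algebra E F]

theorem toric_final [IsAlgClosed C] [IsAlgClosed F] (T : Tilting p C F)
    (B : BaseField T K E) {ι : Type} [Fintype ι] [Nonempty ι] {S : Set ((ι → ℕ) × (ι → ℕ))}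
    (hS : Balanced S) {d : ℕ} (h1 : DimGE (binomialSet F S) d) (h2 : DimGE (binomialSet C S) d)
    (h3 : DimLE (binomialSet C S) d) :
    Approximable T.toTiltPair K E (binomialSet C S) d := by
  have : Infinite K := infinite_of_tilt T.toTiltPair K
  have hc := binomial_over K C hS
  refine mk_approx T B hc (zero_mem_of_dimGE hc.2 h2)
    (over_of_dimLE K (cone_of_over hc) h3) ?_
  intro r P D hP hPX ε hε
  refine ⟨binomialSet F S, binomial_over E F hS, h1, fun y hy k Bd hB => ?_⟩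
  have h4 : (fun i => T.sharp (y i)) ∈ binomialSet C S := by
    intro s hs
    have := congrArg T.sharp (hy s hs)
    rw [map_prod, map_prod] at this
    simpa using this
  rw [hPX k _ h4, map_zero]
  have hB0 : 0 ≤ Bd := (T.absF.nonneg _).trans (hB (Classical.arbitrary ι))
  positivity

end Toric

end Pool.Agent.Q221.TL
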