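import Pool.Agent.Q221.TL.Dim3

/-!
# Approximation of closed cones: general lemmas
-/

set_option autoImplicit false

open MvPolynomial Pool.Agent.Y129.TA Pool.Agent.Y129.TB

set_option linter.unusedSectionVars false

namespace Pool.Agent.Q221.TL

/-- A closed cone is the zero set of finitely many forms. -/
theorem defining {k Ω : Type} [Field k] [Field Ω] [Algebra k Ω] [IsAlgClosed Ω] {ι : Type}
    [Fintype ι] {Y : Set (ι → Ω)} (hY : IsConeOver k Y) (h0 : (0 : ι → Ω) ∈ Y) :
    ∃ (N : ℕ) (P : Fin N → MvPolynomial ι k) (D : Fin N → ℕ), (∀ j, 0 < D j) ∧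
      (∀ j, (P j).IsHomogeneous (D j)) ∧ Y = {y | ∀ j, aeval y (P j) = 0} := by
  classical
  obtain ⟨⟨J, hJ⟩, hc⟩ := hY
  obtain ⟨S, hS⟩ := (IsNoetherian.noetherian J : J.FG)
  set M : ℕ := S.sup totalDegree with hM
  have key : ∀ y, y ∈ Y ↔ ∀ (f : S) (n : Fin (M + 1)),
      aeval y (homogeneousComponent (n.1 + 1) f.1) = 0 := by
    intro y
    constructor
    · intro hy f n
      have h1 : ∀ z ∈ Y, eval z (MvPolynomial.map (algebraMap k Ω) f.1) = 0 := by
        intro z hz
        rw [eval_map_alg]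
        rw [hJ, mem_zeroLocus_iff] at hz
        exact hz f.1 (hS ▸ Ideal.subset_span f.2)
      have h2 := cone_component hc h1 (n.1 + 1) hy
      rw [homogeneousComponent_map, eval_map_alg] at h2
      exact h2
    · intro h
      rw [hJ, mem_zeroLocus_iff]
      have h3 : ∀ f ∈ S, aeval y f = 0 := by
        intro f hf
        have h4 : f.totalDegree ≤ M := Finset.le_sup hf
        have h5 : aeval (0 : ι → Ω) f = 0 := by
          rw [hJ, mem_zeroLocus_iff] at h0
          exact h0 f (hS ▸ Ideal.subset_span hf)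
        have h6 : aeval y (homogeneousComponent 0 f) = 0 := by
          rw [homogeneousComponent_zero, aeval_C]
          have h7 : aeval (0 : ι → Ω) f = algebraMap k Ω (coeff 0 f) := by
            have : (aeval (0 : ι → Ω) : MvPolynomial ι k →ₐ[k] Ω) = aeval (fun _ => 0) := rfl
            rw [this, aeval_zero', constantCoeff_eq]
          rw [← h7, h5]
        rw [← sum_homogeneousComponent f, map_sum]
        refine Finset.sum_eq_zero fun n hn => ?_
        rcases n with _ | n
        · exact h6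
        · have hn' : n < M + 1 := by
            have := Finset.mem_range.1 hn
            omega
          exact h ⟨f, hf⟩ ⟨n, hn'⟩
      intro f hf
      rw [← hS] at hf
      have h8 : Ideal.span (S : Set (MvPolynomial ι k)) ≤
          RingHom.ker (aeval y : MvPolynomial ι k →ₐ[k] Ω) :=
        Ideal.span_le.2 fun g hg => h3 g hg
      exact h8 hf
  let e := Fintype.equivFin (S × Fin (M + 1))
  refine ⟨_, fun j => homogeneousComponent ((e.symm j).2.1 + 1) (e.symm j).1.1,
    fun j => (e.symm j).2.1 + 1, fun j => Nat.succ_pos _,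
    fun j => homogeneousComponent_isHomogeneous _ _, ?_⟩
  ext y
  rw [key]
  constructor
  · exact fun h j => h _ _
  · intro h f n
    have := h (e (f, n))
    simpa using this

theorem cone_of_over {k Ω : Type} [Field k] [Field Ω] [Algebra k Ω] [IsAlgClosed Ω] {ι : Type}
    {Y : Set (ι → Ω)} (hY : IsConeOver k Y) : IsClosedCone Y := by
  obtain ⟨⟨J, hJ⟩, hc⟩ := hY
  refine ⟨⟨J.map (MvPolynomial.map (algebraMap k Ω)), ?_⟩, hc⟩
  rw [hJ]
  ext y
  rw [mem_zeroLocus_iff, mem_zeroLocus_iff]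
  constructor
  · intro h
    have h8 : J.map (MvPolynomial.map (algebraMap k Ω)) ≤
        RingHom.ker (aeval y : MvPolynomial ι Ω →ₐ[Ω] Ω) := by
      rw [Ideal.map_le_iff_le_comap]
      intro f hf
      rw [Ideal.mem_comap, RingHom.mem_ker, aeval_eq_eval, eval_map_alg]
      exact h f hf
    exact fun f hf => h8 hf
  · intro h f hf
    have := h _ (Ideal.mem_map_of_mem _ hf)
    rw [aeval_eq_eval] at this
    rw [← eval_map_alg]
    exact this

/-- The zero set of a finite family of forms over `k` is a closed cone over `k`. -/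
theorem over_of_forms {k Ω : Type} [Field k] [Field Ω] [Algebra k Ω] {ι κ : Type} [Fintype ι]
    (P : κ → MvPolynomial ι k) (hP : ∀ j, IsForm (P j)) :
    IsConeOver k {y : ι → Ω | ∀ j, aeval y (P j) = 0} := by
  constructor
  · refine ⟨Ideal.span (Set.range P), ?_⟩
    ext y
    rw [mem_zeroLocus_iff]
    constructor
    · intro h f hf
      have h8 : Ideal.span (Set.range P) ≤
          RingHom.ker (aeval y : MvPolynomial ι k →ₐ[k] Ω) := by
        rw [Ideal.span_le]
        rintro _ ⟨j, rfl⟩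
        exact h j
      exact h8 hf
    · exact fun h j => h _ (Ideal.subset_span ⟨j, rfl⟩)
  · intro a y hy j
    obtain ⟨D, hD, h⟩ := hP j
    have h1 : aeval (a • y) (P j) = a ^ D * aeval y (P j) := by
      rw [← eval_map_alg, ← eval_map_alg]
      exact eval_smul_of_homogeneous (h.map _) a y
    rw [h1, hy j, mul_zero]

variable {p : ℕ} [hp : Fact p.Prime] {C F K E : Type} [Field C] [Field F] [CharP F p] [Field K]
  [Field E] [Algebra K C] [Algebra E F] {ι : Type} [Fintype ι]

theorem smul_aeval {k Ω : Type} [Field k] [Field Ω] [Algebra k Ω] {τ : Type} [Fintype τ]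
    {Q : MvPolynomial τ k} {D : ℕ} (hQ : Q.IsHomogeneous D) (a : Ω) (t : τ → Ω) :
    aeval (fun i => a * t i) Q = a ^ D * aeval t Q := by
  rw [← eval_map_alg, ← eval_map_alg]
  exact eval_smul_of_homogeneous (hQ.map _) a t

theorem tube_scale (T : TiltPair p C F) {P : MvPolynomial ι K} {D : ℕ} (hP : P.IsHomogeneous D)
    {ε : ℝ} {y : ι → F} (hy : InTube T P D ε y) {a : F} (ha : a ≠ 0)
    (h1 : ∀ i, T.absF (a * y i) ≤ 1) :
    T.absK (aeval (fun i => T.sharp (a * y i)) P) ≤ ε := by
  have hA : 0 < T.absF a := T.absF.pos ha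
  have h2 := hy (T.absF a)⁻¹ (fun i => by
    have := h1 i
    rw [map_mul] at this
    rw [← one_div, le_div_iff₀ hA, mul_comm]
    exact this)
  have h3 : (fun i => T.sharp (a * y i)) = fun i => T.sharp a * T.sharp (y i) :=
    funext fun i => map_mul _ _ _
  rw [h3, smul_aeval hP, map_mul, map_pow, T.abs_sharp]
  calc T.absF a ^ D * T.absK (aeval (fun i => T.sharp (y i)) P)
      ≤ T.absF a ^ D * (ε * (T.absF a)⁻¹ ^ D) := mul_le_mul_of_nonneg_left h2 (by positivity)
    _ = ε := by
        rw [inv_pow]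
        field_simp

theorem tube_of_normal (T : TiltPair p C F) {P : MvPolynomial ι K} {D : ℕ}
    (hP : P.IsHomogeneous D) {ε : ℝ} (hε : 0 ≤ ε) {y : ι → F} {a : F} (ha : a ≠ 0)
    (h1 : ∃ i, T.absF (a * y i) = 1)
    (h2 : T.absK (aeval (fun i => T.sharp (a * y i)) P) ≤ ε) : InTube T P D ε y := by
  intro B hB
  obtain ⟨i, hi⟩ := h1
  have hA : 0 < T.absF a := T.absF.pos ha
  have h3 : (fun i => T.sharp (a * y i)) = fun i => T.sharp a * T.sharp (y i) :=
    funext fun i => map_mul _ _ _
  rw [h3, smul_aeval hP, map_mul, map_pow, T.abs_sharp] at h2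
  have h4 : 1 ≤ T.absF a * B := by
    rw [← hi, map_mul]
    exact mul_le_mul_of_nonneg_left (hB i) hA.le
  have h5 : T.absF a ^ D * T.absK (aeval (fun i => T.sharp (y i)) P) ≤
      T.absF a ^ D * (ε * B ^ D) := by
    calc _ ≤ ε := h2
      _ = ε * 1 := (mul_one _).symm
      _ ≤ ε * (T.absF a * B) ^ D := mul_le_mul_of_nonneg_left (one_le_pow₀ h4) hε
      _ = _ := by rw [mul_pow]; ring
  exact le_of_mul_le_mul_left h5 (pow_pos hA _)

theorem tube_zero [Nonempty ι] (T : TiltPair p C F) {P : MvPolynomial ι K} {D : ℕ}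
    {ε : ℝ} (hε : 0 ≤ ε) (h0 : aeval (0 : ι → C) P = 0) : InTube T P D ε (0 : ι → F) := by
  intro B hB
  have h1 : (fun i => T.sharp ((0 : ι → F) i)) = (0 : ι → C) := by
    funext i
    exact T.sharp_zero
  have hB0 : 0 ≤ B := (T.absF.nonneg _).trans (hB (Classical.arbitrary ι))
  rw [h1, h0, map_zero]
  positivity

theorem tube_mono [Nonempty ι] (T : TiltPair p C F) {P : MvPolynomial ι K} {D : ℕ}
    {ε ε' : ℝ} (h : ε' ≤ ε) {y : ι → F} (hy : InTube T P D ε' y) : InTube T P D ε y := by
  intro B hB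
  have hB0 : 0 ≤ B := (T.absF.nonneg _).trans (hB (Classical.arbitrary ι))
  exact (hy B hB).trans (mul_le_mul_of_nonneg_right h (by positivity))

/-- Forms over `E` without common zeros in a small tube around `X`. -/
theorem upper [IsAlgClosed C] [IsAlgClosed F] (T : Tilting p C F) (B : BaseField T K E)
    {X : Set (ι → C)} {N : ℕ} (P : Fin N → MvPolynomial ι K) (D : Fin N → ℕ)
    (hP : ∀ k, (P k).IsHomogeneous (D k)) (hX : ∀ x, (∀ k, aeval x (P k) = 0) → x ∈ X) {d : ℕ}
    (hd : DimLEOver K X d) : ∃ ε : ℝ, 0 < ε ∧ ∃ g : Fin (d + 1) → MvPolynomial ι E,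
      (∀ j, IsForm (g j)) ∧ ∀ y : ι → F, (∀ k, InTube T.toTiltPair (P k) (D k) ε y) →
        (∀ j, aeval y (g j) = 0) → y = 0 := by
  classical
  obtain ⟨q, hq, hq0⟩ := hd
  let P' : Fin N → MvPolynomial ι C := fun k => MvPolynomial.map (algebraMap K C) (P k)
  let q' : Fin (d + 1) → MvPolynomial ι C := fun k => MvPolynomial.map (algebraMap K C) (q k)
  have s1 : ∀ t : ι, ∃ δ : ℝ, 0 < δ ∧ ∀ v : ι → C, (∀ i, T.absK (v i) ≤ 1) →
      (∀ k, T.absK (eval v (Sum.elim P' q' k)) ≤ δ) → T.absK (eval v (MvPolynomial.X t)) ≤ 1 / 2 := by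
    intro t
    refine small T.ultraK _ _ (fun v hv => ?_) (by norm_num)
    have h1 : v = 0 := by
      refine hq0 v (hX v fun k => ?_) fun j => ?_
      · rw [← eval_map_alg]
        exact hv (Sum.inl k)
      · rw [← eval_map_alg]
        exact hv (Sum.inr j)
    rw [eval_X, h1]
    rfl
  choose δ₁ hδ₁ hs1 using s1
  obtain ⟨δ, hδ, hδ'⟩ := exists_pos_le δ₁ hδ₁
  have a2 : ∀ j : Fin (d + 1), ∃ D, 0 < D ∧ ∃ g : MvPolynomial ι E, g.IsHomogeneous D ∧
      ∀ t : ι → F, (∀ i, T.absF (t i) ≤ 1) → aeval t g = 0 →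
        T.absK (aeval (fun i => T.sharp (t i)) (q j)) ≤ δ := by
    intro j
    obtain ⟨D, hD, hD'⟩ := hq j
    exact approx T B hD hD' hδ
  choose Dg hDg g hg hga using a2
  refine ⟨δ, hδ, g, fun j => ⟨Dg j, hDg j, hg j⟩, fun y hy hyg => ?_⟩
  by_contra hy0
  obtain ⟨a, ha, h1, t, ht⟩ := exists_normal T.toTiltPair hy0
  have h3 := hs1 t (fun t => T.sharp (a * y t)) (fun i => by rw [T.abs_sharp]; exact h1 i) (by
    rintro (k | j)
    · refine le_trans ?_ (hδ' t)
      rw [Sum.elim_inl]
      have h4 := tube_scale T.toTiltPair (hP k) (hy k) ha h1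
      rw [← eval_map_alg] at h4
      exact h4
    · refine le_trans ?_ (hδ' t)
      rw [Sum.elim_inr]
      have h4 := hga j (fun i => a * y i) h1 (by rw [smul_aeval (hg j), hyg j, mul_zero])
      rw [← eval_map_alg] at h4
      exact h4)
  rw [eval_X, T.abs_sharp, ht] at h3
  norm_num at h3

/-- The upper bound for the dimension comes for free. -/
theorem mk_approx [IsAlgClosed C] [IsAlgClosed F] [Nonempty ι] (T : Tilting p C F)
    (B : BaseField T K E) {X : Set (ι → C)} (hX : IsConeOver K X) (h0 : (0 : ι → C) ∈ X) {d : ℕ}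
    (hd : DimLEOver K X d)
    (H : ∀ (r : ℕ) (P : Fin r → MvPolynomial ι K) (D : Fin r → ℕ),
      (∀ k, (P k).IsHomogeneous (D k)) → (∀ k, ∀ x ∈ X, aeval x (P k) = 0) → ∀ ε : ℝ, 0 < ε →
      ∃ Y : Set (ι → F), IsConeOver E Y ∧ DimGE Y d ∧
        ∀ y ∈ Y, ∀ k, InTube T.toTiltPair (P k) (D k) ε y) :
    Approximable T.toTiltPair K E X d := by
  classical
  obtain ⟨N, P', D', hD', hP', hX'⟩ := defining hX h0
  obtain ⟨ε', hε', g, hg, hg0⟩ := upper T B P' D' hP' (X := X) (fun x hx => by
    rw [hX']; exact hx) hd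
  intro r P D hP hPX ε hε
  obtain ⟨Y, hY, hYd, hYt⟩ := H (r + N) (fun j => Sum.elim P P' (finSumFinEquiv.symm j))
    (fun j => Sum.elim D D' (finSumFinEquiv.symm j)) (fun j => by
      rcases finSumFinEquiv.symm j with k | k
      · exact hP k
      · exact hP' k) (fun j x hx => by
      rcases finSumFinEquiv.symm j with k | k
      · exact hPX k x hx
      · rw [hX'] at hx
        exact hx k) (min ε ε') (lt_min hε hε')
  refine ⟨Y, hY, hYd, ⟨fun j => MvPolynomial.map (algebraMap E F) (g j),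
    fun j => form_map (hg j), fun y hy hyg => ?_⟩, fun y hy k => ?_⟩
  · refine hg0 y (fun k => ?_) fun j => by rw [← eval_map_alg]; exact hyg j
    have h1 := hYt y hy (finSumFinEquiv (Sum.inr k))
    simp only [Equiv.symm_apply_apply, Sum.elim_inr] at h1
    exact tube_mono _ (min_le_right _ _) h1
  · have h1 := hYt y hy (finSumFinEquiv (Sum.inl k))
    simp only [Equiv.symm_apply_apply, Sum.elim_inl] at h1
    exact tube_mono _ (min_le_left _ _) h1

end Pool.Agent.Q221.TL
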