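import Pool.Agent.Q221.TL.Base

/-!
# Correspondences
-/

set_option autoImplicit false

open MvPolynomial Pool.Agent.Y129.TA Pool.Agent.Y129.TB

set_option linter.unusedSectionVars false

namespace Pool.Agent.Q221.TL

theorem aeval_comp {k Ω σ τ : Type} [Field k] [Field Ω] [Algebra k Ω] (u : σ → MvPolynomial τ k)
    (P : MvPolynomial σ k) (v : τ → Ω) :
    aeval v (aeval u P) = aeval (fun i => aeval v (u i)) P := by
  have h : (aeval v : MvPolynomial τ k →ₐ[k] Ω).comp (aeval u) =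
      aeval (fun i => aeval v (u i)) := by
    ext i
    simp
  rw [← h]
  rfl

theorem aeval_zero_form {k Ω σ : Type} [Field k] [Field Ω] [Algebra k Ω] [Fintype σ]
    {P : MvPolynomial σ k} (hP : IsForm P) : aeval (0 : σ → Ω) P = 0 := by
  rw [← eval_map_alg]
  exact form_zero (form_map hP)

section Dim

variable {k Ω : Type} [Field k] [Field Ω] [Algebra k Ω] [IsAlgClosed Ω] {α ι β γ : Type}
  [Fintype α] [Fintype ι] [Fintype β] [Fintype γ]

/-- The set of the `(w^a in W)`. -/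
def pre (α β : Type) (W : Set (ι → Ω)) (a : ℕ) : Set (α ⊕ (ι ⊕ β) → Ω) :=
  {v | (fun i => v (Sum.inr (Sum.inl i)) ^ a) ∈ W}

/-- The image. -/
def img (Ω : Type) [Field Ω] [Algebra k Ω] (W : Set (ι → Ω)) (a e : ℕ)
    (G : γ → MvPolynomial (α ⊕ (ι ⊕ β)) k) : Set (β → Ω) :=
  {x | ∃ v ∈ pre α β W a, (∀ k, aeval v (G k) = 0) ∧ ∀ j, x j = v (Sum.inr (Sum.inr j)) ^ e}

theorem pre_cone {W : Set (ι → Ω)} (hW : IsConeOver k W) (h0 : (0 : ι → Ω) ∈ W) {a : ℕ}
    (ha : 0 < a) : ∃ (N : ℕ) (R : Fin N → MvPolynomial (α ⊕ (ι ⊕ β)) k), (∀ j, IsForm (R j)) ∧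
      pre α β W a = {v | ∀ j, aeval v (R j) = 0} := by
  obtain ⟨N, P, D, hD, hP, hW'⟩ := defining hW h0
  refine ⟨N, fun j => aeval (fun i => X (Sum.inr (Sum.inl i)) ^ a) (P j), fun j =>
    form_comp ⟨D j, hD j, hP j⟩ ha fun i => isHomogeneous_X_pow _ _, ?_⟩
  ext v
  simp only [pre, Set.mem_ofPred_eq]
  rw [hW']
  refine forall_congr' fun j => ?_
  rw [aeval_comp]
  simp

theorem pre_dim {W : Set (ι → Ω)} (hW : IsConeOver k W) {d : ℕ} (h1 : DimGE W d) (h2 : DimLE W d)
    {a : ℕ} (ha : 0 < a) : DimGE (pre α β W a) (Fintype.card α + Fintype.card β + d) := by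
  classical
  have h0 : (0 : ι → Ω) ∈ W := zero_mem_of_dimGE hW.2 h1
  obtain ⟨N, R, hR, hpre⟩ := pre_cone (α := α) (β := β) hW h0 ha
  have hc : IsClosedCone (pre α β W a) := by
    rw [hpre]
    exact cone_of_over (over_of_forms R hR)
  obtain ⟨e, he, u, hu, hu0, hus⟩ := onto_of_dim hW.2 h1 h2
  refine dimGE_of_onto (ι := α ⊕ (Fin (d + 1) ⊕ β)) hc ?_ (by
    rw [Nat.card_eq_fintype_card, Fintype.card_sum, Fintype.card_sum, Fintype.card_fin]
    omega)
  have hae : 0 < a * e := Nat.mul_pos ha he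
  have hcomp : ∀ (v : α ⊕ (ι ⊕ β) → Ω) (Q : MvPolynomial ι Ω),
      eval v (aeval (fun i => X (Sum.inr (Sum.inl i)) ^ a) Q) =
        eval (fun i => v (Sum.inr (Sum.inl i)) ^ a) Q := by
    intro v Q
    have := aeval_comp (Ω := Ω) (fun i => (X (Sum.inr (Sum.inl i)) ^ a :
      MvPolynomial (α ⊕ (ι ⊕ β)) Ω)) Q v
    rw [aeval_eq_eval, aeval_eq_eval] at this
    simpa using this
  refine ⟨a * e, hae, Sum.elim (fun i => X (Sum.inl i) ^ (a * e))
    (Sum.elim (fun j => aeval (fun i => X (Sum.inr (Sum.inl i)) ^ a) (u j))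
      fun b => X (Sum.inr (Sum.inr b)) ^ (a * e)), ?_, ?_, ?_⟩
  · rintro (i | j | b)
    · exact isHomogeneous_X_pow _ _
    · exact (hu j).aeval _ fun i => isHomogeneous_X_pow _ _
    · exact isHomogeneous_X_pow _ _
  · intro v hv hv2
    have h3 : (fun i => v (Sum.inr (Sum.inl i)) ^ a) = 0 := hu0 _ hv fun j => by
      have := hv2 (Sum.inr (Sum.inl j))
      rw [Sum.elim_inr, Sum.elim_inl, hcomp] at this
      exact this
    funext t
    rcases t with i | i | b
    · have := hv2 (Sum.inl i)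
      rw [Sum.elim_inl, map_pow, eval_X] at this
      exact (pow_eq_zero_iff hae.ne').1 this
    · exact (pow_eq_zero_iff ha.ne').1 (congrFun h3 i)
    · have := hv2 (Sum.inr (Sum.inr b))
      rw [Sum.elim_inr, Sum.elim_inr, map_pow, eval_X] at this
      exact (pow_eq_zero_iff hae.ne').1 this
  · intro c
    obtain ⟨y, hy, hyc⟩ := hus fun j => c (Sum.inr (Sum.inl j))
    choose z hz using fun i => IsAlgClosed.exists_pow_nat_eq (c (Sum.inl i)) hae
    choose w hw using fun i => IsAlgClosed.exists_pow_nat_eq (y i) ha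
    choose x hx using fun b => IsAlgClosed.exists_pow_nat_eq (c (Sum.inr (Sum.inr b))) hae
    refine ⟨Sum.elim z (Sum.elim w x), ?_, ?_⟩
    · change (fun i => w i ^ a) ∈ W
      rw [show (fun i => w i ^ a) = y from funext hw]
      exact hy
    · rintro (i | j | b)
      · rw [Sum.elim_inl, map_pow, eval_X]
        exact hz i
      · rw [Sum.elim_inr, Sum.elim_inl, hcomp]
        change eval (fun i => w i ^ a) (u j) = _
        rw [show (fun i => w i ^ a) = y from funext hw]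
        exact hyc j
      · rw [Sum.elim_inr, Sum.elim_inr, map_pow, eval_X]
        exact hx b

/-- No nonzero point with `y = 0`. -/
def NoBase (Ω : Type) [Field Ω] [Algebra k Ω] (W : Set (ι → Ω)) (a : ℕ)
    (G : γ → MvPolynomial (α ⊕ (ι ⊕ β)) k) : Prop :=
  ∀ v ∈ pre α β W a, (∀ k, aeval v (G k) = 0) → (∀ j, v (Sum.inr (Sum.inr j)) = 0) → v = 0

theorem img_cone {W : Set (ι → Ω)} (hW : IsConeOver k W) (hz : (0 : ι → Ω) ∈ W) {a e : ℕ}
    (ha : 0 < a) (he : 0 < e) (G : γ → MvPolynomial (α ⊕ (ι ⊕ β)) k) (hG : ∀ j, IsForm (G j))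
    (h0 : NoBase Ω W a G) : IsConeOver k (img Ω W a e G) := by
  classical
  obtain ⟨N, R, hR, hpre⟩ := pre_cone (α := α) (β := β) hW hz ha
  have h1 : img Ω W a e G = imageOver Ω (Sum.elim G R)
      (fun j => X (Sum.inr (Sum.inr j)) ^ e) := by
    ext x
    constructor
    · rintro ⟨v, hv, hvG, hx⟩
      rw [hpre] at hv
      refine ⟨v, ?_, fun j => ?_⟩
      · rintro (j | j)
        · exact hvG j
        · exact hv j
      · rw [hx j, map_pow, aeval_X]
    · rintro ⟨v, hv, hx⟩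
      refine ⟨v, ?_, fun j => hv (Sum.inl j), fun j => ?_⟩
      · rw [hpre]
        exact fun j => hv (Sum.inr j)
      · rw [hx j, map_pow, aeval_X]
  rw [h1]
  refine imageOver_cone (e := e) ?_ (fun j => isHomogeneous_X_pow _ _) he ?_
  · rintro (j | j)
    · exact hG j
    · exact hR j
  · intro v hv hv2
    refine h0 v ?_ (fun j => hv (Sum.inl j)) fun j => ?_
    · rw [hpre]
      exact fun j => hv (Sum.inr j)
    · have := hv2 j
      rw [map_pow, aeval_X] at this
      exact (pow_eq_zero_iff he.ne').1 this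

theorem img_dim {W : Set (ι → Ω)} (hW : IsConeOver k W) {d : ℕ} (h1 : DimGE W d) (h2 : DimLE W d)
    {a e : ℕ} (ha : 0 < a) (he : 0 < e) (G : γ → MvPolynomial (α ⊕ (ι ⊕ β)) k)
    (hG : ∀ j, IsForm (G j)) (h0 : NoBase Ω W a G) {d' : ℕ}
    (hd : Fintype.card γ + d' ≤ Fintype.card α + Fintype.card β + d) :
    DimGE (img Ω W a e G) d' := by
  classical
  have h3 := dimGE_section (pre_dim (α := α) (β := β) hW h1 h2 ha)
    (fun j => MvPolynomial.map (algebraMap k Ω) (G j)) (fun j => form_map (hG j)) hd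
  intro q hq
  obtain ⟨v, ⟨hv, hvG⟩, hv0, hvq⟩ := h3 (fun j => aeval (fun b =>
    (X (Sum.inr (Sum.inr b)) ^ e : MvPolynomial (α ⊕ (ι ⊕ β)) Ω)) (q j)) fun j =>
      form_comp (hq j) he fun i => isHomogeneous_X_pow _ _
  refine ⟨fun j => v (Sum.inr (Sum.inr j)) ^ e, ⟨v, hv, fun j => ?_, fun j => rfl⟩, fun hx => ?_,
    fun j => ?_⟩
  · rw [← eval_map_alg]
    exact hvG j
  · refine hv0 (h0 v hv (fun j => ?_) fun j => ?_)
    · rw [← eval_map_alg]
      exact hvG j
    · exact (pow_eq_zero_iff he.ne').1 (congrFun hx j)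
  · have h4 := hvq j
    have h5 := aeval_comp (Ω := Ω) (fun b => (X (Sum.inr (Sum.inr b)) ^ e :
      MvPolynomial (α ⊕ (ι ⊕ β)) Ω)) (q j) v
    rw [aeval_eq_eval, aeval_eq_eval] at h5
    rw [h4] at h5
    simpa using h5.symm

end Dim

section System

variable {k : Type} [Field k] {α ι β κ : Type} [Fintype α] [Fintype ι] [Fintype β] [Fintype κ]

/-- The equations `h(z) = 0`, `w^a = φ(z)`, `y^e = f(z)`. -/
noncomputable def sys (h : κ → MvPolynomial α k) (φ : ι → MvPolynomial α k) (a : ℕ)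
    (f : β → MvPolynomial α k) (e : ℕ) : κ ⊕ (ι ⊕ β) → MvPolynomial (α ⊕ (ι ⊕ β)) k :=
  Sum.elim (fun j => rename Sum.inl (h j)) (Sum.elim
    (fun i => X (Sum.inr (Sum.inl i)) ^ a - rename Sum.inl (φ i))
    fun j => X (Sum.inr (Sum.inr j)) ^ e - rename Sum.inl (f j))

variable {h : κ → MvPolynomial α k} {φ : ι → MvPolynomial α k} {a : ℕ} {f : β → MvPolynomial α k}
  {e : ℕ}

theorem sys_form (hh : ∀ j, IsForm (h j)) (hφ : ∀ i, (φ i).IsHomogeneous a) (ha : 0 < a)
    (hf : ∀ i, (f i).IsHomogeneous e) (he : 0 < e) : ∀ j, IsForm (sys h φ a f e j) := by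
  rintro (j | i | j)
  · obtain ⟨D, hD, h1⟩ := hh j
    exact ⟨D, hD, h1.rename_isHomogeneous⟩
  · exact ⟨a, ha, (isHomogeneous_X_pow _ _).sub (hφ i).rename_isHomogeneous⟩
  · exact ⟨e, he, (isHomogeneous_X_pow _ _).sub (hf j).rename_isHomogeneous⟩

theorem sys_zero {Ω : Type} [Field Ω] [Algebra k Ω] {v : α ⊕ (ι ⊕ β) → Ω}
    (hv : ∀ j, aeval v (sys h φ a f e j) = 0) :
    (∀ j, aeval (fun t => v (Sum.inl t)) (h j) = 0) ∧
      (∀ i, v (Sum.inr (Sum.inl i)) ^ a = aeval (fun t => v (Sum.inl t)) (φ i)) ∧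
      ∀ j, v (Sum.inr (Sum.inr j)) ^ e = aeval (fun t => v (Sum.inl t)) (f j) := by
  refine ⟨fun j => ?_, fun i => ?_, fun j => ?_⟩
  · have h1 := hv (Sum.inl j)
    simp only [sys, Sum.elim_inl, aeval_rename] at h1
    exact h1
  · have h1 := hv (Sum.inr (Sum.inl i))
    simp only [sys, Sum.elim_inr, Sum.elim_inl, map_sub, map_pow, aeval_X, aeval_rename] at h1
    exact sub_eq_zero.1 h1
  · have h1 := hv (Sum.inr (Sum.inr j))
    simp only [sys, Sum.elim_inr, map_sub, map_pow, aeval_X, aeval_rename] at h1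
    exact sub_eq_zero.1 h1

/-- The image under `f` of the set of the zeros `z` of the forms `h j` with `φ(z)` in `X`. -/
def transform (Ω : Type) [Field Ω] [Algebra k Ω] (X : Set (ι → Ω)) (h : κ → MvPolynomial α k)
    (φ : ι → MvPolynomial α k) (f : β → MvPolynomial α k) : Set (β → Ω) :=
  {x | ∃ z : α → Ω, (∀ j, aeval z (h j) = 0) ∧ (fun i => aeval z (φ i)) ∈ X ∧
    ∀ j, x j = aeval z (f j)}

theorem transform_eq {Ω : Type} [Field Ω] [Algebra k Ω] [IsAlgClosed Ω] (X : Set (ι → Ω))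
    (ha : 0 < a) (he : 0 < e) : transform Ω X h φ f = img Ω X a e (sys h φ a f e) := by
  ext x
  constructor
  · rintro ⟨z, hz, hzX, hx⟩
    choose w hw using fun i => IsAlgClosed.exists_pow_nat_eq (aeval z (φ i)) ha
    choose y hy using fun j => IsAlgClosed.exists_pow_nat_eq (x j) he
    refine ⟨Sum.elim z (Sum.elim w y), ?_, ?_, fun j => (hy j).symm⟩
    · change (fun i => w i ^ a) ∈ X
      rw [show (fun i => w i ^ a) = fun i => aeval z (φ i) from funext hw]
      exact hzX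
    · rintro (j | i | j)
      · simp only [sys, Sum.elim_inl, aeval_rename]
        exact hz j
      · simp only [sys, Sum.elim_inr, Sum.elim_inl, map_sub, map_pow, aeval_X, aeval_rename]
        exact sub_eq_zero.2 (hw i)
      · simp only [sys, Sum.elim_inr, map_sub, map_pow, aeval_X, aeval_rename]
        exact sub_eq_zero.2 ((hy j).trans (hx j))
  · rintro ⟨v, hv, hvS, hx⟩
    obtain ⟨h1, h2, h3⟩ := sys_zero hvS
    refine ⟨fun t => v (Sum.inl t), h1, ?_, fun j => (hx j).trans (h3 j)⟩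
    rw [← show (fun i => v (Sum.inr (Sum.inl i)) ^ a) =
      fun i => aeval (fun t => v (Sum.inl t)) (φ i) from funext h2]
    exact hv

/-- No base points. -/
def NoBasePoints (Ω : Type) [Field Ω] [Algebra k Ω] (X : Set (ι → Ω))
    (h : κ → MvPolynomial α k) (φ : ι → MvPolynomial α k) (f : β → MvPolynomial α k) : Prop :=
  ∀ z : α → Ω, (∀ j, aeval z (h j) = 0) → (fun i => aeval z (φ i)) ∈ X →
    (∀ j, aeval z (f j) = 0) → z = 0

theorem noBase_sys {Ω : Type} [Field Ω] [Algebra k Ω] {X : Set (ι → Ω)}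
    (hφ : ∀ i, (φ i).IsHomogeneous a) (ha : 0 < a) (he : 0 < e)
    (h0 : NoBasePoints Ω X h φ f) : NoBase Ω X a (sys h φ a f e) := by
  intro v hv hvS hy
  obtain ⟨h1, h2, h3⟩ := sys_zero hvS
  have h4 : (fun t => v (Sum.inl t)) = 0 := by
    refine h0 _ h1 ?_ fun j => ?_
    · rw [← show (fun i => v (Sum.inr (Sum.inl i)) ^ a) =
        fun i => aeval (fun t => v (Sum.inl t)) (φ i) from funext h2]
      exact hv
    · rw [← h3 j, hy j, zero_pow he.ne']
  funext t
  rcases t with i | i | b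
  · exact congrFun h4 i
  · have h5 := h2 i
    rw [h4, aeval_zero_form ⟨a, ha, hφ i⟩] at h5
    exact (pow_eq_zero_iff ha.ne').1 h5
  · exact hy b

end System

end Pool.Agent.Q221.TL
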