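import Pool.Agent.Y129.TB.Union

/-!
# Dimensions of closed cones
-/

set_option autoImplicit false

open MvPolynomial Pool.Agent.Y129.TA

set_option linter.unusedSectionVars false

namespace Pool.Agent.Q221.TL

/-- An integral extension has the same Krull dimension. -/
theorem dim_eq_of_isIntegral {A B : Type} [CommRing A] [CommRing B] (f : A →+* B)
    (hf : f.IsIntegral) (hinj : Function.Injective f) : ringKrullDim B = ringKrullDim A := by
  algebraize [f]
  have : Algebra.IsIntegral A B := ⟨hf⟩
  apply le_antisymm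
  · refine Order.krullDim_le_of_strictMono (PrimeSpectrum.comap (algebraMap A B)) ?_
    intro P Q hPQ
    exact Ideal.IsIntegral.comap_lt_comap (I := P.asIdeal) (J := Q.asIdeal) hPQ
  · refine iSup_le fun l => ?_
    have : FaithfulSMul A B := (faithfulSMul_iff_algebraMap_injective A B).2 hinj
    obtain ⟨P, hP⟩ := Algebra.IsIntegral.comap_surjective A B l.head
    have : P.asIdeal.LiesOver l.head.asIdeal := ⟨by rw [← hP]; rfl⟩
    obtain ⟨L, hL, -, -⟩ := Ideal.exists_ltSeries_of_hasGoingUp l P.asIdeal
    rw [← hL]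
    exact Order.LTSeries.length_le_krullDim L

theorem dim_le_of_isIntegral {R A : Type} [CommRing R] [CommRing A] (f : R →+* A)
    (hf : f.IsIntegral) : ringKrullDim A ≤ ringKrullDim R := by
  letI := f.toAlgebra
  haveI : Algebra.IsIntegral R A := ⟨hf⟩
  refine Order.krullDim_le_of_strictMono (PrimeSpectrum.comap (algebraMap R A)) ?_
  intro I J hIJ
  haveI := I.isPrime
  exact Ideal.IsIntegral.comap_lt_comap (R := R) (show I.asIdeal < J.asIdeal from hIJ)

section

variable {F : Type} [Field F] [IsAlgClosed F] {τ ι : Type} [Finite τ] [Finite ι]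

attribute [local instance] MvPolynomial.gradedAlgebra

theorem poly_dim : ringKrullDim (MvPolynomial ι F) = (Nat.card ι : WithBot ℕ∞) := by
  have h := MvPolynomial.ringKrullDim_of_isNoetherianRing (R := F) (ι := ι)
  rwa [ringKrullDim_eq_zero_of_field, zero_add] at h

/-- Graded version of Nakayama's lemma. -/
theorem integral_of_no_zero (I : Ideal (MvPolynomial τ F))
    (hI : ∀ f ∈ I, ∀ n, homogeneousComponent n f ∈ I) (u : ι → MvPolynomial τ F) {e : ℕ}
    (he : 0 < e) (hu : ∀ i, (u i).IsHomogeneous e)
    (h0 : ∀ w : τ → F, (∀ f ∈ I, eval w f = 0) → (∀ i, eval w (u i) = 0) → w = 0) :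
    (aeval fun i => Ideal.Quotient.mkₐ F I (u i) :
      MvPolynomial ι F →ₐ[F] (MvPolynomial τ F ⧸ I)).toRingHom.IsIntegral := by
  classical
  have : Fintype τ := Fintype.ofFinite τ
  have : Fintype ι := Fintype.ofFinite ι
  let mk : MvPolynomial τ F →ₐ[F] (MvPolynomial τ F ⧸ I) := Ideal.Quotient.mkₐ F I
  let φ : MvPolynomial ι F →ₐ[F] (MvPolynomial τ F ⧸ I) := aeval fun i => mk (u i)
  letI : Algebra (MvPolynomial ι F) (MvPolynomial τ F ⧸ I) := φ.toRingHom.toAlgebra
  have hsm : ∀ (r : MvPolynomial ι F) (a : MvPolynomial τ F ⧸ I), r • a = φ r * a :=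
    fun r a => Algebra.smul_def r a
  -- a power of the irrelevant ideal
  set U : Ideal (MvPolynomial τ F) := Ideal.span (Set.range u) with hU
  obtain ⟨L, hL0, hL⟩ : ∃ L : ℕ, 0 < L ∧
      (Ideal.span (Set.range (X : τ → MvPolynomial τ F))) ^ L ≤ I ⊔ U := by
    have h1 : Ideal.span (Set.range (X : τ → MvPolynomial τ F)) ≤ (I ⊔ U).radical := by
      rw [Ideal.span_le]
      rintro _ ⟨i, rfl⟩
      rw [SetLike.mem_coe, ← vanishingIdeal_zeroLocus_eq_radical (K := F), mem_vanishingIdeal_iff]
      intro w hw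
      rw [mem_zeroLocus_iff] at hw
      have hw0 : w = 0 := by
        refine h0 w (fun k hk => ?_) fun i => ?_
        · have h2 := hw k (Ideal.mem_sup_left hk)
          rwa [aeval_eq_eval] at h2
        · have h2 := hw (u i) (Ideal.mem_sup_right (Ideal.subset_span ⟨i, rfl⟩))
          rwa [aeval_eq_eval] at h2
      rw [aeval_X, hw0]
      rfl
    obtain ⟨L, hL⟩ := Ideal.exists_pow_le_of_le_radical_of_fg h1
      ⟨(Set.finite_range (X : τ → MvPolynomial τ F)).toFinset, by simp⟩
    exact ⟨L + 1, Nat.succ_pos L, (Ideal.pow_le_pow_right (Nat.le_succ L)).trans hL⟩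
  -- the module generated by the monomials of degree less than `L`
  let M : Submodule (MvPolynomial ι F) (MvPolynomial τ F ⧸ I) :=
    Submodule.span _ {a | ∃ α : τ →₀ ℕ, α.degree < L ∧ a = mk (monomial α 1)}
  have hCM : ∀ (c : F) (a : MvPolynomial τ F ⧸ I), a ∈ M → mk (C c) * a ∈ M := by
    intro c a ha
    have h1 : mk (C c) * a = (C c : MvPolynomial ι F) • a := by
      rw [hsm]
      congr 1
      change _ = aeval _ (C c)
      rw [aeval_C]
      rfl
    rw [h1]
    exact M.smul_mem _ ha
  have hlow : ∀ (f : MvPolynomial τ F) (m : ℕ), m < L → f.IsHomogeneous m → mk f ∈ M := by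
    intro f m hm hf
    rw [← support_sum_monomial_coeff f, map_sum]
    refine Submodule.sum_mem _ fun α hα => ?_
    have h1 : monomial α (coeff α f) = C (coeff α f) * monomial α 1 := by
      rw [C_mul_monomial, mul_one]
    rw [h1, map_mul]
    refine hCM _ _ (Submodule.subset_span ⟨α, ?_, rfl⟩)
    have h2 : ∑ i, α i = m := sum_of_homogeneous hf hα
    have h3 : α.degree = ∑ i, α i := by
      rw [Finsupp.degree_apply]
      exact Finset.sum_subset (Finset.subset_univ _) (by simp)
    omega
  have htop : ∀ f : MvPolynomial τ F, f.IsHomogeneous L → mk f ∈ M := by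
    intro f hf
    have h1 := hL (mem_pow_of_homogeneous hf)
    obtain ⟨b, hb, a, ha, hba⟩ := Submodule.mem_sup.1 h1
    obtain ⟨c, hc⟩ := (Ideal.mem_span_range_iff_exists_fun).1 ha
    have h2 : f = homogeneousComponent L b + ∑ i, homogeneousComponent L (c i * u i) := by
      rw [← map_sum, hc, ← map_add, hba, homogeneousComponent_eq_self hf]
    have h3 : mk (homogeneousComponent L b) = 0 :=
      Ideal.Quotient.eq_zero_iff_mem.2 (hI b hb L)
    rw [h2, map_add, h3, zero_add, map_sum]
    refine Submodule.sum_mem _ fun i _ => ?_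
    rw [component_mul (hu i)]
    split_ifs with h4
    · have h5 : mk (homogeneousComponent (L - e) (c i) * u i) =
          (X i : MvPolynomial ι F) • mk (homogeneousComponent (L - e) (c i)) := by
        rw [hsm, map_mul, mul_comm]
        congr 1
        change _ = aeval _ (X i)
        rw [aeval_X]
      rw [h5]
      exact M.smul_mem _ (hlow _ (L - e) (by omega) (homogeneousComponent_isHomogeneous _ _))
    · rw [map_zero]
      exact M.zero_mem
  have hX : ∀ (j : τ) (a : MvPolynomial τ F ⧸ I), a ∈ M → mk (X j) * a ∈ M := by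
    intro j a ha
    induction ha using Submodule.span_induction with
    | mem a ha =>
      obtain ⟨α, hα, rfl⟩ := ha
      rw [← map_mul]
      have h1 : (X j * monomial α 1 : MvPolynomial τ F).IsHomogeneous (1 + α.degree) :=
        (isHomogeneous_X F j).mul (isHomogeneous_monomial _ rfl)
      rcases Nat.lt_or_ge (1 + α.degree) L with h2 | h2
      · exact hlow _ _ h2 h1
      · have h3 : 1 + α.degree = L := by omega
        rw [h3] at h1
        exact htop _ h1
    | zero => rw [mul_zero]; exact M.zero_mem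
    | add a b _ _ ha hb => rw [mul_add]; exact M.add_mem ha hb
    | smul r a _ ha =>
      rw [hsm, mul_left_comm, ← hsm]
      exact M.smul_mem _ ha
  have hall : ∀ f : MvPolynomial τ F, mk f ∈ M := by
    intro f
    have h1 : (1 : MvPolynomial τ F ⧸ I) ∈ M := by
      have h2 := hlow 1 0 hL0 (isHomogeneous_one _ _)
      rwa [map_one] at h2
    induction f using MvPolynomial.induction_on with
    | C c =>
      have h2 := hCM c 1 h1
      rwa [mul_one] at h2
    | add f g hf hg => rw [map_add]; exact M.add_mem hf hg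
    | mul_X f j hf => rw [map_mul, mul_comm]; exact hX j _ hf
  have hfin : Module.Finite (MvPolynomial ι F) (MvPolynomial τ F ⧸ I) := by
    refine ⟨Submodule.fg_def.2 ⟨{a | ∃ α : τ →₀ ℕ, α.degree < L ∧ a = mk (monomial α 1)}, ?_, ?_⟩⟩
    · have h1 : {a | ∃ α : τ →₀ ℕ, α.degree < L ∧ a = mk (monomial α 1)} =
          (fun α : τ →₀ ℕ => mk (monomial α 1)) '' {α | α.degree < L} := by
        ext a
        constructor
        · rintro ⟨α, h, rfl⟩
          exact ⟨α, h, rfl⟩
        · rintro ⟨α, h, rfl⟩
          exact ⟨α, h, rfl⟩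
      rw [h1]
      refine Set.Finite.image _ ((Finsupp.finite_of_degree_le L).subset fun α hα => ?_)
      exact (show α.degree < L from hα).le
    · rw [eq_top_iff]
      rintro a -
      obtain ⟨f, rfl⟩ := Ideal.Quotient.mk_surjective a
      exact hall f
  have hint : Algebra.IsIntegral (MvPolynomial ι F) (MvPolynomial τ F ⧸ I) := inferInstance
  exact fun x => hint.isIntegral x

/-- The coordinate ring. -/
abbrev CR (Y : Set (τ → F)) : Type := MvPolynomial τ F ⧸ (vanishingIdeal F Y)

theorem cone_component {Y : Set (τ → F)} (hY : ∀ a : F, ∀ y ∈ Y, a • y ∈ Y)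
    {f : MvPolynomial τ F} (hf : ∀ y ∈ Y, eval y f = 0) (n : ℕ) {y : τ → F} (hy : y ∈ Y) :
    eval y (homogeneousComponent n f) = 0 := by
  classical
  have : Fintype τ := Fintype.ofFinite τ
  by_cases hn : n ≤ f.totalDegree
  · let P : Polynomial F := ∑ i ∈ Finset.range (f.totalDegree + 1),
      Polynomial.C (eval y (homogeneousComponent i f)) * Polynomial.X ^ i
    have hP : P = 0 := by
      refine Polynomial.funext fun t => ?_
      rw [Polynomial.eval_finset_sum, Polynomial.eval_zero, ← hf _ (hY t y hy)]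
      conv_rhs => rw [← sum_homogeneousComponent f, map_sum]
      refine Finset.sum_congr rfl fun i _ => ?_
      rw [Polynomial.eval_mul, Polynomial.eval_C, Polynomial.eval_pow, Polynomial.eval_X, mul_comm]
      exact (eval_smul_of_homogeneous (homogeneousComponent_isHomogeneous i f) t y).symm
    have h1 : P.coeff n = eval y (homogeneousComponent n f) := by
      rw [Polynomial.finset_sum_coeff, Finset.sum_eq_single n]
      · rw [Polynomial.coeff_C_mul, Polynomial.coeff_X_pow, if_pos rfl, mul_one]
      · intro b _ hb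
        rw [Polynomial.coeff_C_mul, Polynomial.coeff_X_pow, if_neg (Ne.symm hb), mul_zero]
      · intro h
        exact absurd (Finset.mem_range.2 (by omega)) h
    rw [← h1, hP, Polynomial.coeff_zero]
  · rw [homogeneousComponent_eq_zero n f (by omega), map_zero]

theorem mem_vI {Y : Set (τ → F)} {f : MvPolynomial τ F} :
    f ∈ vanishingIdeal F Y ↔ ∀ y ∈ Y, eval y f = 0 := by
  rw [mem_vanishingIdeal_iff]
  rfl

/-- Forms of the same degree with the same zeros. -/
theorem same_degree {d : ℕ} (q : Fin d → MvPolynomial τ F) (hq : ∀ j, IsForm (q j)) :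
    ∃ e, 0 < e ∧ ∃ u : Fin d → MvPolynomial τ F, (∀ j, (u j).IsHomogeneous e) ∧
      ∀ w j, eval w (u j) = 0 → eval w (q j) = 0 := by
  choose D hD hqD using hq
  refine ⟨∏ j, D j, Finset.prod_pos fun j _ => hD j, fun j => q j ^ ∏ i ∈ Finset.univ.erase j, D i,
    fun j => ?_, fun w j h => ?_⟩
  · have h1 := (hqD j).pow (∏ i ∈ Finset.univ.erase j, D i)
    rwa [Finset.mul_prod_erase _ _ (Finset.mem_univ j)] at h1
  · rw [map_pow] at h
    exact pow_eq_zero_iff (Finset.prod_pos fun i _ => hD i).ne' |>.1 h

/-- If some `d` forms have no common nonzero zero on the cone then the dimension of the coordinate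
ring is at most `d`. -/
theorem dim_le_of_forms {Y : Set (τ → F)} (hY : IsClosedCone Y) {d : ℕ}
    (q : Fin d → MvPolynomial τ F) (hq : ∀ j, IsForm (q j))
    (h0 : ∀ y ∈ Y, (∀ j, eval y (q j) = 0) → y = 0) : ringKrullDim (CR Y) ≤ d := by
  obtain ⟨e, he, u, hu, hqu⟩ := same_degree q hq
  obtain ⟨⟨J, hJ⟩, hcone⟩ := hY
  have hI : ∀ f ∈ vanishingIdeal F Y, ∀ n, homogeneousComponent n f ∈ vanishingIdeal F Y := by
    intro f hf n
    rw [mem_vI] at hf ⊢
    exact fun y hy => cone_component hcone hf n hy
  have h1 := integral_of_no_zero (vanishingIdeal F Y) hI u he hu (by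
    intro w hw hw2
    have hwY : w ∈ Y := by
      rw [hJ, mem_zeroLocus_iff]
      intro f hf
      rw [aeval_eq_eval]
      refine hw f ?_
      rw [mem_vI]
      intro y hy
      rw [hJ, mem_zeroLocus_iff] at hy
      have := hy f hf
      rwa [aeval_eq_eval] at this
    exact h0 w hwY fun j => hqu w j (hw2 j))
  refine (dim_le_of_isIntegral _ h1).trans ?_
  rw [poly_dim, Nat.card_eq_fintype_card, Fintype.card_fin]

theorem dimGE_of_dim {Y : Set (τ → F)} (hY : IsClosedCone Y) {d : ℕ}
    (h : ((d + 1 : ℕ) : WithBot ℕ∞) ≤ ringKrullDim (CR Y)) : DimGE Y d := by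
  intro q hq
  by_contra hno
  push Not at hno
  have h1 := dim_le_of_forms hY q hq fun y hy hy2 => by
    by_contra hy0
    obtain ⟨j, hj⟩ := hno y hy hy0
    exact hj (hy2 j)
  have h2 := h.trans h1
  have h3 : d + 1 ≤ d := by exact_mod_cast h2
  omega

end

end Pool.Agent.Q221.TL
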