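import Pool.Agent.Q221.TL.Dim

/-!
# Dimensions of closed cones: hyperplane sections and joins
-/

set_option autoImplicit false

open MvPolynomial Pool.Agent.Y129.TA

set_option linter.unusedSectionVars false

namespace Pool.Agent.Q221.TL

section

variable {F : Type} [Field F] [IsAlgClosed F] {τ ι : Type} [Finite τ] [Finite ι]

theorem mem_of_vI {Y : Set (τ → F)} (hY : IsClosedCone Y) {w : τ → F}
    (hw : ∀ f ∈ vanishingIdeal F Y, eval w f = 0) : w ∈ Y := by
  obtain ⟨⟨J, hJ⟩, -⟩ := hY
  rw [hJ, mem_zeroLocus_iff]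
  intro f hf
  rw [aeval_eq_eval]
  refine hw f ?_
  rw [mem_vI]
  intro y hy
  rw [hJ, mem_zeroLocus_iff] at hy
  have := hy f hf
  rwa [aeval_eq_eval] at this

/-- The section of a closed cone with a hypersurface. -/
theorem section_cone {Y : Set (τ → F)} (hY : IsClosedCone Y) {q : MvPolynomial τ F}
    (hq : IsForm q) : IsClosedCone {y | y ∈ Y ∧ eval y q = 0} := by
  obtain ⟨⟨J, hJ⟩, hc⟩ := hY
  refine ⟨⟨J ⊔ Ideal.span {q}, ?_⟩, ?_⟩
  · ext y
    constructor
    · rintro ⟨hy, hy2⟩
      rw [hJ, mem_zeroLocus_iff] at hy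
      rw [mem_zeroLocus_iff]
      intro f hf
      obtain ⟨a, ha, b, hb, rfl⟩ := Submodule.mem_sup.1 hf
      obtain ⟨c, rfl⟩ := Ideal.mem_span_singleton'.1 hb
      rw [map_add, hy a ha, map_mul, aeval_eq_eval]
      rw [hy2, mul_zero, add_zero]
    · intro hy
      rw [mem_zeroLocus_iff] at hy
      refine ⟨?_, ?_⟩
      · rw [hJ, mem_zeroLocus_iff]
        exact fun f hf => hy f (Ideal.mem_sup_left hf)
      · have := hy q (Ideal.mem_sup_right (Ideal.mem_span_singleton_self q))
        rwa [aeval_eq_eval] at this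
  · rintro a y ⟨hy, hy2⟩
    refine ⟨hc a y hy, ?_⟩
    have : Fintype τ := Fintype.ofFinite τ
    obtain ⟨D, _, hD⟩ := hq
    have := eval_smul_of_homogeneous hD a y
    rw [hy2, mul_zero] at this
    exact this

theorem dimGE_mono {Y : Set (τ → F)} {d d' : ℕ} (h : DimGE Y d) (hd : d' ≤ d) : DimGE Y d' := by
  intro q hq
  obtain ⟨y, hy, hy0, hyq⟩ := h (fun j => if hj : j.1 < d' then q ⟨j.1, hj⟩ else 0) (fun j => by
    split_ifs with hj
    · exact hq _
    · exact ⟨1, one_pos, isHomogeneous_zero _ _ _⟩)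
  refine ⟨y, hy, hy0, fun j => ?_⟩
  have h1 := hyq ⟨j.1, j.2.trans_le hd⟩
  simpa using h1

/-- A cone with a nonzero point has a coordinate ring of positive dimension. -/
theorem one_le_dim {Y : Set (τ → F)} (hY : IsClosedCone Y) {y : τ → F} (hy : y ∈ Y)
    (hy0 : y ≠ 0) : (1 : WithBot ℕ∞) ≤ ringKrullDim (CR Y) := by
  classical
  obtain ⟨i, hi⟩ : ∃ i, y i ≠ 0 := Function.ne_iff.1 hy0
  let φ : MvPolynomial τ F →ₐ[F] Polynomial F := aeval fun i => Polynomial.C (y i) * Polynomial.X
  have hφ : ∀ f t, (φ f).eval t = eval (t • y) f := by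
    intro f t
    have h1 : ((Polynomial.evalRingHom t).comp φ.toRingHom) = eval (t • y) := by
      refine MvPolynomial.ringHom_ext (fun a => ?_) fun i => ?_
      · simp [φ]
      · change (φ (X i)).eval t = _
        rw [eval_X, show φ (X i) = Polynomial.C (y i) * Polynomial.X from aeval_X _ _,
          Polynomial.eval_mul, Polynomial.eval_C, Polynomial.eval_X, Pi.smul_apply, smul_eq_mul,
          mul_comm]
    exact congrArg (fun ψ : MvPolynomial τ F →+* F => ψ f) h1
  have hp : (RingHom.ker φ.toRingHom).IsPrime := RingHom.ker_isPrime _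
  have hm : (vanishingIdeal F {(0 : τ → F)} : Ideal (MvPolynomial τ F)).IsMaximal :=
    isMaximal_iff_eq_vanishingIdeal_singleton.2 ⟨0, rfl⟩
  have hle : vanishingIdeal F Y ≤ RingHom.ker φ.toRingHom := by
    intro f hf
    rw [mem_vI] at hf
    change φ f = 0
    refine Polynomial.funext fun t => ?_
    rw [hφ, Polynomial.eval_zero]
    exact hf _ (hY.2 t y hy)
  have hlt : RingHom.ker φ.toRingHom < vanishingIdeal F {(0 : τ → F)} := by
    refine lt_of_le_of_ne ?_ ?_
    · intro f hf
      rw [mem_vI]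
      rintro _ rfl
      have h1 := hφ f 0
      have h2 : φ f = 0 := hf
      rw [h2, Polynomial.eval_zero, zero_smul] at h1
      exact h1.symm
    · intro h
      have h1 : (X i : MvPolynomial τ F) ∈ vanishingIdeal F {(0 : τ → F)} := by
        rw [mem_vI]
        rintro _ rfl
        simp
      rw [← h] at h1
      have h2 : φ (X i) = 0 := h1
      have h3 := hφ (X i) 1
      rw [h2, Polynomial.eval_zero, one_smul, eval_X] at h3
      exact hi h3.symm
  rw [ringKrullDim_quotient]
  let P : PrimeSpectrum.zeroLocus (R := MvPolynomial τ F) (vanishingIdeal F Y) :=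
    ⟨⟨RingHom.ker φ.toRingHom, hp⟩, hle⟩
  let Q : PrimeSpectrum.zeroLocus (R := MvPolynomial τ F) (vanishingIdeal F Y) :=
    ⟨⟨vanishingIdeal F {(0 : τ → F)}, hm.isPrime⟩, hle.trans hlt.le⟩
  have hPQ : P < Q := hlt
  have h1 := Order.LTSeries.length_le_krullDim (RelSeries.fromListIsChain [P, Q] (by simp)
    (by simpa using hPQ))
  simpa using h1

/-- A linear form which is not a zero divisor. -/
theorem exists_linear {Y : Set (τ → F)} (hY : IsClosedCone Y) {y : τ → F} (hy : y ∈ Y)
    (hy0 : y ≠ 0) : ∃ q : MvPolynomial τ F, q.IsHomogeneous 1 ∧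
      (Ideal.Quotient.mk (vanishingIdeal F Y) q) ∈ nonZeroDivisors (CR Y) := by
  classical
  have : Fintype τ := Fintype.ofFinite τ
  have hfin := associatedPrimes.finite (CR Y) (CR Y)
  let A : (τ → F) →ₗ[F] MvPolynomial τ F := Fintype.linearCombination F (X : τ → MvPolynomial τ F)
  let lin : (τ → F) →ₗ[F] CR Y := (Ideal.Quotient.mkₐ F (vanishingIdeal F Y)).toLinearMap ∘ₗ A
  have hA : ∀ c, A c = ∑ i, c i • (X i : MvPolynomial τ F) := fun c =>
    Fintype.linearCombination_apply F X c
  have hlin : ∀ c, lin c = Ideal.Quotient.mk (vanishingIdeal F Y) (A c) := fun c => rfl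
  have hhom : ∀ c, (A c).IsHomogeneous 1 := by
    intro c
    rw [hA]
    refine IsHomogeneous.sum _ _ _ fun i _ => ?_
    rw [smul_eq_C_mul]
    have := (isHomogeneous_C τ (c i)).mul (isHomogeneous_X F i)
    rwa [zero_add] at this
  -- the linear forms in an associated prime are a proper subspace
  let W : Ideal (CR Y) → Subspace F (τ → F) := fun P =>
    ((P.restrictScalars F : Submodule F (CR Y))).comap lin
  have hW : ∀ P ∈ associatedPrimes (CR Y) (CR Y), W P ≠ ⊤ := by
    intro P hP htop
    rw [AssociatedPrimes.mem_iff, isAssociatedPrime_iff] at hP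
    obtain ⟨hPp, a, haP⟩ := hP
    have ha0 : a ≠ 0 := by
      rintro rfl
      exact hPp.ne_top (haP.trans (by simp))
    obtain ⟨f, rfl⟩ := Ideal.Quotient.mk_surjective a
    have h1 : ∀ i, f * X i ∈ vanishingIdeal F Y := by
      intro i
      have h2 : (Pi.single i (1 : F) : τ → F) ∈ W P := by rw [htop]; exact Submodule.mem_top
      have h3 : lin (Pi.single i 1) ∈ P := h2
      have h4 : A (Pi.single i 1) = X i := by
        rw [hA, Finset.sum_eq_single i]
        · rw [Pi.single_eq_same, one_smul]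
        · intro b _ hb
          rw [Pi.single_eq_of_ne hb, zero_smul]
        · intro h
          exact absurd (Finset.mem_univ i) h
      rw [haP] at h3
      have h5 : lin (Pi.single i 1) * Ideal.Quotient.mk (vanishingIdeal F Y) f = 0 := by
        simpa using h3
      rw [hlin, h4, mul_comm, ← map_mul] at h5
      exact Ideal.Quotient.eq_zero_iff_mem.1 h5
    refine ha0 (Ideal.Quotient.eq_zero_iff_mem.2 ?_)
    rw [mem_vI]
    have h6 : ∀ w ∈ Y, w ≠ 0 → eval w f = 0 := by
      intro w hw hw0
      obtain ⟨i, hi⟩ : ∃ i, w i ≠ 0 := Function.ne_iff.1 hw0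
      have h7 := (mem_vI.1 (h1 i)) w hw
      rw [map_mul, eval_X] at h7
      exact (mul_eq_zero.1 h7).resolve_right hi
    intro w hw
    by_cases hw0 : w = 0
    · subst hw0
      -- the constant term, from the line through `y`
      let φ : MvPolynomial τ F →ₐ[F] Polynomial F :=
        aeval fun i => Polynomial.C (y i) * Polynomial.X
      have hφ : ∀ f t, (φ f).eval t = eval (t • y) f := by
        intro f t
        have h1 : ((Polynomial.evalRingHom t).comp φ.toRingHom) = eval (t • y) := by
          refine MvPolynomial.ringHom_ext (fun a => ?_) fun i => ?_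
          · simp [φ]
          · change (φ (X i)).eval t = _
            rw [eval_X, show φ (X i) = Polynomial.C (y i) * Polynomial.X from aeval_X _ _,
              Polynomial.eval_mul, Polynomial.eval_C, Polynomial.eval_X, Pi.smul_apply,
              smul_eq_mul, mul_comm]
        exact congrArg (fun ψ : MvPolynomial τ F →+* F => ψ f) h1
      have h8 : φ f * Polynomial.X = 0 := by
        refine Polynomial.funext fun t => ?_
        rw [Polynomial.eval_mul, Polynomial.eval_X, Polynomial.eval_zero, hφ]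
        by_cases ht : t = 0
        · rw [ht, mul_zero]
        · rw [h6 _ (hY.2 t y hy) (smul_ne_zero ht hy0), zero_mul]
      have h9 : φ f = 0 := (mul_eq_zero.1 h8).resolve_right Polynomial.X_ne_zero
      have h10 := hφ f 0
      rw [h9, Polynomial.eval_zero, zero_smul] at h10
      exact h10.symm
    · exact h6 w hw hw0
  have hno : ¬ (⋃ P ∈ hfin.toFinset.image W, (P : Set (τ → F))) = Set.univ := by
    refine Subspace.biUnion_ne_univ_of_top_notMem ?_
    intro h
    obtain ⟨P, hP, hP2⟩ := Finset.mem_image.1 h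
    exact hW P (hfin.mem_toFinset.1 hP) hP2
  obtain ⟨c, hc⟩ := (Set.ne_univ_iff_exists_notMem _).1 hno
  refine ⟨A c, hhom c, ?_⟩
  by_contra h
  have h1 : lin c ∈ (nonZeroDivisors (CR Y) : Set (CR Y))ᶜ := h
  rw [← biUnion_associatedPrimes_eq_compl_nonZeroDivisors] at h1
  obtain ⟨P, hP, hP2⟩ := Set.mem_iUnion₂.1 h1
  refine hc (Set.mem_iUnion₂.2 ⟨W P, Finset.mem_image.2 ⟨P, hfin.mem_toFinset.2 hP, rfl⟩, ?_⟩)
  exact hP2

/-- The dimension of the coordinate ring of a cone of projective dimension at least `d`. -/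
theorem dim_of_dimGE : ∀ (d : ℕ) {Y : Set (τ → F)} (_ : IsClosedCone Y) (_ : DimGE Y d),
    ((d + 1 : ℕ) : WithBot ℕ∞) ≤ ringKrullDim (CR Y) := by
  intro d
  induction d with
  | zero =>
    intro Y hY h
    obtain ⟨y, hy, hy0, -⟩ := h (fun j => j.elim0) fun j => j.elim0
    simpa using one_le_dim hY hy hy0
  | succ d ih =>
    intro Y hY h
    obtain ⟨y, hy, hy0, -⟩ := (dimGE_mono h (Nat.zero_le _)) (fun j => j.elim0) fun j => j.elim0
    obtain ⟨q, hq, hqn⟩ := exists_linear hY hy hy0
    have hqf : IsForm q := ⟨1, one_pos, hq⟩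
    have hY' := section_cone hY hqf
    have h1 : DimGE {y | y ∈ Y ∧ eval y q = 0} d := by
      intro g hg
      obtain ⟨z, hz, hz0, hzq⟩ := h (Fin.cons q g) (fun j => by
        refine Fin.cases ?_ (fun j => ?_) j
        · exact hqf
        · exact hg j)
      exact ⟨z, ⟨hz, hzq 0⟩, hz0, fun j => hzq j.succ⟩
    have h2 := ih hY' h1
    have hle : vanishingIdeal F Y ≤ vanishingIdeal F {y | y ∈ Y ∧ eval y q = 0} := by
      intro f hf
      rw [mem_vI] at hf ⊢
      exact fun y hy => hf y hy.1
    have h3 := ringKrullDim_succ_le_of_surjective (Ideal.Quotient.factor hle)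
      (Ideal.Quotient.factor_surjective hle) hqn (by
        rw [Ideal.Quotient.factor_mk, Ideal.Quotient.eq_zero_iff_mem, mem_vI]
        exact fun y hy => hy.2)
    refine le_trans ?_ h3
    push_cast at h2 ⊢
    gcongr

end

end Pool.Agent.Q221.TL
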