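import Pool.Agent.Q221.TL.Dim2

/-!
# Dimensions of closed cones from surjective systems of forms
-/

set_option autoImplicit false

open MvPolynomial Pool.Agent.Y129.TA

set_option linter.unusedSectionVars false

namespace Pool.Agent.Q221.TL

section

variable {F : Type} [Field F] [IsAlgClosed F] {τ ι : Type} [Finite τ] [Finite ι]

/-- `Y` is finite and surjective over the affine space, by forms of the same degree. -/
def Onto (Y : Set (τ → F)) (ι : Type) : Prop :=
  ∃ e, 0 < e ∧ ∃ u : ι → MvPolynomial τ F, (∀ j, (u j).IsHomogeneous e) ∧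
    (∀ y ∈ Y, (∀ j, eval y (u j) = 0) → y = 0) ∧ ∀ c : ι → F, ∃ y ∈ Y, ∀ j, eval y (u j) = c j

/-- Forms of the same degree with the same zeros. -/
theorem same_degree' {κ k : Type} [Fintype κ] [Field k] (q : κ → MvPolynomial τ k)
    (hq : ∀ j, IsForm (q j)) :
    ∃ e, 0 < e ∧ ∃ N : κ → ℕ, (∀ j, 0 < N j) ∧ ∀ j, (q j ^ N j).IsHomogeneous e := by
  classical
  choose D hD hqD using hq
  refine ⟨∏ j, D j, Finset.prod_pos fun j _ => hD j, fun j => ∏ i ∈ Finset.univ.erase j, D i,
    fun j => Finset.prod_pos fun i _ => hD i, fun j => ?_⟩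
  have h1 := (hqD j).pow (∏ i ∈ Finset.univ.erase j, D i)
  rwa [Finset.mul_prod_erase _ _ (Finset.mem_univ j)] at h1

theorem zero_mem_of_dimGE {Y : Set (τ → F)} (hY : ∀ a : F, ∀ y ∈ Y, a • y ∈ Y) {d : ℕ}
    (h : DimGE Y d) : (0 : τ → F) ∈ Y := by
  obtain ⟨y, hy, -⟩ := h (fun _ => 0) fun _ => ⟨1, one_pos, isHomogeneous_zero _ _ _⟩
  have := hY 0 y hy
  rwa [zero_smul] at this

theorem onto_of_dim {Y : Set (τ → F)} (hY : ∀ a : F, ∀ y ∈ Y, a • y ∈ Y) {d : ℕ}
    (h1 : DimGE Y d) (h2 : DimLE Y d) : Onto Y (Fin (d + 1)) := by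
  classical
  have : Fintype τ := Fintype.ofFinite τ
  obtain ⟨q, hq, hq0⟩ := h2
  obtain ⟨e, he, N, hN, hu⟩ := same_degree' q hq
  refine ⟨e, he, fun j => q j ^ N j, hu, fun y hy hy2 => hq0 y hy fun j => ?_, fun c => ?_⟩
  · have := hy2 j
    rw [map_pow] at this
    exact (pow_eq_zero_iff (hN j).ne').1 this
  · by_cases hc : c = 0
    · refine ⟨0, zero_mem_of_dimGE hY h1, fun j => ?_⟩
      rw [hc]
      exact form_zero ⟨e, he, hu j⟩
    · obtain ⟨j₀, hj₀⟩ : ∃ j, c j ≠ 0 := Function.ne_iff.1 hc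
      obtain ⟨y, hy, hy0, hyq⟩ := h1 (fun j => C (c j₀) * q (j₀.succAbove j) ^ N (j₀.succAbove j) -
        C (c (j₀.succAbove j)) * q j₀ ^ N j₀) (fun j => ⟨e, he, by
          refine IsHomogeneous.sub ?_ ?_
          · have := (isHomogeneous_C τ (c j₀)).mul (hu (j₀.succAbove j))
            rwa [zero_add] at this
          · have := (isHomogeneous_C τ (c (j₀.succAbove j))).mul (hu j₀)
            rwa [zero_add] at this⟩)
      have h3 : ∀ j, c j₀ * eval y (q j ^ N j) = c j * eval y (q j₀ ^ N j₀) := by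
        intro j
        rcases Fin.eq_self_or_eq_succAbove j₀ j with rfl | ⟨i, rfl⟩
        · rfl
        · have h4 := hyq i
          rw [map_sub, map_mul, map_mul, eval_C, eval_C] at h4
          exact sub_eq_zero.1 h4
      have h5 : eval y (q j₀ ^ N j₀) ≠ 0 := by
        intro h5
        refine hy0 (hq0 y hy fun j => ?_)
        have h6 := h3 j
        rw [h5, mul_zero] at h6
        have h7 := (mul_eq_zero.1 h6).resolve_left hj₀
        rw [map_pow] at h7
        exact (pow_eq_zero_iff (hN j).ne').1 h7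
      obtain ⟨a, ha⟩ := IsAlgClosed.exists_pow_nat_eq (c j₀ / eval y (q j₀ ^ N j₀)) he
      refine ⟨a • y, hY a y hy, fun j => ?_⟩
      have h8 : eval (a • y) (q j ^ N j) = a ^ e * eval y (q j ^ N j) :=
        eval_smul_of_homogeneous (hu j) a y
      rw [h8, ha]
      have h9 := h3 j
      have h10 : eval y (q j ^ N j) = c j / c j₀ * eval y (q j₀ ^ N j₀) := by
        field_simp
        rw [mul_comm]
        exact h9
      rw [h10]
      field_simp

theorem dim_of_onto {Y : Set (τ → F)} (hY : IsClosedCone Y) (h : Onto Y ι) :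
    ringKrullDim (CR Y) = (Nat.card ι : WithBot ℕ∞) := by
  classical
  obtain ⟨e, he, u, hu, h0, hs⟩ := h
  have hI : ∀ f ∈ vanishingIdeal F Y, ∀ n, homogeneousComponent n f ∈ vanishingIdeal F Y := by
    intro f hf n
    rw [mem_vI] at hf ⊢
    exact fun y hy => cone_component hY.2 hf n hy
  have h1 := integral_of_no_zero (vanishingIdeal F Y) hI u he hu (fun w hw hw2 =>
    h0 w (mem_of_vI hY hw) hw2)
  rw [dim_eq_of_isIntegral _ h1, poly_dim]
  rw [injective_iff_map_eq_zero]
  intro P hP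
  refine MvPolynomial.funext fun c => ?_
  obtain ⟨y, hy, hyc⟩ := hs c
  have h2 : (aeval fun i => Ideal.Quotient.mkₐ F (vanishingIdeal F Y) (u i) :
      MvPolynomial ι F →ₐ[F] CR Y) P = Ideal.Quotient.mkₐ F (vanishingIdeal F Y) (aeval u P) := by
    have h3 : (aeval fun i => Ideal.Quotient.mkₐ F (vanishingIdeal F Y) (u i) :
        MvPolynomial ι F →ₐ[F] CR Y) = (Ideal.Quotient.mkₐ F (vanishingIdeal F Y)).comp
          (aeval u) := by
      ext i
      simp
    rw [h3]
    rfl
  have h4 : aeval u P ∈ vanishingIdeal F Y := by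
    refine Ideal.Quotient.eq_zero_iff_mem.1 ?_
    exact h2.symm.trans hP
  have h5 := (mem_vI.1 h4) y hy
  have h6 : eval y (aeval u P) = eval (fun i => eval y (u i)) P := by
    have h8 : ((eval y).comp (aeval u : MvPolynomial ι F →ₐ[F] MvPolynomial τ F).toRingHom) =
        eval (fun i => eval y (u i)) := by
      ext i <;> simp
    exact congrArg (fun ψ : MvPolynomial ι F →+* F => ψ P) h8
  rw [h6, show (fun i => eval y (u i)) = c from funext hyc] at h5
  rw [h5, map_zero]

theorem dimGE_of_onto {Y : Set (τ → F)} (hY : IsClosedCone Y) (h : Onto Y ι) {d : ℕ}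
    (hd : d + 1 ≤ Nat.card ι) : DimGE Y d := by
  refine dimGE_of_dim hY ?_
  rw [dim_of_onto hY h]
  exact_mod_cast hd

/-- Imposing forms. -/
theorem dimGE_section {κ : Type} [Fintype κ] {Y : Set (τ → F)} {n d : ℕ} (h : DimGE Y n)
    (G : κ → MvPolynomial τ F) (hG : ∀ k, IsForm (G k)) (hd : Fintype.card κ + d ≤ n) :
    DimGE {y | y ∈ Y ∧ ∀ k, eval y (G k) = 0} d := by
  intro q hq
  have h' := dimGE_mono h hd
  obtain ⟨y, hy, hy0, hyq⟩ := h' (fun j => Sum.elim G q (((Fintype.equivFin κ).symm.sumCongr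
    (Equiv.refl (Fin d))) (finSumFinEquiv.symm j))) (fun j => by
      rcases ((Fintype.equivFin κ).symm.sumCongr
        (Equiv.refl (Fin d))) (finSumFinEquiv.symm j) with k | i
      · exact hG k
      · exact hq i)
  refine ⟨y, ⟨hy, fun k => ?_⟩, hy0, fun i => ?_⟩
  · have h1 := hyq (finSumFinEquiv (((Fintype.equivFin κ).symm.sumCongr
      (Equiv.refl (Fin d))).symm (Sum.inl k)))
    simpa using h1
  · have h1 := hyq (finSumFinEquiv (((Fintype.equivFin κ).symm.sumCongr
      (Equiv.refl (Fin d))).symm (Sum.inr i)))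
    simpa using h1

end

end Pool.Agent.Q221.TL
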