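import Pool.Agent.Q221.TL.Multi

/-!
# Noether normalization by linear forms over a subfield
-/

set_option autoImplicit false

open MvPolynomial Pool.Agent.Y129.TA Pool.Agent.Y129.TB

set_option linter.unusedSectionVars false

namespace Pool.Agent.Q221.TL

section

variable {F : Type} [Field F] [IsAlgClosed F] {τ : Type} [Finite τ]

theorem exists_linear_over (k : Type) [Field k] [Infinite k] [Algebra k F] {Y : Set (τ → F)}
    (hY : IsClosedCone Y) {y : τ → F} (hy : y ∈ Y) (hy0 : y ≠ 0) :
    ∃ q : MvPolynomial τ k, q.IsHomogeneous 1 ∧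
      (Ideal.Quotient.mk (vanishingIdeal F Y) (MvPolynomial.map (algebraMap k F) q)) ∈
        nonZeroDivisors (CR Y) := by
  classical
  have : Fintype τ := Fintype.ofFinite τ
  have hfin := associatedPrimes.finite (CR Y) (CR Y)
  let A : (τ → k) → MvPolynomial τ k := fun c => ∑ i, C (c i) * X i
  have hA1 : ∀ c c', A (c + c') = A c + A c' := by
    intro c c'
    simp only [A]
    rw [← Finset.sum_add_distrib]
    refine Finset.sum_congr rfl fun i _ => ?_
    rw [Pi.add_apply, map_add, add_mul]
  have hA2 : ∀ (a : k) c, A (a • c) = C a * A c := by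
    intro a c
    simp only [A]
    rw [Finset.mul_sum]
    refine Finset.sum_congr rfl fun i _ => ?_
    rw [Pi.smul_apply, smul_eq_mul, map_mul, mul_assoc]
  have hhom : ∀ c, (A c).IsHomogeneous 1 := by
    intro c
    refine IsHomogeneous.sum _ _ _ fun i _ => ?_
    have := (isHomogeneous_C τ (c i)).mul (isHomogeneous_X k i)
    rwa [zero_add] at this
  let lin : (τ → k) → CR Y := fun c =>
    Ideal.Quotient.mk (vanishingIdeal F Y) (MvPolynomial.map (algebraMap k F) (A c))
  let W : Ideal (CR Y) → Subspace k (τ → k) := fun P =>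
    { carrier := {c | lin c ∈ P}
      add_mem' := fun {a b} ha hb => by
        change lin (a + b) ∈ P
        have : lin (a + b) = lin a + lin b := by
          simp only [lin]
          rw [hA1, map_add, map_add]
        rw [this]
        exact P.add_mem ha hb
      zero_mem' := by
        change lin 0 ∈ P
        have : lin 0 = 0 := by
          simp only [lin]
          have h0 : A 0 = 0 := by simp [A]
          rw [h0, map_zero, map_zero]
        rw [this]
        exact P.zero_mem
      smul_mem' := fun a c hc => by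
        change lin (a • c) ∈ P
        have : lin (a • c) = Ideal.Quotient.mk (vanishingIdeal F Y)
            (MvPolynomial.map (algebraMap k F) (C a)) * lin c := by
          simp only [lin]
          rw [hA2, map_mul, map_mul]
        rw [this]
        exact P.mul_mem_left _ hc }
  have hW : ∀ P ∈ associatedPrimes (CR Y) (CR Y), W P ≠ ⊤ := by
    intro P hP htop
    rw [AssociatedPrimes.mem_iff, isAssociatedPrime_iff] at hP
    obtain ⟨hPp, a, haP⟩ := hP
    have ha0 : a ≠ 0 := by
      rintro rfl
      exact hPp.ne_top (haP.trans (by simp))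
    obtain ⟨f, rfl⟩ := Ideal.Quotient.mk_surjective a
    have h1 : ∀ i, f * X i ∈ vanishingIdeal F Y := by
      intro i
      have h2 : (Pi.single i (1 : k) : τ → k) ∈ W P := by rw [htop]; exact Submodule.mem_top
      have h3 : lin (Pi.single i 1) ∈ P := h2
      have h4 : A (Pi.single i 1) = X i := by
        simp only [A]
        rw [Finset.sum_eq_single i]
        · rw [Pi.single_eq_same, C_1, one_mul]
        · intro b _ hb
          rw [Pi.single_eq_of_ne hb, C_0, zero_mul]
        · intro h
          exact absurd (Finset.mem_univ i) h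
      rw [haP] at h3
      have h5 : lin (Pi.single i 1) * Ideal.Quotient.mk (vanishingIdeal F Y) f = 0 := by
        simpa using h3
      simp only [lin] at h5
      rw [h4, MvPolynomial.map_X, mul_comm, ← map_mul] at h5
      exact Ideal.Quotient.eq_zero_iff_mem.1 h5
    refine ha0 (Ideal.Quotient.eq_zero_iff_mem.2 ?_)
    rw [mem_vI]
    have h6 : ∀ w ∈ Y, w ≠ 0 → eval w f = 0 := by
      intro w hw hw0
      obtain ⟨i, hi⟩ : ∃ i, w i ≠ 0 := Function.ne_iff.1 hw0
      have h7 := (mem_vI.1 (h1 i)) w hw
      rw [map_mul, eval_X] at h7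
      exact (mul_eq_zero.1 h7).resolve_right hi
    intro w hw
    by_cases hw0 : w = 0
    · subst hw0
      let φ : MvPolynomial τ F →ₐ[F] Polynomial F :=
        aeval fun i => Polynomial.C (y i) * Polynomial.X
      have hφ : ∀ f t, (φ f).eval t = eval (t • y) f := by
        intro f t
        have h1 : ((Polynomial.evalRingHom t).comp φ.toRingHom) = eval (t • y) := by
          refine MvPolynomial.ringHom_ext (fun a => ?_) fun i => ?_
          · simp [φ]
          · change (φ (X i)).eval t = _
            rw [eval_X, show φ (X i) = Polynomial.C (y i) * Polynomial.X from aeval_X _ _,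
              Polynomial.eval_mul, Polynomial.eval_C, Polynomial.eval_X, Pi.smul_apply,
              smul_eq_mul, mul_comm]
        exact congrArg (fun ψ : MvPolynomial τ F →+* F => ψ f) h1
      have h8 : φ f * Polynomial.X = 0 := by
        refine Polynomial.funext fun t => ?_
        rw [Polynomial.eval_mul, Polynomial.eval_X, Polynomial.eval_zero, hφ]
        by_cases ht : t = 0
        · rw [ht, mul_zero]
        · rw [h6 _ (hY.2 t y hy) (smul_ne_zero ht hy0), zero_mul]
      have h9 : φ f = 0 := (mul_eq_zero.1 h8).resolve_right Polynomial.X_ne_zero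
      have h10 := hφ f 0
      rw [h9, Polynomial.eval_zero, zero_smul] at h10
      exact h10.symm
    · exact h6 w hw hw0
  have hno : ¬ (⋃ P ∈ hfin.toFinset.image W, (P : Set (τ → k))) = Set.univ := by
    refine Subspace.biUnion_ne_univ_of_top_notMem ?_
    intro h
    obtain ⟨P, hP, hP2⟩ := Finset.mem_image.1 h
    exact hW P (hfin.mem_toFinset.1 hP) hP2
  obtain ⟨c, hc⟩ := (Set.ne_univ_iff_exists_notMem _).1 hno
  refine ⟨A c, hhom c, ?_⟩
  by_contra h
  have h1 : lin c ∈ (nonZeroDivisors (CR Y) : Set (CR Y))ᶜ := h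
  rw [← biUnion_associatedPrimes_eq_compl_nonZeroDivisors] at h1
  obtain ⟨P, hP, hP2⟩ := Set.mem_iUnion₂.1 h1
  refine hc (Set.mem_iUnion₂.2 ⟨W P, Finset.mem_image.2 ⟨P, hfin.mem_toFinset.2 hP, rfl⟩, ?_⟩)
  exact hP2

theorem le_of_add_one_le {a : WithBot ℕ∞} {d : ℕ} (h : a + 1 ≤ ((d + 1 : ℕ) : WithBot ℕ∞)) :
    a ≤ (d : WithBot ℕ∞) := by
  induction a using WithBot.recBotCoe with
  | bot => exact bot_le
  | coe a =>
    have h1 : (a + 1 : ℕ∞) ≤ ((d + 1 : ℕ) : ℕ∞) := by exact_mod_cast h
    have h2 : a ≤ (d : ℕ∞) := by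
      push_cast at h1
      exact (ENat.add_le_add_iff_right (by simp)).1 h1
    exact_mod_cast h2

theorem linear_of_dim (k : Type) [Field k] [Infinite k] [Algebra k F] : ∀ (d : ℕ)
    {Y : Set (τ → F)} (_ : IsClosedCone Y) (_ : ringKrullDim (CR Y) ≤ (d : WithBot ℕ∞)),
    ∃ q : Fin d → MvPolynomial τ k, (∀ j, IsForm (q j)) ∧
      ∀ y ∈ Y, (∀ j, aeval y (q j) = 0) → y = 0 := by
  intro d
  induction d with
  | zero =>
    intro Y hY hd
    refine ⟨fun j => j.elim0, fun j => j.elim0, fun y hy _ => ?_⟩
    by_contra hy0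
    have h1 := (one_le_dim hY hy hy0).trans hd
    have h2 : (1 : ℕ) ≤ 0 := by exact_mod_cast h1
    omega
  | succ d ih =>
    intro Y hY hd
    by_cases h : ∃ y ∈ Y, y ≠ 0
    · obtain ⟨y, hy, hy0⟩ := h
      obtain ⟨q, hq, hqn⟩ := exists_linear_over k hY hy hy0
      have hqf : IsForm (MvPolynomial.map (algebraMap k F) q) := ⟨1, one_pos, hq.map _⟩
      have hY' := section_cone hY hqf
      have hle : vanishingIdeal F Y ≤ vanishingIdeal F
          {y | y ∈ Y ∧ eval y (MvPolynomial.map (algebraMap k F) q) = 0} := by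
        intro f hf
        rw [mem_vI] at hf ⊢
        exact fun y hy => hf y hy.1
      have h3 := ringKrullDim_succ_le_of_surjective (Ideal.Quotient.factor hle)
        (Ideal.Quotient.factor_surjective hle) hqn (by
          rw [Ideal.Quotient.factor_mk, Ideal.Quotient.eq_zero_iff_mem, mem_vI]
          exact fun y hy => hy.2)
      obtain ⟨g, hg, hg0⟩ := ih hY' (le_of_add_one_le (h3.trans hd))
      refine ⟨Fin.cons q g, fun j => ?_, fun z hz hzq => hg0 z ⟨hz, ?_⟩ fun j => hzq j.succ⟩
      · refine Fin.cases ?_ (fun j => ?_) j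
        · exact ⟨1, one_pos, hq⟩
        · exact hg j
      · rw [eval_map_alg]
        exact hzq 0
    · push Not at h
      exact ⟨fun _ => 0, fun _ => ⟨1, one_pos, isHomogeneous_zero _ _ _⟩, fun y hy _ => h y hy⟩

/-- The dimension can be bounded by linear forms over an infinite subfield. -/
theorem over_of_dimLE (k : Type) [Field k] [Infinite k] [Algebra k F] {Y : Set (τ → F)}
    (hY : IsClosedCone Y) {d : ℕ} (h : DimLE Y d) : DimLEOver k Y d := by
  obtain ⟨q, hq, h0⟩ := h
  exact linear_of_dim k (d + 1) hY (dim_le_of_forms hY q hq h0)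

end

/-- The dimension of the image is at most that of the source. -/
theorem image_dim_le {F : Type} [Field F] [IsAlgClosed F] {τ ι : Type} [Finite τ] [Finite ι]
    {Y : Set (τ → F)} (hY : IsClosedCone Y) {e : ℕ} (he : 0 < e) {u : ι → MvPolynomial τ F}
    (hu : ∀ i, (u i).IsHomogeneous e) (h0 : ∀ y ∈ Y, (∀ i, eval y (u i) = 0) → y = 0)
    {Z : Set (ι → F)} (hZ : ∀ y ∈ Y, (fun i => eval y (u i)) ∈ Z)
    (hZ' : ∀ z ∈ Z, ∃ y ∈ Y, ∀ i, z i = eval y (u i)) :
    ringKrullDim (CR Z) = ringKrullDim (CR Y) := by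
  have hI : ∀ f ∈ vanishingIdeal F Y, ∀ n, homogeneousComponent n f ∈ vanishingIdeal F Y := by
    intro f hf n
    rw [mem_vI] at hf ⊢
    exact fun y hy => cone_component hY.2 hf n hy
  have h1 := integral_of_no_zero (vanishingIdeal F Y) hI u he hu (fun w hw hw2 =>
    h0 w (mem_of_vI hY hw) hw2)
  let φ : MvPolynomial ι F →ₐ[F] CR Y := aeval fun i => Ideal.Quotient.mkₐ F (vanishingIdeal F Y) (u i)
  have hφ : ∀ P, φ P = Ideal.Quotient.mk (vanishingIdeal F Y) (aeval u P) := by
    intro P
    have h3 : φ = (Ideal.Quotient.mkₐ F (vanishingIdeal F Y)).comp (aeval u) := by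
      ext i
      simp [φ]
    rw [h3]
    rfl
  have h6 : ∀ (y : τ → F) P, eval y (aeval u P) = eval (fun i => eval y (u i)) P := by
    intro y P
    have h8 : ((eval y).comp (aeval u : MvPolynomial ι F →ₐ[F] MvPolynomial τ F).toRingHom) =
        eval (fun i => eval y (u i)) := by
      ext i <;> simp
    exact congrArg (fun ψ : MvPolynomial ι F →+* F => ψ P) h8
  have hker : ∀ P, P ∈ vanishingIdeal F Z ↔ φ P = 0 := by
    intro P
    rw [hφ, Ideal.Quotient.eq_zero_iff_mem, mem_vI, mem_vI]
    constructor
    · intro h y hy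
      rw [h6]
      exact h _ (hZ y hy)
    · intro h z hz
      obtain ⟨y, hy, hzy⟩ := hZ' z hz
      rw [show z = fun i => eval y (u i) from funext hzy, ← h6]
      exact h y hy
  let ψ : CR Z →+* CR Y := Ideal.Quotient.lift (vanishingIdeal F Z) φ.toRingHom
    fun P hP => (hker P).1 hP
  have hψ : ∀ P, ψ (Ideal.Quotient.mk _ P) = φ P := fun P => Ideal.Quotient.lift_mk _ _ _
  have hinj : Function.Injective ψ := by
    rw [injective_iff_map_eq_zero]
    intro a ha
    obtain ⟨P, rfl⟩ := Ideal.Quotient.mk_surjective a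
    rw [hψ] at ha
    exact Ideal.Quotient.eq_zero_iff_mem.2 ((hker P).2 ha)
  have hint : ψ.IsIntegral := by
    have h2 : φ.toRingHom = ψ.comp (Ideal.Quotient.mk (vanishingIdeal F Z)) := by
      ext x
      · exact (hψ _).symm
      · exact (hψ _).symm
    have h3 : (ψ.comp (Ideal.Quotient.mk (vanishingIdeal F Z))).IsIntegral := by
      rw [← h2]
      exact h1
    exact RingHom.IsIntegral.tower_top _ _ h3
  exact (dim_eq_of_isIntegral ψ hint hinj).symm

end Pool.Agent.Q221.TL
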