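import Pool.Agent.Q221.TL.Trans

/-!
# Correspondences with several closed subsets
-/

set_option autoImplicit false

open MvPolynomial Pool.Agent.Y129.TA Pool.Agent.Y129.TB

set_option linter.unusedSectionVars false

namespace Pool.Agent.Q221.TL

section Dim

variable {k Ω : Type} [Field k] [Field Ω] [Algebra k Ω] [IsAlgClosed Ω] {α β γ : Type} {N : ℕ}
  {ι : Fin N → Type} [Fintype α] [∀ s, Fintype (ι s)] [Fintype β] [Fintype γ]

/-- The set of the points with `w_s^(a s)` in `W s` for all `s`. -/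
def mpre (α β : Type) (W : ∀ s, Set (ι s → Ω)) (a : Fin N → ℕ) :
    Set (α ⊕ ((Σ s, ι s) ⊕ β) → Ω) :=
  {v | ∀ s, (fun i => v (Sum.inr (Sum.inl ⟨s, i⟩)) ^ a s) ∈ W s}

/-- The image. -/
def mimg (Ω : Type) [Field Ω] [Algebra k Ω] (W : ∀ s, Set (ι s → Ω)) (a : Fin N → ℕ) (e : ℕ)
    (G : γ → MvPolynomial (α ⊕ ((Σ s, ι s) ⊕ β)) k) : Set (β → Ω) :=
  {x | ∃ v ∈ mpre α β W a, (∀ k, aeval v (G k) = 0) ∧ ∀ j, x j = v (Sum.inr (Sum.inr j)) ^ e}

theorem mpre_cone {W : ∀ s, Set (ι s → Ω)} (hW : ∀ s, IsConeOver k (W s))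
    (h0 : ∀ s, (0 : ι s → Ω) ∈ W s) {a : Fin N → ℕ} (ha : ∀ s, 0 < a s) :
    ∃ (M : Fin N → ℕ) (R : (Σ s, Fin (M s)) → MvPolynomial (α ⊕ ((Σ s, ι s) ⊕ β)) k),
      (∀ j, IsForm (R j)) ∧ mpre α β W a = {v | ∀ j, aeval v (R j) = 0} := by
  choose M P D hD hP hW' using fun s => defining (hW s) (h0 s)
  refine ⟨M, fun j => aeval (fun i => X (Sum.inr (Sum.inl ⟨j.1, i⟩)) ^ a j.1) (P j.1 j.2),
    fun j => form_comp ⟨D j.1 j.2, hD j.1 j.2, hP j.1 j.2⟩ (ha j.1) fun i =>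
      isHomogeneous_X_pow _ _, ?_⟩
  ext v
  constructor
  · rintro hv ⟨s, j⟩
    have h1 := hv s
    rw [hW'] at h1
    rw [aeval_comp]
    simpa using h1 j
  · intro hv s
    rw [hW']
    intro j
    have h1 := hv ⟨s, j⟩
    rw [aeval_comp] at h1
    simpa using h1

theorem mpre_dim {W : ∀ s, Set (ι s → Ω)} (hW : ∀ s, IsConeOver k (W s)) {d : Fin N → ℕ}
    (h1 : ∀ s, DimGE (W s) (d s)) (h2 : ∀ s, DimLE (W s) (d s)) {a : Fin N → ℕ}
    (ha : ∀ s, 0 < a s) {n : ℕ}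
    (hn : n + 1 ≤ Fintype.card α + Fintype.card β + ∑ s, (d s + 1)) :
    DimGE (mpre α β W a) n := by
  classical
  have h0 : ∀ s, (0 : ι s → Ω) ∈ W s := fun s => zero_mem_of_dimGE (hW s).2 (h1 s)
  obtain ⟨M, R, hR, hpre⟩ := mpre_cone (α := α) (β := β) hW h0 ha
  have hc : IsClosedCone (mpre α β W a) := by
    rw [hpre]
    exact cone_of_over (over_of_forms R hR)
  choose e he u hu hu0 hus using fun s => onto_of_dim (hW s).2 (h1 s) (h2 s)
  refine dimGE_of_onto (ι := α ⊕ ((Σ s, Fin (d s + 1)) ⊕ β)) hc ?_ (by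
    rw [Nat.card_eq_fintype_card, Fintype.card_sum, Fintype.card_sum, Fintype.card_sigma]
    simp only [Fintype.card_fin]
    omega)
  set A : ℕ := ∏ s, (a s * e s) with hA
  set B : Fin N → ℕ := fun s => ∏ t ∈ Finset.univ.erase s, (a t * e t) with hB
  have hA0 : 0 < A := Finset.prod_pos fun s _ => Nat.mul_pos (ha s) (he s)
  have hB0 : ∀ s, 0 < B s := fun s => Finset.prod_pos fun t _ => Nat.mul_pos (ha t) (he t)
  have hAB : ∀ s, a s * e s * B s = A := fun s =>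
    Finset.mul_prod_erase _ (fun t => a t * e t) (Finset.mem_univ s)
  have hcomp : ∀ (v : α ⊕ ((Σ s, ι s) ⊕ β) → Ω) (s : Fin N) (Q : MvPolynomial (ι s) Ω),
      eval v (aeval (fun i => X (Sum.inr (Sum.inl ⟨s, i⟩)) ^ a s) Q) =
        eval (fun i => v (Sum.inr (Sum.inl ⟨s, i⟩)) ^ a s) Q := by
    intro v s Q
    have := aeval_comp (Ω := Ω) (fun i => (X (Sum.inr (Sum.inl ⟨s, i⟩)) ^ a s :
      MvPolynomial (α ⊕ ((Σ s, ι s) ⊕ β)) Ω)) Q v
    rw [aeval_eq_eval, aeval_eq_eval] at this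
    simpa using this
  refine ⟨A, hA0, Sum.elim (fun i => X (Sum.inl i) ^ A)
    (Sum.elim (fun j => (aeval (fun i => X (Sum.inr (Sum.inl ⟨j.1, i⟩)) ^ a j.1) (u j.1 j.2)) ^ B j.1)
      fun b => X (Sum.inr (Sum.inr b)) ^ A), ?_, ?_, ?_⟩
  · rintro (i | j | b)
    · exact isHomogeneous_X_pow _ _
    · rw [← hAB j.1]
      exact ((hu j.1 j.2).aeval _ fun i => isHomogeneous_X_pow _ _).pow _
    · exact isHomogeneous_X_pow _ _
  · intro v hv hv2
    have h3 : ∀ s, (fun i => v (Sum.inr (Sum.inl ⟨s, i⟩)) ^ a s) = 0 := fun s =>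
      hu0 s _ (hv s) fun j => by
        have := hv2 (Sum.inr (Sum.inl ⟨s, j⟩))
        rw [Sum.elim_inr, Sum.elim_inl, map_pow, hcomp] at this
        exact (pow_eq_zero_iff (hB0 s).ne').1 this
    funext t
    rcases t with i | ⟨s, i⟩ | b
    · have := hv2 (Sum.inl i)
      rw [Sum.elim_inl, map_pow, eval_X] at this
      exact (pow_eq_zero_iff hA0.ne').1 this
    · exact (pow_eq_zero_iff (ha s).ne').1 (congrFun (h3 s) i)
    · have := hv2 (Sum.inr (Sum.inr b))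
      rw [Sum.elim_inr, Sum.elim_inr, map_pow, eval_X] at this
      exact (pow_eq_zero_iff hA0.ne').1 this
  · intro c
    choose c' hc' using fun (s : Fin N) (j : Fin (d s + 1)) =>
      IsAlgClosed.exists_pow_nat_eq (c (Sum.inr (Sum.inl ⟨s, j⟩))) (hB0 s)
    choose y hy hyc using fun s => hus s (c' s)
    choose z hz using fun i => IsAlgClosed.exists_pow_nat_eq (c (Sum.inl i)) hA0
    choose w hw using fun (s : Fin N) (i : ι s) => IsAlgClosed.exists_pow_nat_eq (y s i) (ha s)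
    choose x hx using fun b => IsAlgClosed.exists_pow_nat_eq (c (Sum.inr (Sum.inr b))) hA0
    refine ⟨Sum.elim z (Sum.elim (fun t => w t.1 t.2) x), ?_, ?_⟩
    · intro s
      change (fun i => w s i ^ a s) ∈ W s
      rw [show (fun i => w s i ^ a s) = y s from funext (hw s)]
      exact hy s
    · rintro (i | ⟨s, j⟩ | b)
      · rw [Sum.elim_inl, map_pow, eval_X]
        exact hz i
      · rw [Sum.elim_inr, Sum.elim_inl, map_pow, hcomp]
        change eval (fun i => w s i ^ a s) (u s j) ^ B s = _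
        rw [show (fun i => w s i ^ a s) = y s from funext (hw s), hyc]
        exact hc' s j
      · rw [Sum.elim_inr, Sum.elim_inr, map_pow, eval_X]
        exact hx b

/-- No nonzero point with `y = 0`. -/
def MNoBase (Ω : Type) [Field Ω] [Algebra k Ω] (W : ∀ s, Set (ι s → Ω)) (a : Fin N → ℕ)
    (G : γ → MvPolynomial (α ⊕ ((Σ s, ι s) ⊕ β)) k) : Prop :=
  ∀ v ∈ mpre α β W a, (∀ k, aeval v (G k) = 0) → (∀ j, v (Sum.inr (Sum.inr j)) = 0) → v = 0

theorem mimg_cone {W : ∀ s, Set (ι s → Ω)} (hW : ∀ s, IsConeOver k (W s))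
    (hz : ∀ s, (0 : ι s → Ω) ∈ W s) {a : Fin N → ℕ} {e : ℕ} (ha : ∀ s, 0 < a s) (he : 0 < e)
    (G : γ → MvPolynomial (α ⊕ ((Σ s, ι s) ⊕ β)) k) (hG : ∀ j, IsForm (G j))
    (h0 : MNoBase Ω W a G) : IsConeOver k (mimg Ω W a e G) := by
  classical
  obtain ⟨M, R, hR, hpre⟩ := mpre_cone (α := α) (β := β) hW hz ha
  have h1 : mimg Ω W a e G = imageOver Ω (Sum.elim G R)
      (fun j => X (Sum.inr (Sum.inr j)) ^ e) := by
    ext x
    constructor
    · rintro ⟨v, hv, hvG, hx⟩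
      rw [hpre] at hv
      refine ⟨v, ?_, fun j => ?_⟩
      · rintro (j | j)
        · exact hvG j
        · exact hv j
      · rw [hx j, map_pow, aeval_X]
    · rintro ⟨v, hv, hx⟩
      refine ⟨v, ?_, fun j => hv (Sum.inl j), fun j => ?_⟩
      · rw [hpre]
        exact fun j => hv (Sum.inr j)
      · rw [hx j, map_pow, aeval_X]
  rw [h1]
  refine imageOver_cone (e := e) ?_ (fun j => isHomogeneous_X_pow _ _) he ?_
  · rintro (j | j)
    · exact hG j
    · exact hR j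
  · intro v hv hv2
    refine h0 v ?_ (fun j => hv (Sum.inl j)) fun j => ?_
    · rw [hpre]
      exact fun j => hv (Sum.inr j)
    · have := hv2 j
      rw [map_pow, aeval_X] at this
      exact (pow_eq_zero_iff he.ne').1 this

theorem mimg_dim {W : ∀ s, Set (ι s → Ω)} (hW : ∀ s, IsConeOver k (W s)) {d : Fin N → ℕ}
    (h1 : ∀ s, DimGE (W s) (d s)) (h2 : ∀ s, DimLE (W s) (d s)) {a : Fin N → ℕ} {e : ℕ}
    (ha : ∀ s, 0 < a s) (he : 0 < e) (G : γ → MvPolynomial (α ⊕ ((Σ s, ι s) ⊕ β)) k)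
    (hG : ∀ j, IsForm (G j)) (h0 : MNoBase Ω W a G) {d' : ℕ}
    (hd : Fintype.card γ + d' + 1 ≤ Fintype.card α + Fintype.card β + ∑ s, (d s + 1)) :
    DimGE (mimg Ω W a e G) d' := by
  classical
  have h3 := dimGE_section (mpre_dim (α := α) (β := β) (n := Fintype.card γ + d') hW h1 h2 ha hd)
    (fun j => MvPolynomial.map (algebraMap k Ω) (G j)) (fun j => form_map (hG j)) le_rfl
  intro q hq
  obtain ⟨v, ⟨hv, hvG⟩, hv0, hvq⟩ := h3 (fun j => aeval (fun b =>
    (X (Sum.inr (Sum.inr b)) ^ e : MvPolynomial (α ⊕ ((Σ s, ι s) ⊕ β)) Ω)) (q j)) fun j =>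
      form_comp (hq j) he fun i => isHomogeneous_X_pow _ _
  refine ⟨fun j => v (Sum.inr (Sum.inr j)) ^ e, ⟨v, hv, fun j => ?_, fun j => rfl⟩, fun hx => ?_,
    fun j => ?_⟩
  · rw [← eval_map_alg]
    exact hvG j
  · refine hv0 (h0 v hv (fun j => ?_) fun j => ?_)
    · rw [← eval_map_alg]
      exact hvG j
    · exact (pow_eq_zero_iff he.ne').1 (congrFun hx j)
  · have h4 := hvq j
    have h5 := aeval_comp (Ω := Ω) (fun b => (X (Sum.inr (Sum.inr b)) ^ e :
      MvPolynomial (α ⊕ ((Σ s, ι s) ⊕ β)) Ω)) (q j) v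
    rw [aeval_eq_eval, aeval_eq_eval] at h5
    rw [h4] at h5
    simpa using h5.symm

end Dim

section System

variable {k : Type} [Field k] {α β κ : Type} {N : ℕ} {ι : Fin N → Type} [Fintype α]
  [∀ s, Fintype (ι s)] [Fintype β] [Fintype κ]

/-- The equations `h(z) = 0`, `w_s^(a s) = φ_s(z)`, `y^e = f(z)`. -/
noncomputable def msys (h : κ → MvPolynomial α k) (φ : ∀ s, ι s → MvPolynomial α k)
    (a : Fin N → ℕ) (f : β → MvPolynomial α k) (e : ℕ) :
    κ ⊕ ((Σ s, ι s) ⊕ β) → MvPolynomial (α ⊕ ((Σ s, ι s) ⊕ β)) k :=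
  Sum.elim (fun j => rename Sum.inl (h j)) (Sum.elim
    (fun t => X (Sum.inr (Sum.inl t)) ^ a t.1 - rename Sum.inl (φ t.1 t.2))
    fun j => X (Sum.inr (Sum.inr j)) ^ e - rename Sum.inl (f j))

variable {h : κ → MvPolynomial α k} {φ : ∀ s, ι s → MvPolynomial α k} {a : Fin N → ℕ}
  {f : β → MvPolynomial α k} {e : ℕ}

theorem msys_form (hh : ∀ j, IsForm (h j)) (hφ : ∀ s i, (φ s i).IsHomogeneous (a s))
    (ha : ∀ s, 0 < a s) (hf : ∀ i, (f i).IsHomogeneous e) (he : 0 < e) :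
    ∀ j, IsForm (msys h φ a f e j) := by
  rintro (j | i | j)
  · obtain ⟨D, hD, h1⟩ := hh j
    exact ⟨D, hD, h1.rename_isHomogeneous⟩
  · exact ⟨a i.1, ha i.1, (isHomogeneous_X_pow _ _).sub (hφ i.1 i.2).rename_isHomogeneous⟩
  · exact ⟨e, he, (isHomogeneous_X_pow _ _).sub (hf j).rename_isHomogeneous⟩

theorem msys_zero {Ω : Type} [Field Ω] [Algebra k Ω] {v : α ⊕ ((Σ s, ι s) ⊕ β) → Ω}
    (hv : ∀ j, aeval v (msys h φ a f e j) = 0) :
    (∀ j, aeval (fun t => v (Sum.inl t)) (h j) = 0) ∧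
      (∀ s i, v (Sum.inr (Sum.inl ⟨s, i⟩)) ^ a s = aeval (fun t => v (Sum.inl t)) (φ s i)) ∧
      ∀ j, v (Sum.inr (Sum.inr j)) ^ e = aeval (fun t => v (Sum.inl t)) (f j) := by
  refine ⟨fun j => ?_, fun s i => ?_, fun j => ?_⟩
  · have h1 := hv (Sum.inl j)
    simp only [msys, Sum.elim_inl, aeval_rename] at h1
    exact h1
  · have h1 := hv (Sum.inr (Sum.inl ⟨s, i⟩))
    simp only [msys, Sum.elim_inr, Sum.elim_inl, map_sub, map_pow, aeval_X, aeval_rename] at h1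
    exact sub_eq_zero.1 h1
  · have h1 := hv (Sum.inr (Sum.inr j))
    simp only [msys, Sum.elim_inr, map_sub, map_pow, aeval_X, aeval_rename] at h1
    exact sub_eq_zero.1 h1

/-- The image under `f` of the set of the common zeros `z` of the `h j` with `φ s (z)` in `X s` for
all `s`. -/
def mtransform (Ω : Type) [Field Ω] [Algebra k Ω] (X : ∀ s, Set (ι s → Ω))
    (h : κ → MvPolynomial α k) (φ : ∀ s, ι s → MvPolynomial α k) (f : β → MvPolynomial α k) :
    Set (β → Ω) :=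
  {x | ∃ z : α → Ω, (∀ j, aeval z (h j) = 0) ∧ (∀ s, (fun i => aeval z (φ s i)) ∈ X s) ∧
    ∀ j, x j = aeval z (f j)}

theorem mtransform_eq {Ω : Type} [Field Ω] [Algebra k Ω] [IsAlgClosed Ω] (X : ∀ s, Set (ι s → Ω))
    (ha : ∀ s, 0 < a s) (he : 0 < e) :
    mtransform Ω X h φ f = mimg Ω X a e (msys h φ a f e) := by
  ext x
  constructor
  · rintro ⟨z, hz, hzX, hx⟩
    choose w hw using fun s i => IsAlgClosed.exists_pow_nat_eq (aeval z (φ s i)) (ha s)
    choose y hy using fun j => IsAlgClosed.exists_pow_nat_eq (x j) he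
    refine ⟨Sum.elim z (Sum.elim (fun t => w t.1 t.2) y), ?_, ?_, fun j => (hy j).symm⟩
    · intro s
      change (fun i => w s i ^ a s) ∈ X s
      rw [show (fun i => w s i ^ a s) = fun i => aeval z (φ s i) from funext (hw s)]
      exact hzX s
    · rintro (j | ⟨s, i⟩ | j)
      · simp only [msys, Sum.elim_inl, aeval_rename]
        exact hz j
      · simp only [msys, Sum.elim_inr, Sum.elim_inl, map_sub, map_pow, aeval_X, aeval_rename]
        exact sub_eq_zero.2 (hw s i)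
      · simp only [msys, Sum.elim_inr, map_sub, map_pow, aeval_X, aeval_rename]
        exact sub_eq_zero.2 ((hy j).trans (hx j))
  · rintro ⟨v, hv, hvS, hx⟩
    obtain ⟨h1, h2, h3⟩ := msys_zero hvS
    refine ⟨fun t => v (Sum.inl t), h1, fun s => ?_, fun j => (hx j).trans (h3 j)⟩
    rw [← show (fun i => v (Sum.inr (Sum.inl ⟨s, i⟩)) ^ a s) =
      fun i => aeval (fun t => v (Sum.inl t)) (φ s i) from funext (h2 s)]
    exact hv s

/-- The `f j` have no common zero in projective space on the set of the common zeros `z` of the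
`h j` with `φ s (z)` in `X s` for all `s`. -/
def MNoBasePoints (Ω : Type) [Field Ω] [Algebra k Ω] (X : ∀ s, Set (ι s → Ω))
    (h : κ → MvPolynomial α k) (φ : ∀ s, ι s → MvPolynomial α k) (f : β → MvPolynomial α k) :
    Prop :=
  ∀ z : α → Ω, (∀ j, aeval z (h j) = 0) → (∀ s, (fun i => aeval z (φ s i)) ∈ X s) →
    (∀ j, aeval z (f j) = 0) → z = 0

theorem mnoBase_sys {Ω : Type} [Field Ω] [Algebra k Ω] {X : ∀ s, Set (ι s → Ω)}
    (hφ : ∀ s i, (φ s i).IsHomogeneous (a s)) (ha : ∀ s, 0 < a s) (he : 0 < e)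
    (h0 : MNoBasePoints Ω X h φ f) : MNoBase Ω X a (msys h φ a f e) := by
  intro v hv hvS hy
  obtain ⟨h1, h2, h3⟩ := msys_zero hvS
  have h4 : (fun t => v (Sum.inl t)) = 0 := by
    refine h0 _ h1 (fun s => ?_) fun j => ?_
    · rw [← show (fun i => v (Sum.inr (Sum.inl ⟨s, i⟩)) ^ a s) =
        fun i => aeval (fun t => v (Sum.inl t)) (φ s i) from funext (h2 s)]
      exact hv s
    · rw [← h3 j, hy j, zero_pow he.ne']
  funext t
  rcases t with i | ⟨s, i⟩ | b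
  · exact congrFun h4 i
  · have h5 := h2 s i
    rw [h4, aeval_zero_form ⟨a s, ha s, hφ s i⟩] at h5
    exact (pow_eq_zero_iff (ha s).ne').1 h5
  · exact hy b

end System

variable {p : ℕ} [hp : Fact p.Prime] {C F K E : Type} [Field C] [Field F] [CharP F p] [Field K]
  [Field E] [Algebra K C] [Algebra E F] {α β κ : Type} {N : ℕ} {ι : Fin N → Type} [Fintype α]
  [∀ s, Fintype (ι s)] [Fintype β] [Fintype κ]

theorem dimLE_of_over {k Ω : Type} [Field k] [Field Ω] [Algebra k Ω] {ι : Type} {X : Set (ι → Ω)}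
    {d : ℕ} (h : DimLEOver k X d) : DimLE X d := by
  obtain ⟨q, hq, h⟩ := h
  exact ⟨fun j => MvPolynomial.map (algebraMap k Ω) (q j), fun j => form_map (hq j),
    fun y hy hyq => h y hy fun j => by rw [← eval_map_alg]; exact hyq j⟩

theorem zero_mem_transform {Ω k : Type} [Field k] [Field Ω] [Algebra k Ω]
    {X : ∀ s, Set (ι s → Ω)} (hz : ∀ s, (0 : ι s → Ω) ∈ X s) {h : κ → MvPolynomial α k}
    {φ : ∀ s, ι s → MvPolynomial α k} {a : Fin N → ℕ} {f : β → MvPolynomial α k} {e : ℕ}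
    (hh : ∀ j, IsForm (h j)) (ha : ∀ s, 0 < a s) (hφ : ∀ s i, (φ s i).IsHomogeneous (a s))
    (he : 0 < e) (hf : ∀ i, (f i).IsHomogeneous e) : (0 : β → Ω) ∈ mtransform Ω X h φ f := by
  refine ⟨0, fun j => aeval_zero_form (hh j), fun s => ?_, fun j => ?_⟩
  · have h1 : (fun i => aeval (0 : α → Ω) (φ s i)) = (0 : ι s → Ω) := by
      funext i
      rw [Pi.zero_apply]
      exact aeval_zero_form ⟨a s, ha s, hφ s i⟩
    rw [h1]
    exact hz s
  · rw [Pi.zero_apply]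
    exact (aeval_zero_form ⟨e, he, hf j⟩).symm

/-- Q1 is stable under correspondences of the expected dimension. -/
theorem approx_mtransform [IsAlgClosed C] [IsAlgClosed F] (T : Tilting p C F)
    (B : BaseField T K E) [Nonempty β] {X : ∀ s, Set (ι s → C)} (hX : ∀ s, IsConeOver K (X s))
    {d : Fin N → ℕ} (hXa : ∀ s, Approximable T.toTiltPair K E (X s) (d s))
    {h : κ → MvPolynomial α K} {φ : ∀ s, ι s → MvPolynomial α K} {a : Fin N → ℕ}
    {f : β → MvPolynomial α K} {e : ℕ} (hh : ∀ j, IsForm (h j)) (ha : ∀ s, 0 < a s)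
    (hφ : ∀ s i, (φ s i).IsHomogeneous (a s)) (he : 0 < e) (hf : ∀ i, (f i).IsHomogeneous e)
    (h0 : MNoBasePoints C X h φ f) {d' : ℕ}
    (hd : Fintype.card κ + ∑ s, Fintype.card (ι s) + d' + 1 ≤
      Fintype.card α + ∑ s, (d s + 1))
    (hX' : DimLEOver K (mtransform C X h φ f) d') :
    Approximable T.toTiltPair K E (mtransform C X h φ f) d' := by
  classical
  have hz : ∀ s, (0 : ι s → C) ∈ X s := fun s => zero_mem_of_approx (hX s) (hXa s)
  have hcone : IsConeOver K (mtransform C X h φ f) := by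
    rw [mtransform_eq X ha he]
    exact mimg_cone hX hz ha he _ (msys_form hh hφ ha hf he) (mnoBase_sys hφ ha he h0)
  have hz' : (0 : β → C) ∈ mtransform C X h φ f := zero_mem_transform hz hh ha hφ he hf
  refine mk_approx T B hcone hz' hX' ?_
  intro r P DP hP hPX ε hε
  choose M R DR hDR hR hXR using fun s => defining (hX s) (hz s)
  -- the system over `C`
  let S : κ ⊕ ((Σ s, ι s) ⊕ β) → MvPolynomial (α ⊕ ((Σ s, ι s) ⊕ β)) K := msys h φ a f e
  let Rw : (Σ s, Fin (M s)) → MvPolynomial (α ⊕ ((Σ s, ι s) ⊕ β)) K := fun l =>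
    aeval (fun i => MvPolynomial.X (Sum.inr (Sum.inl ⟨l.1, i⟩)) ^ a l.1) (R l.1 l.2)
  let Pw : Fin r → MvPolynomial (α ⊕ ((Σ s, ι s) ⊕ β)) K := fun l =>
    aeval (fun j => MvPolynomial.X (Sum.inr (Sum.inr j)) ^ e) (P l)
  have hRw : ∀ s l (v : α ⊕ ((Σ s, ι s) ⊕ β) → C), aeval v (Rw ⟨s, l⟩) =
      aeval (fun i => v (Sum.inr (Sum.inl ⟨s, i⟩)) ^ a s) (R s l) := by
    intro s l v
    change aeval v (aeval _ (R s l)) = _
    rw [aeval_comp]
    simp
  have hPw : ∀ l (v : α ⊕ ((Σ s, ι s) ⊕ β) → C), aeval v (Pw l) =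
      aeval (fun j => v (Sum.inr (Sum.inr j)) ^ e) (P l) := by
    intro l v
    change aeval v (aeval _ (P l)) = _
    rw [aeval_comp]
    simp
  let Q : (κ ⊕ ((Σ s, ι s) ⊕ β)) ⊕ (Σ s, Fin (M s)) →
      MvPolynomial (α ⊕ ((Σ s, ι s) ⊕ β)) C := fun l =>
    MvPolynomial.map (algebraMap K C) (Sum.elim S Rw l)
  have hQ : ∀ v : α ⊕ ((Σ s, ι s) ⊕ β) → C, (∀ l, eval v (Q l) = 0) →
      v ∈ mpre α β X a ∧ ∀ l, aeval v (S l) = 0 := by
    intro v hv
    constructor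
    · intro s
      rw [hXR]
      intro l
      rw [← hRw, ← eval_map_alg]
      exact hv (Sum.inr ⟨s, l⟩)
    · intro l
      rw [← eval_map_alg]
      exact hv (Sum.inl l)
  -- (i): the coordinates `y` are not all small
  have s1 : ∀ t : α ⊕ ((Σ s, ι s) ⊕ β), ∃ δ : ℝ, 0 < δ ∧
      ∀ v : α ⊕ ((Σ s, ι s) ⊕ β) → C, (∀ i, T.absK (v i) ≤ 1) →
      (∀ l, T.absK (eval v (Sum.elim Q (fun j => MvPolynomial.X (Sum.inr (Sum.inr j)) ^ e) l)) ≤ δ) →
      T.absK (eval v (MvPolynomial.X t)) ≤ 1 / 2 := by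
    intro t
    refine small T.ultraK _ _ (fun v hv => ?_) (by norm_num)
    obtain ⟨h1, h2⟩ := hQ v fun l => hv (Sum.inl l)
    have h3 := mnoBase_sys hφ ha he h0 v h1 h2 (fun j => by
      have := hv (Sum.inr j)
      rw [Sum.elim_inr, map_pow, eval_X] at this
      exact (pow_eq_zero_iff he.ne').1 this)
    rw [eval_X, h3]
    rfl
  choose δ₁ hδ₁ hs1 using s1
  obtain ⟨δa, hδa, hδa'⟩ := exists_pos_le δ₁ hδ₁
  set c : ℝ := min δa 1 with hc
  have hc0 : 0 < c := lt_min hδa one_pos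
  have s3 : ∀ k : Fin r, ∃ δ : ℝ, 0 < δ ∧ ∀ v : α ⊕ ((Σ s, ι s) ⊕ β) → C,
      (∀ i, T.absK (v i) ≤ 1) → (∀ l, T.absK (eval v (Q l)) ≤ δ) →
      T.absK (eval v (MvPolynomial.map (algebraMap K C) (Pw k))) ≤ ε * c ^ DP k := by
    intro k
    refine small T.ultraK _ _ (fun v hv => ?_) (by positivity)
    obtain ⟨h1, h2⟩ := hQ v hv
    rw [eval_map_alg, hPw]
    refine hPX k _ ?_
    rw [mtransform_eq X ha he]
    exact ⟨v, h1, h2, fun j => rfl⟩
  choose δ₃ hδ₃ hs3 using s3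
  obtain ⟨δc, hδc, hδc'⟩ := exists_pos_le δ₃ hδ₃
  set δ : ℝ := min δa δc with hδ
  have hδ0 : 0 < δ := lt_min hδa hδc
  -- the approximations
  have a1 : ∀ l : κ ⊕ ((Σ s, ι s) ⊕ β), ∃ D, 0 < D ∧
      ∃ g : MvPolynomial (α ⊕ ((Σ s, ι s) ⊕ β)) E, g.IsHomogeneous D ∧
      ∀ t : α ⊕ ((Σ s, ι s) ⊕ β) → F, (∀ i, T.absF (t i) ≤ 1) → aeval t g = 0 →
        T.absK (aeval (fun i => T.sharp (t i)) (S l)) ≤ δ := by
    intro l
    obtain ⟨D, hD, hD'⟩ := msys_form hh hφ ha hf he l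
    exact approx T B hD hD' hδ0
  choose DG hDG G hG hGa using a1
  have hGf : ∀ l, IsForm (G l) := fun l => ⟨DG l, hDG l, hG l⟩
  choose Y hY hYge hYle hYt using fun s => hXa s (M s) (R s) (DR s) (hR s) (fun l x hx => by
    rw [hXR] at hx; exact hx l) δ hδ0
  -- the main estimate for a normalised point
  have key : ∀ v ∈ mpre α β Y a, (∀ l, aeval v (G l) = 0) → v ≠ 0 → ∃ b : F, b ≠ 0 ∧
      (∀ l, T.absK (eval (fun t => T.sharp (b * v t)) (Q l)) ≤ δ) ∧
      (∀ t, T.absF (b * v t) ≤ 1) ∧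
      ∃ j, c < T.absF (b ^ e * v (Sum.inr (Sum.inr j)) ^ e) := by
    intro v hv hvG hv0
    obtain ⟨b, hb, h1, t, ht⟩ := exists_normal T.toTiltPair hv0
    have h2 : ∀ l, T.absK (eval (fun t => T.sharp (b * v t)) (Q l)) ≤ δ := by
      rintro (l | ⟨s, l⟩)
      · change T.absK (eval _ (MvPolynomial.map (algebraMap K C) (S l))) ≤ δ
        rw [eval_map_alg]
        refine hGa l (fun t => b * v t) h1 ?_
        rw [smul_aeval (hG l), hvG l, mul_zero]
      · change T.absK (eval _ (MvPolynomial.map (algebraMap K C) (Rw ⟨s, l⟩))) ≤ δ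
        rw [eval_map_alg, hRw]
        have h3 := tube_scale T.toTiltPair (hR s l) (hYt s _ (hv s) l) (pow_ne_zero (a s) hb)
          (fun i => by
            rw [← mul_pow, map_pow]
            exact pow_le_one₀ (T.absF.nonneg _) (h1 _))
        have h4 : (fun i => T.sharp (b * v (Sum.inr (Sum.inl ⟨s, i⟩))) ^ a s) =
            fun i => T.sharp (b ^ a s * v (Sum.inr (Sum.inl ⟨s, i⟩)) ^ a s) :=
          funext fun i => by rw [← map_pow, mul_pow]
        rw [h4]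
        exact h3
    refine ⟨b, hb, h2, h1, ?_⟩
    by_contra hno
    push Not at hno
    have h3 := hs1 t (fun t => T.sharp (b * v t)) (fun i => by rw [T.abs_sharp]; exact h1 i) (by
      rintro (l | j)
      · exact (h2 l).trans ((min_le_left _ _).trans (hδa' t))
      · rw [Sum.elim_inr, map_pow, eval_X, ← map_pow, T.abs_sharp, mul_pow]
        exact (hno j).trans ((min_le_left _ _).trans (hδa' t)))
    rw [eval_X, T.abs_sharp, ht] at h3
    norm_num at h3
  have hnb : MNoBase F Y a G := by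
    intro v hv hvG hvy
    by_contra hv0
    obtain ⟨b, _, _, _, j, hj⟩ := key v hv hvG hv0
    rw [hvy j, zero_pow he.ne', mul_zero, map_zero] at hj
    exact absurd hj (not_lt.2 hc0.le)
  have hY0 : ∀ s, (0 : ι s → F) ∈ Y s := fun s => zero_mem_of_dimGE (hY s).2 (hYge s)
  refine ⟨mimg F Y a e G, mimg_cone hY hY0 ha he G hGf hnb,
    mimg_dim hY hYge hYle ha he G hGf hnb ?_, ?_⟩
  · rw [Fintype.card_sum, Fintype.card_sum, Fintype.card_sigma]
    omega
  rintro x ⟨v, hv, hvG, hx⟩ k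
  by_cases hv0 : v = 0
  · have hx0 : x = 0 := by
      funext j
      rw [hx j, hv0]
      exact zero_pow he.ne'
    rw [hx0]
    exact tube_zero _ hε.le (hPX k 0 hz')
  · obtain ⟨b, hb, h2, h1, j, hj⟩ := key v hv hvG hv0
    refine tube_of_normal' T.toTiltPair (hP k) hε.le hc0 (pow_ne_zero e hb)
      ⟨j, by rw [hx j]; exact hj.le⟩ ?_
    have h3 := hs3 k (fun t => T.sharp (b * v t)) (fun i => by rw [T.abs_sharp]; exact h1 i)
      (fun l => (h2 l).trans ((min_le_right _ _).trans (hδc' k)))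
    rw [eval_map_alg, hPw] at h3
    have h4 : (fun j => T.sharp (b * v (Sum.inr (Sum.inr j))) ^ e) =
        fun j => T.sharp (b ^ e * x j) :=
      funext fun j => by rw [← map_pow, mul_pow, hx j]
    rw [h4] at h3
    exact h3

end Pool.Agent.Q221.TL
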