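import Pool.Agent.Q221.TL.Final

/-!
# Images of products, and the class of varieties generated by toric varieties
-/

set_option autoImplicit false

open MvPolynomial Pool.Agent.Y129.TA Pool.Agent.Y129.TB

set_option linter.unusedSectionVars false

namespace Pool.Agent.Q221.TL

/-- `f` is bihomogeneous of bidegree `(a, b)`. -/
def IsBihomogeneous {k ι₁ ι₂ : Type} [Field k] [Fintype ι₁] [Fintype ι₂]
    (f : MvPolynomial (ι₁ ⊕ ι₂) k) (a b : ℕ) : Prop :=
  ∀ m ∈ f.support, ∑ i, m (Sum.inl i) = a ∧ ∑ i, m (Sum.inr i) = b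

/-- The image of the product of `X₁` and `X₂` under the map given by the `f j`. -/
def productImage {Ω : Type} [Field Ω] {k : Type} [Field k] [Algebra k Ω] {ι₁ ι₂ β : Type}
    (X₁ : Set (ι₁ → Ω)) (X₂ : Set (ι₂ → Ω)) (f : β → MvPolynomial (ι₁ ⊕ ι₂) k) : Set (β → Ω) :=
  {x | ∃ x₁ ∈ X₁, ∃ x₂ ∈ X₂, ∀ j, x j = aeval (Sum.elim x₁ x₂) (f j)}

/-- The `f j` have no common zero on the product of `X₁` and `X₂`. -/
def NoZeroOnProduct {Ω : Type} [Field Ω] {k : Type} [Field k] [Algebra k Ω] {ι₁ ι₂ β : Type}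
    (X₁ : Set (ι₁ → Ω)) (X₂ : Set (ι₂ → Ω)) (f : β → MvPolynomial (ι₁ ⊕ ι₂) k) : Prop :=
  ∀ x₁ ∈ X₁, ∀ x₂ ∈ X₂, (∀ j, aeval (Sum.elim x₁ x₂) (f j) = 0) → x₁ = 0 ∨ x₂ = 0

theorem exists_word {ι : Type} [Fintype ι] (n : ι → ℕ) (a : ℕ) (hn : ∑ i, n i = a) :
    ∃ w : Fin a → ι, ∀ {Ω : Type} [Field Ω] (x : ι → Ω), ∏ i, x (w i) = ∏ i, x i ^ n i := by
  classical
  subst hn
  let E : Fin (∑ i, n i) ≃ Σ i, Fin (n i) := Fintype.equivOfCardEq (by simp)
  refine ⟨fun i => (E i).1, fun x => ?_⟩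
  rw [E.prod_comp (fun t : Σ i, Fin (n i) => x t.1), Fintype.prod_sigma]
  refine Finset.prod_congr rfl fun i _ => ?_
  simp

section

variable {p : ℕ} [hp : Fact p.Prime] {C F K E : Type} [Field C] [Field F] [CharP F p] [Field K]
  [Field E] [Algebra K C] [Algebra E F]

/-- Q1 is stable under images. -/
theorem image_final [IsAlgClosed C] [IsAlgClosed F] (T : Tilting p C F)
    (B : BaseField T K E) {ι β : Type} [Fintype ι] [Fintype β] [Nonempty β] {X : Set (ι → C)}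
    (hX : IsConeOver K X) {d : ℕ} (hd1 : DimGE X d) (hd2 : DimLE X d)
    (hXa : Approximable T.toTiltPair K E X d) {f : β → MvPolynomial ι K} {e : ℕ} (he : 0 < e)
    (hf : ∀ i, (f i).IsHomogeneous e) (h0 : NoZeroOn X f) :
    IsConeOver K (imageSet X f) ∧ DimGE (imageSet X f) d ∧ DimLE (imageSet X f) d ∧
      Approximable T.toTiltPair K E (imageSet X f) d := by
  have h1 : fiberSet C (fun _ : Fin 1 => X) (fun j : Fin 0 => (j.elim0 : MvPolynomial ι K))
      (fun _ => MvPolynomial.X) = X := by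
    ext z
    constructor
    · rintro ⟨-, h⟩
      have := h 0
      simpa using this
    · intro h
      refine ⟨fun j => j.elim0, fun _ => ?_⟩
      simpa using h
  have h2 := corr_final T B (X := fun _ : Fin 1 => X) (fun _ => hX) (d := fun _ => d)
    (fun _ => hd1) (fun _ => hd2) (fun _ => hXa) (h := fun j : Fin 0 => j.elim0)
    (φ := fun _ => MvPolynomial.X) (a := fun _ => 1) (f := f) (fun j => j.elim0)
    (fun _ => one_pos) (fun _ i => isHomogeneous_X _ _) he hf (by rw [h1]; exact h0) (d' := d)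
    (by simp) (by rw [h1]; exact hd2)
  rw [h1] at h2
  exact h2

/-- Q1 is stable under bihomogeneous images of products. -/
theorem productImage_final [IsAlgClosed C] [IsAlgClosed F] (T : Tilting p C F)
    (B : BaseField T K E) {ι₁ ι₂ β : Type} [Fintype ι₁] [Fintype ι₂] [Fintype β] [Nonempty ι₁]
    [Nonempty ι₂] [Nonempty β] {X₁ : Set (ι₁ → C)} {X₂ : Set (ι₂ → C)} {d₁ d₂ : ℕ}
    (h₁ : IsConeOver K X₁) (h₂ : IsConeOver K X₂) (g₁ : DimGE X₁ d₁) (l₁ : DimLE X₁ d₁)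
    (g₂ : DimGE X₂ d₂) (l₂ : DimLE X₂ d₂) (a₁ : Approximable T.toTiltPair K E X₁ d₁)
    (a₂ : Approximable T.toTiltPair K E X₂ d₂) {a b : ℕ} (ha : 0 < a) (hb : 0 < b)
    {f : β → MvPolynomial (ι₁ ⊕ ι₂) K} (hf : ∀ j, IsBihomogeneous (f j) a b)
    (h0 : NoZeroOnProduct X₁ X₂ f) :
    IsConeOver K (productImage X₁ X₂ f) ∧ DimGE (productImage X₁ X₂ f) (d₁ + d₂) ∧
      DimLE (productImage X₁ X₂ f) (d₁ + d₂) ∧
        Approximable T.toTiltPair K E (productImage X₁ X₂ f) (d₁ + d₂) := by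
  classical
  have z₁ : (0 : ι₁ → C) ∈ X₁ := zero_mem_of_dimGE h₁.2 g₁
  have z₂ : (0 : ι₂ → C) ∈ X₂ := zero_mem_of_dimGE h₂.2 g₂
  have vhom : ∀ {ι : Type} [Fintype ι] (c : ℕ) (w : Fin c → ι),
      (∏ i, MvPolynomial.X (w i) : MvPolynomial ι K).IsHomogeneous c := by
    intro ι _ c w
    have := IsHomogeneous.prod (R := K) Finset.univ (fun i : Fin c => MvPolynomial.X (w i))
      (fun _ => 1) fun i _ => isHomogeneous_X K (w i)
    simpa using this
  have vzero : ∀ {ι : Type} [Fintype ι] (c : ℕ), 0 < c → ∀ X : Set (ι → C),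
      NoZeroOn X (fun w : Fin c → ι => (∏ i, MvPolynomial.X (w i) : MvPolynomial ι K)) := by
    intro ι _ c hc X x _ h
    funext i
    have h1 := h fun _ => i
    rw [map_prod] at h1
    simp only [aeval_X, Finset.prod_const, Finset.card_univ, Fintype.card_fin] at h1
    exact (pow_eq_zero_iff hc.ne').1 h1
  obtain ⟨c₁, gg₁, ll₁, aa₁⟩ := image_final T B h₁ g₁ l₁ a₁ ha
    (f := fun w : Fin a → ι₁ => (∏ i, MvPolynomial.X (w i) : MvPolynomial ι₁ K))
    (fun w => vhom a w) (vzero a ha X₁)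
  obtain ⟨c₂, gg₂, ll₂, aa₂⟩ := image_final T B h₂ g₂ l₂ a₂ hb
    (f := fun w : Fin b → ι₂ => (∏ i, MvPolynomial.X (w i) : MvPolynomial ι₂ K))
    (fun w => vhom b w) (vzero b hb X₂)
  obtain ⟨c₃, g₃, l₃, a₃⟩ := product_final T B c₁ c₂ gg₁ ll₁ gg₂ ll₂ aa₁ aa₂
  choose w₁ hw₁ using fun (j : β) (m : (f j).support) =>
    exists_word (fun i => m.1 (Sum.inl i)) a (hf j m.1 m.2).1
  choose w₂ hw₂ using fun (j : β) (m : (f j).support) =>
    exists_word (fun i => m.1 (Sum.inr i)) b (hf j m.1 m.2).2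
  let L : β → MvPolynomial ((Fin a → ι₁) × (Fin b → ι₂)) K := fun j =>
    ∑ m : (f j).support, MvPolynomial.C (coeff m.1 (f j)) * MvPolynomial.X (w₁ j m, w₂ j m)
  have hL : ∀ j, (L j).IsHomogeneous 1 := by
    intro j
    refine IsHomogeneous.sum _ _ _ fun m _ => ?_
    have := (isHomogeneous_C ((Fin a → ι₁) × (Fin b → ι₂)) (coeff m.1 (f j))).mul
      (isHomogeneous_X K (w₁ j m, w₂ j m))
    rwa [zero_add] at this
  have hLe : ∀ j (x₁ : ι₁ → C) (x₂ : ι₂ → C),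
      aeval (fun i : (Fin a → ι₁) × (Fin b → ι₂) => (∏ t, x₁ (i.1 t)) * ∏ t, x₂ (i.2 t)) (L j) =
        aeval (Sum.elim x₁ x₂) (f j) := by
    intro j x₁ x₂
    have h1 : aeval (Sum.elim x₁ x₂) (f j) = ∑ m ∈ (f j).support,
        algebraMap K C (coeff m (f j)) * ((∏ i, x₁ i ^ m (Sum.inl i)) *
          ∏ i, x₂ i ^ m (Sum.inr i)) := by
      rw [aeval_def, eval₂_eq']
      refine Finset.sum_congr rfl fun m _ => ?_
      rw [Fintype.prod_sum_type]
      simp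
    have h8 := Finset.sum_coe_sort (f j).support (fun m => algebraMap K C (coeff m (f j)) *
      ((∏ i, x₁ i ^ m (Sum.inl i)) * ∏ i, x₂ i ^ m (Sum.inr i)))
    rw [h1, map_sum, ← h8]
    refine Finset.sum_congr rfl fun m _ => ?_
    rw [map_mul, aeval_C, aeval_X]
    simp only
    rw [hw₁, hw₂]
  have hset : ∀ (S : Set (((Fin a → ι₁) × (Fin b → ι₂)) → C)),
      S = segre (imageSet X₁ fun w : Fin a → ι₁ => (∏ i, MvPolynomial.X (w i) : MvPolynomial ι₁ K))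
        (imageSet X₂ fun w : Fin b → ι₂ => (∏ i, MvPolynomial.X (w i) : MvPolynomial ι₂ K)) →
      ∀ z ∈ S, ∃ x₁ ∈ X₁, ∃ x₂ ∈ X₂, z = fun i => (∏ t, x₁ (i.1 t)) * ∏ t, x₂ (i.2 t) := by
    rintro S rfl z ⟨y₁, ⟨x₁, hx₁, hy₁⟩, y₂, ⟨x₂, hx₂, hy₂⟩, hz⟩
    refine ⟨x₁, hx₁, x₂, hx₂, funext fun i => ?_⟩
    rw [hz i, hy₁, hy₂, map_prod, map_prod]
    simp only [aeval_X]
  have h4 : NoZeroOn (segre (imageSet X₁ fun w : Fin a → ι₁ =>
      (∏ i, MvPolynomial.X (w i) : MvPolynomial ι₁ K))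
        (imageSet X₂ fun w : Fin b → ι₂ => (∏ i, MvPolynomial.X (w i) : MvPolynomial ι₂ K))) L := by
    intro z hz hzL
    obtain ⟨x₁, hx₁, x₂, hx₂, rfl⟩ := hset _ rfl z hz
    have h5 := h0 x₁ hx₁ x₂ hx₂ fun j => by rw [← hLe]; exact hzL j
    funext i
    rcases h5 with h5 | h5
    · have : ∏ t, x₁ (i.1 t) = 0 :=
        Finset.prod_eq_zero (Finset.mem_univ (⟨0, ha⟩ : Fin a)) (by rw [h5]; rfl)
      rw [this, zero_mul]
      rfl
    · have : ∏ t, x₂ (i.2 t) = 0 :=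
        Finset.prod_eq_zero (Finset.mem_univ (⟨0, hb⟩ : Fin b)) (by rw [h5]; rfl)
      rw [this, mul_zero]
      rfl
  have h6 := image_final T B c₃ g₃ l₃ a₃ one_pos hL h4
  have h7 : imageSet (segre (imageSet X₁ fun w : Fin a → ι₁ =>
      (∏ i, MvPolynomial.X (w i) : MvPolynomial ι₁ K))
        (imageSet X₂ fun w : Fin b → ι₂ => (∏ i, MvPolynomial.X (w i) : MvPolynomial ι₂ K))) L =
          productImage X₁ X₂ f := by
    ext x
    constructor
    · rintro ⟨z, hz, hx⟩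
      obtain ⟨x₁, hx₁, x₂, hx₂, rfl⟩ := hset _ rfl z hz
      exact ⟨x₁, hx₁, x₂, hx₂, fun j => by rw [hx j, hLe]⟩
    · rintro ⟨x₁, hx₁, x₂, hx₂, hx⟩
      refine ⟨fun i => (∏ t, x₁ (i.1 t)) * ∏ t, x₂ (i.2 t), ⟨fun w => ∏ t, x₁ (w t),
        ⟨x₁, hx₁, fun w => ?_⟩, fun w => ∏ t, x₂ (w t), ⟨x₂, hx₂, fun w => ?_⟩, fun i => rfl⟩,
        fun j => by rw [hx j, hLe]⟩
      · rw [map_prod]
        simp only [aeval_X]
      · rw [map_prod]
        simp only [aeval_X]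
  rw [h7] at h6
  exact h6

end

/-- The class of closed subsets of projective spaces generated by the toric varieties, with the
operations: finite union, product (Segre embedding), and correspondences of the expected
dimension. -/
inductive Generated (C K : Type) [Field C] [Field K] [Algebra K C] :
    (ι : Type) → Set (ι → C) → ℕ → Prop
  | toric {ι : Type} [Fintype ι] [Nonempty ι] {S : Set ((ι → ℕ) × (ι → ℕ))} (hS : Balanced S)
      {d : ℕ} (h1 : ∀ (Ω : Type) [Field Ω] [IsAlgClosed Ω], DimGE (binomialSet Ω S) d)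
      (h2 : DimLE (binomialSet C S) d) : Generated C K ι (binomialSet C S) d
  | union {ι : Type} [Fintype ι] [Nonempty ι] {N : ℕ} (hN : 0 < N) {X : Fin N → Set (ι → C)}
      {d : ℕ} (hX : ∀ s, Generated C K ι (X s) d) : Generated C K ι (⋃ s, X s) d
  | product {ι₁ ι₂ : Type} [Fintype ι₁] [Fintype ι₂] [Nonempty ι₁] [Nonempty ι₂]
      {X₁ : Set (ι₁ → C)} {X₂ : Set (ι₂ → C)} {d₁ d₂ : ℕ} (h₁ : Generated C K ι₁ X₁ d₁)
      (h₂ : Generated C K ι₂ X₂ d₂) : Generated C K (ι₁ × ι₂) (segre X₁ X₂) (d₁ + d₂)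
  | corr {α β κ : Type} {N : ℕ} {ι : Fin N → Type} [Fintype α] [∀ s, Fintype (ι s)] [Fintype β]
      [Fintype κ] [Nonempty β] {X : ∀ s, Set (ι s → C)} {d : Fin N → ℕ}
      (hX : ∀ s, Generated C K (ι s) (X s) (d s)) {h : κ → MvPolynomial α K}
      {φ : ∀ s, ι s → MvPolynomial α K} {a : Fin N → ℕ} {f : β → MvPolynomial α K} {e : ℕ}
      (hh : ∀ j, IsForm (h j)) (ha : ∀ s, 0 < a s) (hφ : ∀ s i, (φ s i).IsHomogeneous (a s))
      (he : 0 < e) (hf : ∀ i, (f i).IsHomogeneous e) (h0 : NoZeroOn (fiberSet C X h φ) f) {d' : ℕ}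
      (hd : Fintype.card κ + ∑ s, Fintype.card (ι s) + d' + 1 ≤
        Fintype.card α + ∑ s, (d s + 1)) (hZ : DimLE (fiberSet C X h φ) d') :
      Generated C K β (imageSet (fiberSet C X h φ) f) d'

theorem generated_final {p : ℕ} [hp : Fact p.Prime] {C F K E : Type} [Field C] [Field F]
    [CharP F p] [Field K] [Field E] [Algebra K C] [Algebra E F] [IsAlgClosed C] [IsAlgClosed F]
    (T : Tilting p C F) (B : BaseField T K E) {ι : Type} {X : Set (ι → C)} {d : ℕ}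
    (h : Generated C K ι X d) :
    IsConeOver K X ∧ DimGE X d ∧ DimLE X d ∧ Approximable T.toTiltPair K E X d := by
  induction h with
  | toric hS h1 h2 =>
    exact ⟨binomial_over K C hS, h1 C, h2, toric_final T B hS (h1 F) (h1 C) h2⟩
  | union hN _ ih =>
    exact union_final T B hN (fun s => (ih s).1) (fun s => (ih s).2.1) (fun s => (ih s).2.2.1)
      fun s => (ih s).2.2.2
  | product _ _ ih₁ ih₂ =>
    exact product_final T B ih₁.1 ih₂.1 ih₁.2.1 ih₁.2.2.1 ih₂.2.1 ih₂.2.2.1 ih₁.2.2.2 ih₂.2.2.2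
  | corr _ hh ha hφ he hf h0 hd hZ ih =>
    exact corr_final T B (fun s => (ih s).1) (fun s => (ih s).2.1) (fun s => (ih s).2.2.1)
      (fun s => (ih s).2.2.2) hh ha hφ he hf h0 hd hZ

end Pool.Agent.Q221.TL
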