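import Pool.Agent.Q221.TL.Corr

/-!
# Approximation of the transforms
-/

set_option autoImplicit false

open MvPolynomial Pool.Agent.Y129.TA Pool.Agent.Y129.TB

set_option linter.unusedSectionVars false

namespace Pool.Agent.Q221.TL

variable {p : ℕ} [hp : Fact p.Prime] {C F K E : Type} [Field C] [Field F] [CharP F p] [Field K]
  [Field E] [Algebra K C] [Algebra E F] {α ι β κ : Type} [Fintype α] [Fintype ι] [Fintype β]
  [Fintype κ]

theorem tube_of_normal' (T : TiltPair p C F) {P : MvPolynomial ι K} {D : ℕ}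
    (hP : P.IsHomogeneous D) {ε c : ℝ} (hε : 0 ≤ ε) (hc : 0 < c) {y : ι → F} {a : F} (ha : a ≠ 0)
    (h1 : ∃ i, c ≤ T.absF (a * y i))
    (h2 : T.absK (aeval (fun i => T.sharp (a * y i)) P) ≤ ε * c ^ D) : InTube T P D ε y := by
  intro B hB
  obtain ⟨i, hi⟩ := h1
  have hA : 0 < T.absF a := T.absF.pos ha
  have h3 : (fun i => T.sharp (a * y i)) = fun i => T.sharp a * T.sharp (y i) :=
    funext fun i => map_mul _ _ _
  rw [h3, smul_aeval hP, map_mul, map_pow, T.abs_sharp] at h2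
  have h4 : c ≤ T.absF a * B := by
    refine hi.trans ?_
    rw [map_mul]
    exact mul_le_mul_of_nonneg_left (hB i) hA.le
  have h5 : T.absF a ^ D * T.absK (aeval (fun i => T.sharp (y i)) P) ≤
      T.absF a ^ D * (ε * B ^ D) := by
    calc _ ≤ ε * c ^ D := h2
      _ ≤ ε * (T.absF a * B) ^ D :=
        mul_le_mul_of_nonneg_left (pow_le_pow_left₀ hc.le h4 _) hε
      _ = _ := by rw [mul_pow]; ring
  exact le_of_mul_le_mul_left h5 (pow_pos hA _)

theorem zero_mem_of_approx {T : TiltPair p C F} {X : Set (ι → C)} (hX : IsConeOver K X) {d : ℕ}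
    (h : Approximable T K E X d) : (0 : ι → C) ∈ X := by
  rcases X.eq_empty_or_nonempty with h0 | ⟨x, hx⟩
  · obtain ⟨Y, hY, hYd, -, hYt⟩ := h 1 (fun _ => 1) (fun _ => 0) (fun _ => isHomogeneous_one _ _)
      (fun _ x hx => by rw [h0] at hx; exact hx.elim) (1 / 2) (by norm_num)
    obtain ⟨y, hy, -⟩ := hYd (fun _ => 0) fun _ => ⟨1, one_pos, isHomogeneous_zero _ _ _⟩
    have h1 := hYt y hy 0 (∑ i, T.absF (y i)) fun i =>
      Finset.single_le_sum (f := fun i => T.absF (y i)) (fun i _ => T.absF.nonneg _)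
        (Finset.mem_univ i)
    simp only [map_one, pow_zero, mul_one] at h1
    norm_num at h1
  · have := hX.2 0 x hx
    rwa [zero_smul] at this

/-- Q1 is stable under correspondences of the expected dimension. -/
theorem approx_transform [IsAlgClosed C] [IsAlgClosed F] (T : Tilting p C F) (B : BaseField T K E)
    [Nonempty β] {X : Set (ι → C)} (hX : IsConeOver K X) {d : ℕ}
    (hXa : Approximable T.toTiltPair K E X d) {h : κ → MvPolynomial α K}
    {φ : ι → MvPolynomial α K} {a : ℕ} {f : β → MvPolynomial α K} {e : ℕ}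
    (hh : ∀ j, IsForm (h j)) (ha : 0 < a) (hφ : ∀ i, (φ i).IsHomogeneous a) (he : 0 < e)
    (hf : ∀ i, (f i).IsHomogeneous e) (h0 : NoBasePoints C X h φ f) {d' : ℕ}
    (hd : Fintype.card κ + Fintype.card ι + d' ≤ Fintype.card α + d)
    (hX' : DimLEOver K (transform C X h φ f) d') :
    IsConeOver K (transform C X h φ f) ∧
      Approximable T.toTiltPair K E (transform C X h φ f) d' := by
  classical
  have hz : (0 : ι → C) ∈ X := zero_mem_of_approx hX hXa
  have hcone : IsConeOver K (transform C X h φ f) := by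
    rw [transform_eq X ha he]
    exact img_cone hX hz ha he _ (sys_form hh hφ ha hf he) (noBase_sys hφ ha he h0)
  have hz' : (0 : β → C) ∈ transform C X h φ f := by
    refine ⟨0, fun j => aeval_zero_form (hh j), ?_, fun j => ?_⟩
    · have h1 : (fun i => aeval (0 : α → C) (φ i)) = (0 : ι → C) := by
        funext i
        rw [Pi.zero_apply]
        exact aeval_zero_form ⟨a, ha, hφ i⟩
      rw [h1]
      exact hz
    · rw [Pi.zero_apply]
      exact (aeval_zero_form ⟨e, he, hf j⟩).symm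
  refine ⟨hcone, mk_approx T B hcone hz' hX' ?_⟩
  intro r P DP hP hPX ε hε
  obtain ⟨N, R, DR, hDR, hR, hXR⟩ := defining hX hz
  -- the system over `C`
  let S : κ ⊕ (ι ⊕ β) → MvPolynomial (α ⊕ (ι ⊕ β)) K := sys h φ a f e
  let Rw : Fin N → MvPolynomial (α ⊕ (ι ⊕ β)) K := fun l =>
    aeval (fun i => MvPolynomial.X (Sum.inr (Sum.inl i)) ^ a) (R l)
  let Pw : Fin r → MvPolynomial (α ⊕ (ι ⊕ β)) K := fun l =>
    aeval (fun j => MvPolynomial.X (Sum.inr (Sum.inr j)) ^ e) (P l)
  have hRw : ∀ l (v : α ⊕ (ι ⊕ β) → C), aeval v (Rw l) =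
      aeval (fun i => v (Sum.inr (Sum.inl i)) ^ a) (R l) := by
    intro l v
    change aeval v (aeval _ (R l)) = _
    rw [aeval_comp]
    simp
  have hPw : ∀ l (v : α ⊕ (ι ⊕ β) → C), aeval v (Pw l) =
      aeval (fun j => v (Sum.inr (Sum.inr j)) ^ e) (P l) := by
    intro l v
    change aeval v (aeval _ (P l)) = _
    rw [aeval_comp]
    simp
  let Q : (κ ⊕ (ι ⊕ β)) ⊕ Fin N → MvPolynomial (α ⊕ (ι ⊕ β)) C := fun l =>
    MvPolynomial.map (algebraMap K C) (Sum.elim S Rw l)
  have hQ : ∀ v : α ⊕ (ι ⊕ β) → C, (∀ l, eval v (Q l) = 0) →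
      v ∈ pre α β X a ∧ ∀ l, aeval v (S l) = 0 := by
    intro v hv
    constructor
    · change (fun i => v (Sum.inr (Sum.inl i)) ^ a) ∈ X
      rw [hXR]
      intro l
      rw [← hRw, ← eval_map_alg]
      exact hv (Sum.inr l)
    · intro l
      rw [← eval_map_alg]
      exact hv (Sum.inl l)
  -- (i): the coordinates `y` are not all small
  have s1 : ∀ t : α ⊕ (ι ⊕ β), ∃ δ : ℝ, 0 < δ ∧ ∀ v : α ⊕ (ι ⊕ β) → C,
      (∀ i, T.absK (v i) ≤ 1) →
      (∀ l, T.absK (eval v (Sum.elim Q (fun j => MvPolynomial.X (Sum.inr (Sum.inr j)) ^ e) l)) ≤ δ) →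
      T.absK (eval v (MvPolynomial.X t)) ≤ 1 / 2 := by
    intro t
    refine small T.ultraK _ _ (fun v hv => ?_) (by norm_num)
    obtain ⟨h1, h2⟩ := hQ v fun l => hv (Sum.inl l)
    have h3 := noBase_sys hφ ha he h0 v h1 h2 (fun j => by
      have := hv (Sum.inr j)
      rw [Sum.elim_inr, map_pow, eval_X] at this
      exact (pow_eq_zero_iff he.ne').1 this)
    rw [eval_X, h3]
    rfl
  choose δ₁ hδ₁ hs1 using s1
  obtain ⟨δa, hδa, hδa'⟩ := exists_pos_le δ₁ hδ₁
  set c : ℝ := min δa 1 with hc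
  have hc0 : 0 < c := lt_min hδa one_pos
  have s3 : ∀ k : Fin r, ∃ δ : ℝ, 0 < δ ∧ ∀ v : α ⊕ (ι ⊕ β) → C, (∀ i, T.absK (v i) ≤ 1) →
      (∀ l, T.absK (eval v (Q l)) ≤ δ) →
      T.absK (eval v (MvPolynomial.map (algebraMap K C) (Pw k))) ≤ ε * c ^ DP k := by
    intro k
    refine small T.ultraK _ _ (fun v hv => ?_) (by positivity)
    obtain ⟨h1, h2⟩ := hQ v hv
    rw [eval_map_alg, hPw]
    refine hPX k _ ?_
    rw [transform_eq X ha he]
    exact ⟨v, h1, h2, fun j => rfl⟩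
  choose δ₃ hδ₃ hs3 using s3
  obtain ⟨δc, hδc, hδc'⟩ := exists_pos_le δ₃ hδ₃
  set δ : ℝ := min δa δc with hδ
  have hδ0 : 0 < δ := lt_min hδa hδc
  -- the approximations
  have a1 : ∀ l : κ ⊕ (ι ⊕ β), ∃ D, 0 < D ∧ ∃ g : MvPolynomial (α ⊕ (ι ⊕ β)) E,
      g.IsHomogeneous D ∧ ∀ t : α ⊕ (ι ⊕ β) → F, (∀ i, T.absF (t i) ≤ 1) → aeval t g = 0 →
        T.absK (aeval (fun i => T.sharp (t i)) (S l)) ≤ δ := by
    intro l
    obtain ⟨D, hD, hD'⟩ := sys_form hh hφ ha hf he l
    exact approx T B hD hD' hδ0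
  choose DG hDG G hG hGa using a1
  have hGf : ∀ l, IsForm (G l) := fun l => ⟨DG l, hDG l, hG l⟩
  obtain ⟨Y, hY, hYge, hYle, hYt⟩ := hXa N R DR hR (fun l x hx => by
    rw [hXR] at hx; exact hx l) δ hδ0
  -- the main estimate for a normalised point
  have key : ∀ v ∈ pre α β Y a, (∀ l, aeval v (G l) = 0) → v ≠ 0 → ∃ b : F, b ≠ 0 ∧
      (∀ l, T.absK (eval (fun t => T.sharp (b * v t)) (Q l)) ≤ δ) ∧
      (∀ t, T.absF (b * v t) ≤ 1) ∧
      ∃ j, c < T.absF (b ^ e * v (Sum.inr (Sum.inr j)) ^ e) := by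
    intro v hv hvG hv0
    obtain ⟨b, hb, h1, t, ht⟩ := exists_normal T.toTiltPair hv0
    have h2 : ∀ l, T.absK (eval (fun t => T.sharp (b * v t)) (Q l)) ≤ δ := by
      rintro (l | l)
      · change T.absK (eval _ (MvPolynomial.map (algebraMap K C) (S l))) ≤ δ
        rw [eval_map_alg]
        refine hGa l (fun t => b * v t) h1 ?_
        rw [smul_aeval (hG l), hvG l, mul_zero]
      · change T.absK (eval _ (MvPolynomial.map (algebraMap K C) (Rw l))) ≤ δ
        rw [eval_map_alg, hRw]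
        have h3 := tube_scale T.toTiltPair (hR l) (hYt _ hv l) (pow_ne_zero a hb) (fun i => by
          rw [← mul_pow, map_pow]
          exact pow_le_one₀ (T.absF.nonneg _) (h1 _))
        have h4 : (fun i => T.sharp (b * v (Sum.inr (Sum.inl i))) ^ a) =
            fun i => T.sharp (b ^ a * v (Sum.inr (Sum.inl i)) ^ a) :=
          funext fun i => by rw [← map_pow, mul_pow]
        rw [h4]
        exact h3
    refine ⟨b, hb, h2, h1, ?_⟩
    by_contra hno
    push Not at hno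
    have h3 := hs1 t (fun t => T.sharp (b * v t)) (fun i => by rw [T.abs_sharp]; exact h1 i) (by
      rintro (l | j)
      · exact (h2 l).trans ((min_le_left _ _).trans (hδa' t))
      · rw [Sum.elim_inr, map_pow, eval_X, ← map_pow, T.abs_sharp, mul_pow]
        exact (hno j).trans ((min_le_left _ _).trans (hδa' t)))
    rw [eval_X, T.abs_sharp, ht] at h3
    norm_num at h3
  have hnb : NoBase F Y a G := by
    intro v hv hvG hvy
    by_contra hv0
    obtain ⟨b, _, _, _, j, hj⟩ := key v hv hvG hv0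
    rw [hvy j, zero_pow he.ne', mul_zero, map_zero] at hj
    exact absurd hj (not_lt.2 hc0.le)
  have hY0 : (0 : ι → F) ∈ Y := zero_mem_of_dimGE hY.2 hYge
  refine ⟨img F Y a e G, img_cone hY hY0 ha he G hGf hnb,
    img_dim hY hYge hYle ha he G hGf hnb ?_, ?_⟩
  · rw [Fintype.card_sum, Fintype.card_sum]
    omega
  rintro x ⟨v, hv, hvG, hx⟩ k
  by_cases hv0 : v = 0
  · have hx0 : x = 0 := by
      funext j
      rw [hx j, hv0]
      exact zero_pow he.ne'
    rw [hx0]
    exact tube_zero _ hε.le (hPX k 0 hz')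
  · obtain ⟨b, hb, h2, h1, j, hj⟩ := key v hv hvG hv0
    refine tube_of_normal' T.toTiltPair (hP k) hε.le hc0 (pow_ne_zero e hb)
      ⟨j, by rw [hx j]; exact hj.le⟩ ?_
    have h3 := hs3 k (fun t => T.sharp (b * v t)) (fun i => by rw [T.abs_sharp]; exact h1 i)
      (fun l => (h2 l).trans ((min_le_right _ _).trans (hδc' k)))
    rw [eval_map_alg, hPw] at h3
    have h4 : (fun j => T.sharp (b * v (Sum.inr (Sum.inr j))) ^ e) =
        fun j => T.sharp (b ^ e * x j) :=
      funext fun j => by rw [← map_pow, mul_pow, hx j]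
    rw [h4] at h3
    exact h3

end Pool.Agent.Q221.TL
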